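import Pool.Agent.LatticeTube.Strand

/-! (G5), second part: closing two strands at the top. -/

set_option autoImplicit false

open Pool.Agent.LK Set

namespace Pool.Agent.LatticeTube

variable {B : Finset (ℤ × ℤ)} {p0 : List (ℤ × ℤ)} {c0 : ℤ × ℤ}

theorem vert_mem {N : ℕ} {P : List P3} {a a' : ℤ × ℤ} {q : List (ℤ × ℤ)}
    (hl : P.getLast? = some (a.1, a.2, (N : ℤ))) (hq : PathIn B a a' q) :
    s((a.1, a.2, (N : ℤ)), (a.1, a.2, (N : ℤ) + 1)) ∈ pedges (P ++ lev (N + 1) q) := by
  obtain ⟨P', hP'⟩ := List.getLast?_eq_some_iff.1 hl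
  obtain ⟨r, hr⟩ : ∃ r, lev (N + 1) q = (a.1, a.2, ((N + 1 : ℕ) : ℤ)) :: r := by
    have h6 := hq.head_lev (N + 1)
    rcases hm : lev (N + 1) q with _ | ⟨x, r⟩
    · rw [hm] at h6; simp at h6
    · rw [hm] at h6
      simp only [List.head?_cons, Option.some.injEq] at h6
      exact ⟨r, by rw [h6]⟩
  rw [hP', hr]
  have := mem_pedges_append P' r (a.1, a.2, (N : ℤ)) (a.1, a.2, ((N + 1 : ℕ) : ℤ))
  push_cast at this ⊢
  exact this

theorem length_lev (k : ℕ) (p : List (ℤ × ℤ)) : (lev k p).length = p.length := by simp [lev]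

theorem getD_mem {l : List P3} {i : ℕ} (h : i < l.length) : l.getD i 0 ∈ l := by
  rw [List.getD_eq_getElem _ _ h]; exact List.getElem_mem _

theorem Inv.close {N : ℕ} {s : St} {P R : List P3} (h : Inv B p0 c0 N s P R) {d0 : ℤ × ℤ}
    (hp0 : PathIn B c0 d0 p0) (hne0 : c0 ≠ d0) {q : List (ℤ × ℤ)} (hq : PathIn B s.2 s.1 q) :
    IsPolygon (pedges (P ++ lev (N + 1) q ++ R)) ∧
    Cyc (pedges (P ++ lev (N + 1) q ++ R)) (P.length + q.length + R.length - 1)
      (fun i => (P ++ lev (N + 1) q ++ R).getD i 0) ∧
    UpDown (P.length + q.length + R.length - 1) (P.length + q.length - 1)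
      (fun i => (P ++ lev (N + 1) q ++ R).getD i 0) ∧
    InTube B (pedges (P ++ lev (N + 1) q ++ R)) ∧ NormZ (pedges (P ++ lev (N + 1) q ++ R)) ∧
    span (pedges (P ++ lev (N + 1) q ++ R)) = N + 1 := by
  set c : List P3 := P ++ lev (N + 1) q ++ R with hc
  have hlen : c.length = P.length + q.length + R.length := by
    rw [hc, List.length_append, List.length_append, length_lev]
  have hq2 : 2 ≤ q.length := hq.two_le h.ne.symm
  have hp2 : 2 ≤ p0.length := hp0.two_le hne0
  have hP2 : p0.length ≤ P.length := by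
    have := h.pre.length_le
    rwa [length_lev] at this
  have hR1 : 1 ≤ R.length := by
    rcases R with _ | ⟨x, R⟩
    · exact absurd rfl h.R_ne
    · simp
  -- the chain
  have hchain : c.IsChain Adj := by
    refine (chain_up h.chainP h.lastP hq).append h.chainR ?_
    intro x hx y hy
    rw [List.getLast?_append, hq.last_lev] at hx
    rw [h.headR] at hy
    simp only [Option.some_or, Option.mem_def, Option.some.injEq] at hx hy
    subst hx hy
    exact (adj_vert s.1 N).symm
  have hlevq : ∀ u ∈ lev (N + 1) q, u.2.2 = (N : ℤ) + 1 := by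
    intro u hu
    rw [(mem_lev.1 hu).2]; push_cast; ring
  have hlevc : ∀ u ∈ c, 0 ≤ u.2.2 ∧ u.2.2 ≤ (N : ℤ) + 1 ∧ (u.1, u.2.1) ∈ B := by
    intro u hu
    rw [hc, List.mem_append, List.mem_append] at hu
    rcases hu with (hu | hu) | hu
    · obtain ⟨a, b, d⟩ := h.levP u hu
      exact ⟨a, by omega, d⟩
    · have := hlevq u hu
      exact ⟨by omega, by omega, hq.2.2.2.2 _ (mem_lev.1 hu).1⟩
    · obtain ⟨a, b, d⟩ := h.levR u hu
      exact ⟨a, by omega, d⟩
  -- ends
  obtain ⟨t, ht⟩ := h.pre
  have hp0' : ∃ r, lev 0 p0 = (c0.1, c0.2, 0) :: r := by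
    have h6 := hp0.head_lev 0
    rcases hm : lev 0 p0 with _ | ⟨x, r⟩
    · rw [hm] at h6; simp at h6
    · rw [hm] at h6
      simp only [List.head?_cons, Option.some.injEq] at h6
      exact ⟨r, by rw [h6]; rfl⟩
  have hg0 : c.getD 0 0 = (c0.1, c0.2, 0) := by
    obtain ⟨r, hr⟩ := hp0'
    rw [hc, ← ht, hr]
    simp
  have hgn : c.getD (c.length - 1) 0 = (c0.1, c0.2, 0) := by
    obtain ⟨R', hR'⟩ := List.getLast?_eq_some_iff.1 h.lastR
    rw [hc, hR', ← List.append_assoc, List.length_append, List.length_singleton,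
      Nat.add_sub_cancel, List.getD_append_right _ _ _ _ le_rfl, Nat.sub_self]
    rfl
  have hnd : c.dropLast.Nodup := by
    rw [hc, List.dropLast_append_of_ne_nil h.R_ne]
    have := nodup_ext (N := N) (p := []) (q := q) h.nodup (fun u hu => (h.levP u hu).2.1)
      (fun u hu => (h.levR u (List.mem_of_mem_dropLast hu)).2.1) List.nodup_nil hq.2.2.1
      (List.disjoint_nil_left _)
    simpa [lev] using this
  have hcyc : Cyc (pedges c) (P.length + q.length + R.length - 1) (fun i => c.getD i 0) := by
    refine cyc_of c _ (by omega) (by omega) ?_ hnd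
    rw [← hlen, hgn, hg0]
  have hpoly : IsPolygon (pedges c) := by
    refine isPolygon_of_cyc hcyc fun i hi => ?_
    have h1 := hchain.getElem i (by omega)
    rw [List.getD_eq_getElem _ _ (by omega), List.getD_eq_getElem _ _ (by omega)]
    exact h1
  -- the parts
  have hc1 : ∀ i, i < P.length + q.length → c.getD i 0 = (P ++ lev (N + 1) q).getD i 0 := by
    intro i hi
    rw [hc, List.getD_append _ _ _ _ (by rw [List.length_append, length_lev]; omega)]
  have hc2 : ∀ i, P.length + q.length ≤ i → c.getD i 0 = R.getD (i - (P.length + q.length)) 0 := by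
    intro i hi
    rw [hc, List.getD_append_right _ _ _ _ (by rw [List.length_append, length_lev]; omega),
      List.length_append, length_lev]
  have hc3 : ∀ i, P.length ≤ i → i < P.length + q.length → (c.getD i 0).2.2 = (N : ℤ) + 1 := by
    intro i h1 h2
    rw [hc1 i h2, List.getD_append_right _ _ _ _ h1]
    exact hlevq _ (getD_mem (by rw [length_lev]; omega))
  have hmonoP : (P ++ lev (N + 1) q).Pairwise fun u v => u.2.2 ≤ v.2.2 := by
    rw [List.pairwise_append]
    refine ⟨h.monoP, ?_, ?_⟩
    · refine List.pairwise_of_forall_mem_list fun u hu v hv => ?_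
      rw [(mem_lev.1 hu).2, (mem_lev.1 hv).2]
    · intro u hu v hv
      rw [hlevq v hv]
      have := (h.levP u hu).2.1
      omega
  have hup : UpDown (P.length + q.length + R.length - 1) (P.length + q.length - 1)
      (fun i => c.getD i 0) := by
    refine ⟨by omega, by omega, ?_, ?_, ?_, ?_, ?_, ?_⟩
    · intro i hi
      rw [hc1 i (by omega), hc1 (i + 1) (by omega)]
      have hl : (P ++ lev (N + 1) q).length = P.length + q.length := by
        rw [List.length_append, length_lev]
      rw [List.getD_eq_getElem _ _ (by omega), List.getD_eq_getElem _ _ (by omega)]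
      exact List.pairwise_iff_getElem.1 hmonoP i (i + 1) (by omega) (by omega) (by omega)
    · intro i hi hi2
      rcases Nat.lt_or_ge i (P.length + q.length) with h1 | h1
      · rw [hc3 i (by omega) h1]
        exact (hlevc _ (getD_mem (by omega))).2.1
      · rw [hc2 i h1, hc2 (i + 1) (by omega)]
        rw [List.getD_eq_getElem _ _ (by omega), List.getD_eq_getElem _ _ (by omega)]
        exact List.pairwise_iff_getElem.1 h.monoR _ _ (by omega) (by omega) (by omega)
    · have h1 : ∀ i, i < p0.length → (c.getD i 0).2.2 = 0 := by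
        intro i hi
        rw [hc, ← ht, List.append_assoc, List.append_assoc,
          List.getD_append _ _ _ _ (by rw [length_lev]; omega)]
        have := (mem_lev.1 (getD_mem (l := lev 0 p0) (i := i) (by rw [length_lev]; omega))).2
        simpa using this
      rw [h1 0 (by omega), h1 1 (by omega)]
    · rw [hc3 _ (by omega) (by omega), hc3 _ (by omega) (by omega)]
    · rw [Nat.sub_add_cancel (by omega), hc3 (P.length + q.length - 1) (by omega) (by omega),
        hc2 _ le_rfl, Nat.sub_self]
      have : R.getD 0 0 = (s.1.1, s.1.2, (N : ℤ)) := by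
        have h5 := h.headR
        rcases R with _ | ⟨x, R⟩
        · simp at h5
        · simpa using h5
      rw [this]
    · rw [hg0]
      simp only [zero_add]
      rcases h.land with ⟨hR, hN⟩ | ⟨r, hr⟩
      · rw [hc3 _ (by rw [hR]; simp only [List.length_singleton]; omega)
          (by rw [hR]; simp only [List.length_singleton]; omega), hN]
        simp
      · rw [hc2 _ (by rw [← hr]; simp), ← hr, List.length_append]
        have e : P.length + q.length + (r.length + [(c0.1, c0.2, (1 : ℤ)), (c0.1, c0.2, 0)].length)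
            - 1 - 1 - (P.length + q.length) = r.length := by
          simp only [List.length_cons, List.length_nil]; omega
        rw [e, List.getD_append_right _ _ _ _ le_rfl, Nat.sub_self]
        rfl
  have htube : InTube B (pedges c) := by
    rintro u ⟨v, hv⟩
    exact (hlevc _ (mem_of_mem_pedges hv).1).2.2
  have hnorm : NormZ (pedges c) := by
    refine ⟨?_, ?_⟩
    · rintro u ⟨v, hv⟩
      exact (hlevc _ (mem_of_mem_pedges hv).1).1
    · refine ⟨(c0.1, c0.2, 0), ?_, rfl⟩
      rw [hcyc.verts_eq]
      exact ⟨0, by simp only [mem_Iio]; omega, hg0⟩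
  refine ⟨hpoly, hcyc, hup, htube, hnorm, ?_⟩
  have hset : {k : ℤ | (sect (pedges c) k).Nonempty} = Set.Ico (0 : ℤ) ((N : ℤ) + 1) := by
    ext k
    simp only [mem_ofPred_eq, mem_Ico]
    constructor
    · rintro ⟨d, hd⟩
      have hd : s((d.1, d.2, k), (d.1, d.2, k + 1)) ∈ pedges c := hd
      obtain ⟨h1, h2⟩ := mem_of_mem_pedges hd
      have h3 := (hlevc _ h1).1
      have h4 := (hlevc _ h2).2.1
      simp only at h3 h4
      omega
    · rintro ⟨h1, h2⟩
      rcases lt_or_ge k N with h7 | h7
      · obtain ⟨d, hd⟩ := h.sec k h1 h7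
        refine ⟨d, ?_⟩
        show s((d.1, d.2, k), (d.1, d.2, k + 1)) ∈ pedges c
        rw [hc, List.append_assoc]
        exact pedges_append_left _ _ hd
      · have h8 : k = N := by omega
        subst h8
        refine ⟨s.2, ?_⟩
        show s((s.2.1, s.2.2, (N : ℤ)), (s.2.1, s.2.2, (N : ℤ) + 1)) ∈ pedges c
        exact pedges_append_left _ _ (vert_mem h.lastP hq)
  rw [span, hset]
  have : (Set.Ico (0 : ℤ) ((N : ℤ) + 1)) = ↑(Finset.Ico (0 : ℤ) ((N : ℤ) + 1)) := by simp
  rw [this, Set.ncard_coe_finset, Int.card_Ico]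
  omega

end Pool.Agent.LatticeTube
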