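import Pool.Agent.LatticeTube.MonoSpec

/-! (M2) lifting a polygon traversed once up and once down to two strictly increasing strands. -/

set_option autoImplicit false

open Pool.Agent.LK Set

namespace Pool.Agent.LatticeTube

namespace M2

/-! ### Hat functions -/

/-- the hat function -/
noncomputable def hat (t : ℝ) : ℝ := max 0 (1 - |t|)

theorem hat_nonneg (t : ℝ) : 0 ≤ hat t := le_max_left _ _

theorem hat_le_one (t : ℝ) : hat t ≤ 1 := max_le zero_le_one (by have := abs_nonneg t; linarith)

theorem hat_neg (t : ℝ) : hat (-t) = hat t := by rw [hat, hat, abs_neg]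

@[fun_prop]
theorem continuous_hat : Continuous hat := by unfold hat; fun_prop

theorem hat_lip (s t : ℝ) : |hat s - hat t| ≤ |s - t| := by
  have h1 : |max 0 (1 - |s|) - max 0 (1 - |t|)| ≤ |(1 - |s|) - (1 - |t|)| := by
    have := abs_max_sub_max_le_max 0 (1 - |s|) 0 (1 - |t|)
    simpa using this
  have h2 : (1 - |s|) - (1 - |t|) = |t| - |s| := by ring
  have h3 := abs_abs_sub_abs_le t s
  rw [h2] at h1
  exact (h1.trans h3).trans (abs_sub_comm t s).le

theorem hat_int_add (m : ℤ) {s : ℝ} (h0 : 0 ≤ s) (h1 : s ≤ 1) :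
    hat (m + s) = if m = 0 then 1 - s else if m = -1 then s else 0 := by
  split_ifs with h h'
  · subst h
    rw [Int.cast_zero, zero_add, hat, abs_of_nonneg h0, max_eq_right (by linarith)]
  · subst h'
    have : ((-1 : ℤ) : ℝ) + s = -(1 - s) := by push_cast; ring
    rw [this, hat_neg, hat, abs_of_nonneg (by linarith), max_eq_right (by linarith)]
    ring
  · rw [hat]
    apply max_eq_left
    rcases lt_or_gt_of_ne h with hm | hm
    · have hm2 : m ≤ -2 := by omega
      have : (m : ℝ) ≤ -2 := by exact_mod_cast hm2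
      rw [abs_of_nonpos (by linarith)]
      linarith
    · have hm2 : 1 ≤ m := by omega
      have : (1 : ℝ) ≤ m := by exact_mod_cast hm2
      rw [abs_of_nonneg (by linarith)]
      linarith

theorem hat_int_sub (m : ℤ) {s : ℝ} (h0 : 0 ≤ s) (h1 : s ≤ 1) :
    hat (m - s) = if m = 0 then 1 - s else if m = 1 then s else 0 := by
  have : (m : ℝ) - s = -(((-m : ℤ) : ℝ) + s) := by push_cast; ring
  rw [this, hat_neg, hat_int_add _ h0 h1]
  have e1 : (-m = 0) ↔ m = 0 := by omega
  have e2 : (-m = -1) ↔ m = 1 := by omega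
  simp only [e1, e2]

theorem hat_int (m : ℤ) : hat m = if m = 0 then 1 else 0 := by
  have h := hat_int_add m (le_refl (0 : ℝ)) zero_le_one
  rw [add_zero, sub_zero] at h
  rw [h]
  split_ifs <;> rfl

/-- the hat function in three variables -/
noncomputable def hat3 (d : R3) : ℝ := hat d.1 * hat d.2.1 * hat d.2.2

theorem continuous_hat3 : Continuous hat3 := by unfold hat3; fun_prop

theorem adj_cases {u v : P3} (h : Adj u v) :
    v = (u.1 + 1, u.2.1, u.2.2) ∨ v = (u.1 - 1, u.2.1, u.2.2) ∨ v = (u.1, u.2.1 + 1, u.2.2) ∨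
    v = (u.1, u.2.1 - 1, u.2.2) ∨ v = (u.1, u.2.1, u.2.2 + 1) ∨ v = (u.1, u.2.1, u.2.2 - 1) := by
  obtain ⟨a, b, c⟩ := u
  obtain ⟨a', b', c'⟩ := v
  simp only [Adj] at h
  simp only [Prod.mk.injEq]
  have h1 := abs_nonneg (a - a')
  have h2 := abs_nonneg (b - b')
  have h3 := abs_nonneg (c - c')
  have h4 : (|a - a'| = 1 ∧ |b - b'| = 0 ∧ |c - c'| = 0) ∨
      (|a - a'| = 0 ∧ |b - b'| = 1 ∧ |c - c'| = 0) ∨
      (|a - a'| = 0 ∧ |b - b'| = 0 ∧ |c - c'| = 1) := by
    generalize |a - a'| = A at *
    generalize |b - b'| = B at *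
    generalize |c - c'| = C at *
    omega
  rcases h4 with ⟨h5, h6, h7⟩ | ⟨h5, h6, h7⟩ | ⟨h5, h6, h7⟩
  · rw [abs_eq_zero] at h6 h7
    rcases (abs_eq zero_le_one).1 h5 with h | h <;> omega
  · rw [abs_eq_zero] at h5 h7
    rcases (abs_eq zero_le_one).1 h6 with h | h <;> omega
  · rw [abs_eq_zero] at h5 h6
    rcases (abs_eq zero_le_one).1 h7 with h | h <;> omega

theorem hat3_seg {u u' : P3} (h : Adj u u') (v : P3) {s : ℝ} (h0 : 0 ≤ s) (h1 : s ≤ 1) :
    hat3 ((1 - s) • toR u + s • toR u' - toR v) = if v = u then 1 - s else if v = u' then s else 0 := by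
  obtain ⟨a, b, c⟩ := u
  obtain ⟨a', b', c'⟩ := v
  have ex : ∀ r t : ℤ, (1 - s) * (r : ℝ) + s * (r : ℝ) - (t : ℝ) = ((r - t : ℤ) : ℝ) := by
    intro r t; push_cast; ring
  have ex1 : ∀ r t : ℤ, (1 - s) * (r : ℝ) + s * ((r + 1 : ℤ) : ℝ) - (t : ℝ)
      = ((r - t : ℤ) : ℝ) + s := by
    intro r t; push_cast; ring
  have ex2 : ∀ r t : ℤ, (1 - s) * (r : ℝ) + s * ((r - 1 : ℤ) : ℝ) - (t : ℝ)
      = ((r - t : ℤ) : ℝ) - s := by
    intro r t; push_cast; ring
  rcases adj_cases h with h | h | h | h | h | h <;> subst h <;>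
    simp only [hat3, toR, Prod.fst_sub, Prod.snd_sub, Prod.fst_add, Prod.snd_add, Prod.smul_fst,
      Prod.smul_snd, smul_eq_mul, ex, ex1, ex2, hat_int, hat_int_add _ h0 h1, hat_int_sub _ h0 h1,
      Prod.mk.injEq] <;>
    split_ifs <;> first | (exfalso; omega) | simp

/-- disjoint edges of the lattice do not meet -/
theorem edges_disjoint {u u' v v' : P3} (h : Adj u u') (h' : Adj v v') {s t : ℝ} (h0 : 0 ≤ s)
    (h1 : s ≤ 1) (h0' : 0 ≤ t) (h1' : t ≤ 1)
    (he : (1 - s) • toR u + s • toR u' = (1 - t) • toR v + t • toR v') :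
    v = u ∨ v = u' ∨ v' = u ∨ v' = u' := by
  by_contra hcon
  push Not at hcon
  obtain ⟨c1, c2, c3, c4⟩ := hcon
  have e1 := hat3_seg h v h0 h1
  have e2 := hat3_seg h v' h0 h1
  have f1 := hat3_seg h' v h0' h1'
  have f2 := hat3_seg h' v' h0' h1'
  have hne : v' ≠ v := fun hh => by
    subst hh
    simp [Adj] at h'
  rw [if_neg c1, if_neg c2, he] at e1
  rw [if_neg c3, if_neg c4, he] at e2
  rw [e1, if_pos rfl] at f1
  rw [e2, if_neg hne, if_pos rfl] at f2
  linarith

/-! ### Vertical homeomorphisms -/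

section homeo

variable (Φ : R3 → ℝ) (hc : Continuous Φ)
  (hm : ∀ x y z z' : ℝ, z ≤ z' → z' - z ≤ Φ (x, y, z') - Φ (x, y, z))

include hc hm in
theorem exists_homeo : ∃ Θ : R3 ≃ₜ R3, ∀ p, Θ p = (p.1, p.2.1, Φ p) := by
  have habs : ∀ x y z z' : ℝ, |z' - z| ≤ |Φ (x, y, z') - Φ (x, y, z)| := by
    intro x y z z'
    rcases le_total z z' with h | h
    · have h1 := hm x y z z' h
      rw [abs_of_nonneg (by linarith), abs_of_nonneg (by linarith)]
      exact h1
    · have h1 := hm x y z' z h
      rw [abs_of_nonpos (by linarith), abs_of_nonpos (by linarith)]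
      linarith
  let F : R3 → R3 := fun p => (p.1, p.2.1, Φ p)
  have hinj : Function.Injective F := by
    rintro ⟨x, y, z⟩ ⟨x', y', z'⟩ h
    simp only [F, Prod.mk.injEq] at h
    obtain ⟨rfl, rfl, h⟩ := h
    have := habs x y z z'
    rw [h, sub_self, abs_zero] at this
    have h2 : z' - z = 0 := abs_nonpos_iff.1 this
    have : z' = z := by linarith
    rw [this]
  have hsurj : Function.Surjective F := by
    rintro ⟨x, y, h⟩
    have hcz : Continuous fun z => Φ (x, y, z) := hc.comp (by fun_prop)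
    have hmem : h ∈ range fun z => Φ (x, y, z) := by
      apply mem_range_of_exists_le_of_exists_ge hcz
      · refine ⟨-|h - Φ (x, y, 0)|, ?_⟩
        have h1 := hm x y (-|h - Φ (x, y, 0)|) 0 (by simp)
        have h2 := neg_abs_le (h - Φ (x, y, 0))
        linarith
      · refine ⟨|h - Φ (x, y, 0)|, ?_⟩
        have h1 := hm x y 0 (|h - Φ (x, y, 0)|) (abs_nonneg _)
        have h2 := le_abs_self (h - Φ (x, y, 0))
        linarith
    obtain ⟨z, hz⟩ := hmem
    exact ⟨(x, y, z), by simp only [F]; rw [← hz]⟩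
  let e : R3 ≃ R3 := Equiv.ofBijective F ⟨hinj, hsurj⟩
  have he : ∀ p, e p = (p.1, p.2.1, Φ p) := fun p => rfl
  have hes : ∀ q, (e.symm q).1 = q.1 ∧ (e.symm q).2.1 = q.2.1 ∧ Φ (e.symm q) = q.2.2 := by
    intro q
    have h1 : ((e.symm q).1, (e.symm q).2.1, Φ (e.symm q)) = q := e.apply_symm_apply q
    have e1 := congrArg (fun r : R3 => r.1) h1
    have e2 := congrArg (fun r : R3 => r.2.1) h1
    have e3 := congrArg (fun r : R3 => r.2.2) h1
    exact ⟨e1, e2, e3⟩
  have hsymm : ∀ q, e.symm q = (q.1, q.2.1, (e.symm q).2.2) := fun q =>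
    Prod.ext (hes q).1 (Prod.ext (hes q).2.1 rfl)
  have hpsi : Continuous fun q => (e.symm q).2.2 := by
    rw [continuous_iff_continuousAt]
    intro q0
    rw [ContinuousAt, tendsto_iff_dist_tendsto_zero]
    have hb : ∀ q, dist ((e.symm q).2.2) ((e.symm q0).2.2)
        ≤ |q.2.2 - Φ (q.1, q.2.1, (e.symm q0).2.2)| := by
      intro q
      rw [Real.dist_eq]
      refine (habs q.1 q.2.1 _ _).trans ?_
      rw [← hsymm q, (hes q).2.2]
    refine squeeze_zero (fun _ => dist_nonneg) hb ?_
    have hcont : Continuous fun q : R3 => |q.2.2 - Φ (q.1, q.2.1, (e.symm q0).2.2)| := by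
      have : Continuous fun q : R3 => Φ (q.1, q.2.1, (e.symm q0).2.2) := hc.comp (by fun_prop)
      fun_prop
    have h0 : |q0.2.2 - Φ (q0.1, q0.2.1, (e.symm q0).2.2)| = 0 := by
      rw [← hsymm q0, (hes q0).2.2, sub_self, abs_zero]
    have := hcont.tendsto q0
    rwa [h0] at this
  refine ⟨{ e with
    continuous_toFun := ?_
    continuous_invFun := ?_ }, fun p => rfl⟩
  · change Continuous F
    exact continuous_fst.prodMk ((continuous_fst.comp continuous_snd).prodMk hc)
  · change Continuous e.symm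
    have : (e.symm : R3 → R3) = fun q => (q.1, q.2.1, (e.symm q).2.2) := funext hsymm
    rw [this]
    exact continuous_fst.prodMk ((continuous_fst.comp continuous_snd).prodMk hpsi)

end homeo

/-! ### Piecewise linear curves -/

/-- the piecewise linear curve through `c i` at time `h i` -/
noncomputable def curve (L : ℕ) (c : ℕ → ℝ × ℝ) (h : ℕ → ℝ) (t : ℝ) : ℝ × ℝ :=
  c 0 + ∑ i ∈ Finset.range L, (max 0 (min 1 ((t - h i) / (h (i + 1) - h i)))) • (c (i + 1) - c i)

theorem continuous_curve (L : ℕ) (c : ℕ → ℝ × ℝ) (h : ℕ → ℝ) : Continuous (curve L c h) := by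
  unfold curve
  fun_prop

variable {L : ℕ} {c : ℕ → ℝ × ℝ} {h : ℕ → ℝ}

theorem curve_succ (t : ℝ) : curve (L + 1) c h t =
    curve L c h t + (max 0 (min 1 ((t - h L) / (h (L + 1) - h L)))) • (c (L + 1) - c L) := by
  rw [curve, curve, Finset.sum_range_succ, add_assoc]

theorem mono_le (hm : ∀ i < L, h i < h (i + 1)) {i j : ℕ} (hij : i ≤ j) (hj : j ≤ L) :
    h i ≤ h j := by
  induction j, hij using Nat.le_induction with
  | base => exact le_rfl
  | succ j _ ih => exact (ih (by omega)).trans (hm j (by omega)).le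

theorem mono_lt (hm : ∀ i < L, h i < h (i + 1)) {i j : ℕ} (hij : i < j) (hj : j ≤ L) :
    h i < h j := (hm i (by omega)).trans_le (mono_le hm (by omega : i + 1 ≤ j) hj)

theorem curve_top (hm : ∀ i < L, h i < h (i + 1)) {t : ℝ} (ht : h L ≤ t) :
    curve L c h t = c L := by
  induction L with
  | zero => simp [curve]
  | succ L ih =>
    have h1 := hm L (by omega)
    rw [curve_succ, ih (fun i hi => hm i (by omega)) (h1.le.trans ht)]
    have h2 : 1 ≤ (t - h L) / (h (L + 1) - h L) := by
      rw [le_div_iff₀ (by linarith)]; linarith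
    rw [min_eq_left h2, max_eq_right zero_le_one, one_smul]
    abel

theorem curve_seg (hm : ∀ i < L, h i < h (i + 1)) {i : ℕ} (hi : i < L) {s : ℝ} (h0 : 0 ≤ s)
    (h1 : s ≤ 1) :
    curve L c h ((1 - s) * h i + s * h (i + 1)) = (1 - s) • c i + s • c (i + 1) := by
  have hlt := hm i hi
  have hle : (1 - s) * h i + s * h (i + 1) ≤ h (i + 1) := by nlinarith
  have hge : h i ≤ (1 - s) * h i + s * h (i + 1) := by nlinarith
  have key : ∀ L', i + 1 ≤ L' → L' ≤ L →
      curve L' c h ((1 - s) * h i + s * h (i + 1)) = (1 - s) • c i + s • c (i + 1) := by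
    intro L' h2
    induction L', h2 using Nat.le_induction with
    | base =>
      intro _
      rw [curve_succ, curve_top (fun j hj => hm j (by omega)) hge]
      have h3 : ((1 - s) * h i + s * h (i + 1) - h i) / (h (i + 1) - h i) = s := by
        rw [div_eq_iff (by linarith)]; ring
      rw [h3, min_eq_right h1, max_eq_right h0, smul_sub, sub_smul, one_smul]
      abel
    | succ L' h3 ih =>
      intro h4
      rw [curve_succ, ih (by omega)]
      have h5 : h (i + 1) ≤ h L' := mono_le hm h3 (by omega)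
      have h6 := hm L' (by omega)
      have h7 : ((1 - s) * h i + s * h (i + 1) - h L') / (h (L' + 1) - h L') ≤ 0 :=
        div_nonpos_of_nonpos_of_nonneg (by linarith) (by linarith)
      rw [min_eq_right (h7.trans zero_le_one), max_eq_left h7, zero_smul, add_zero]
  exact key L hi le_rfl

theorem exists_seg (hm : ∀ i < L, h i < h (i + 1)) (hL : 0 < L) {t : ℝ} (h0 : h 0 ≤ t)
    (h1 : t ≤ h L) : ∃ i < L, ∃ s : ℝ, 0 ≤ s ∧ s ≤ 1 ∧ t = (1 - s) * h i + s * h (i + 1) := by
  induction L with
  | zero => omega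
  | succ L ih =>
    by_cases hcase : h L ≤ t
    · have h2 := hm L (by omega)
      refine ⟨L, by omega, (t - h L) / (h (L + 1) - h L), ?_, ?_, ?_⟩
      · exact div_nonneg (by linarith) (by linarith)
      · rw [div_le_one (by linarith)]; linarith
      · have h3 : h (L + 1) - h L ≠ 0 := ne_of_gt (by linarith)
        field_simp
        ring
    · push Not at hcase
      have hL' : 0 < L := by
        rcases Nat.eq_zero_or_pos L with h2 | h2
        · subst h2; linarith
        · exact h2
      obtain ⟨i, hi, s, hs⟩ := ih (fun i hi => hm i (by omega)) hL' hcase.le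
      exact ⟨i, by omega, s, hs⟩

/-! ### The lifting -/

section lift

variable {E : ES} {n N : ℕ} {g : ℕ → P3}

/-- the fractional heights -/
noncomputable def theta (n N i : ℕ) : ℝ :=
  if i ≤ N then (i : ℝ) / (n + 2) else ((n : ℝ) - i) / (n + 2)

theorem theta_nonneg {i : ℕ} (hi : i ≤ n) : 0 ≤ theta n N i := by
  unfold theta
  have h1 : (i : ℝ) ≤ n := by exact_mod_cast hi
  have h2 : (0 : ℝ) ≤ i := Nat.cast_nonneg i
  split_ifs
  · positivity
  · exact div_nonneg (by linarith) (by positivity)

theorem theta_lt {i : ℕ} (hi : i ≤ n) : theta n N i < 1 := by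
  unfold theta
  have h1 : (i : ℝ) ≤ n := by exact_mod_cast hi
  have h2 : (0 : ℝ) ≤ i := Nat.cast_nonneg i
  have h3 : (0 : ℝ) < n + 2 := by positivity
  split_ifs <;> rw [div_lt_one h3] <;> linarith

theorem theta_zero : theta n N 0 = 0 := by simp [theta]

theorem theta_n (h : N < n) : theta n N n = 0 := by
  simp [theta, not_le.2 h]

theorem theta_up {i : ℕ} (hi : i < N) : theta n N i < theta n N (i + 1) := by
  unfold theta
  have h3 : (0 : ℝ) < n + 2 := by positivity
  rw [if_pos hi.le, if_pos (by omega : i + 1 ≤ N), div_lt_div_iff_of_pos_right h3]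
  push_cast
  linarith

theorem theta_down {i : ℕ} (hi : N < i) : theta n N (i + 1) < theta n N i := by
  unfold theta
  have h3 : (0 : ℝ) < n + 2 := by positivity
  rw [if_neg (by omega), if_neg (by omega), div_lt_div_iff_of_pos_right h3]
  push_cast
  linarith

/-- the new heights -/
noncomputable def H (n N : ℕ) (g : ℕ → P3) (i : ℕ) : ℝ :=
  (n + 1) * (((g i).2.2 : ℝ) - (g 0).2.2) + theta n N i

/-- the interpolated fractional height -/
noncomputable def Lam (n N : ℕ) (g : ℕ → P3) (p : R3) : ℝ :=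
  ∑ i ∈ Finset.range n, theta n N i * hat3 (p - toR (g i))

/-- the third coordinate of the homeomorphism -/
noncomputable def Phi (n N : ℕ) (g : ℕ → P3) (p : R3) : ℝ :=
  (n + 1) * (p.2.2 - (g 0).2.2) + Lam n N g p

theorem continuous_Phi : Continuous (Phi n N g) := by
  unfold Phi Lam
  have h1 : ∀ i, Continuous fun p : R3 => hat3 (p - toR (g i)) := fun i =>
    continuous_hat3.comp (by fun_prop)
  have h2 : Continuous fun p : R3 => ∑ i ∈ Finset.range n, theta n N i * hat3 (p - toR (g i)) :=
    continuous_finsetSum _ fun i _ => (h1 i).const_mul _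
  fun_prop

theorem Phi_mono (x y z z' : ℝ) (hz : z ≤ z') :
    z' - z ≤ Phi n N g (x, y, z') - Phi n N g (x, y, z) := by
  have h1 : ∀ i ∈ Finset.range n, theta n N i * hat3 ((x, y, z) - toR (g i))
      - theta n N i * hat3 ((x, y, z') - toR (g i)) ≤ z' - z := by
    intro i hi
    have hi' : i ≤ n := (Finset.mem_range.1 hi).le
    have t0 := theta_nonneg (N := N) hi'
    have t1 := (theta_lt (N := N) hi').le
    have e : hat3 ((x, y, z) - toR (g i)) - hat3 ((x, y, z') - toR (g i)) =
        hat (x - (g i).1) * hat (y - (g i).2.1) * (hat (z - (g i).2.2) - hat (z' - (g i).2.2)) := by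
      simp only [hat3, toR, Prod.fst_sub, Prod.snd_sub]
      ring
    have l := hat_lip (z - (g i).2.2) (z' - (g i).2.2)
    have l2 : |z - ((g i).2.2 : ℝ) - (z' - (g i).2.2)| = z' - z := by
      rw [show z - ((g i).2.2 : ℝ) - (z' - (g i).2.2) = -(z' - z) by ring, abs_neg,
        abs_of_nonneg (by linarith)]
    rw [l2] at l
    have l3 := (le_abs_self _).trans l
    have a0 := hat_nonneg (x - (g i).1)
    have a1 := hat_le_one (x - (g i).1)
    have b0 := hat_nonneg (y - (g i).2.1)
    have b1 := hat_le_one (y - (g i).2.1)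
    rw [← mul_sub, e]
    set A := hat (x - (g i).1)
    set B := hat (y - (g i).2.1)
    set D := hat (z - (g i).2.2) - hat (z' - (g i).2.2)
    have hc0 : 0 ≤ theta n N i * (A * B) := mul_nonneg t0 (mul_nonneg a0 b0)
    have hc1 : theta n N i * (A * B) ≤ 1 :=
      mul_le_one₀ t1 (mul_nonneg a0 b0) (mul_le_one₀ a1 b0 b1)
    calc theta n N i * (A * B * D) = theta n N i * (A * B) * D := by ring
      _ ≤ theta n N i * (A * B) * (z' - z) := mul_le_mul_of_nonneg_left l3 hc0
      _ ≤ 1 * (z' - z) := mul_le_mul_of_nonneg_right hc1 (by linarith)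
      _ = z' - z := one_mul _
  have h2 := Finset.sum_le_sum h1
  rw [Finset.sum_sub_distrib, Finset.sum_const, Finset.card_range, nsmul_eq_mul] at h2
  simp only [Phi, Lam]
  linarith

theorem Lam_seg (hE : IsPolygon E) (hc : Cyc E n g) (hN : N < n) {i : ℕ} (hi : i < n) {s : ℝ}
    (h0 : 0 ≤ s) (h1 : s ≤ 1) : Lam n N g ((1 - s) • toR (g i) + s • toR (g (i + 1))) =
      (1 - s) * theta n N i + s * theta n N (i + 1) := by
  have hadj : Adj (g i) (g (i + 1)) := hE.adj _ _ ((hc.edge _ _).2 ⟨i, hi, rfl⟩)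
  have h3 := hc.three
  unfold Lam
  simp_rw [hat3_seg hadj _ h0 h1]
  rcases Nat.lt_or_ge (i + 1) n with hlt | hge
  · rw [Finset.sum_eq_add i (i + 1) (by omega)]
    · have hne : g (i + 1) ≠ g i := fun h => by
        have := hc.inj _ hlt _ hi h
        omega
      rw [if_pos rfl, if_neg hne, if_pos rfl]
      ring
    · rintro j hj ⟨hj1, hj2⟩
      rw [Finset.mem_range] at hj
      rw [if_neg, if_neg, mul_zero]
      · exact fun h => hj2 (hc.inj _ hj _ hlt h)
      · exact fun h => hj1 (hc.inj _ hj _ hi h)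
    · intro h; exact absurd (Finset.mem_range.2 hi) h
    · intro h; exact absurd (Finset.mem_range.2 hlt) h
  · have hin : i + 1 = n := by omega
    rw [hin, hc.per, theta_n hN]
    rw [Finset.sum_eq_single i]
    · rw [if_pos rfl]; ring
    · intro j hj hj1
      rw [Finset.mem_range] at hj
      rw [if_neg fun h => hj1 (hc.inj _ hj _ hi h)]
      split_ifs with h
      · have := hc.inj _ hj 0 (by omega) h
        subst this
        rw [theta_zero, zero_mul]
      · rw [mul_zero]
    · intro h; exact absurd (Finset.mem_range.2 hi) h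

/-- the columns of the vertices -/
def col (g : ℕ → P3) (i : ℕ) : ℝ × ℝ := ((g i).1, (g i).2.1)

theorem Theta_seg (hE : IsPolygon E) (hc : Cyc E n g) (hN : N < n) {Θ : R3 ≃ₜ R3}
    (hΘ : ∀ p, Θ p = (p.1, p.2.1, Phi n N g p)) {i : ℕ} (hi : i < n) {s : ℝ}
    (h0 : 0 ≤ s) (h1 : s ≤ 1) : Θ ((1 - s) • toR (g i) + s • toR (g (i + 1))) =
      (((1 - s) • col g i + s • col g (i + 1)).1, ((1 - s) • col g i + s • col g (i + 1)).2,
        (1 - s) * H n N g i + s * H n N g (i + 1)) := by
  rw [hΘ, Phi, Lam_seg hE hc hN hi h0 h1]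
  refine Prod.ext ?_ (Prod.ext ?_ ?_)
  · simp [toR, col]
  · simp [toR, col]
  · simp only [toR, H, Prod.snd_add, Prod.smul_snd, smul_eq_mul]
    ring

theorem H_up (hu : UpDown n N g) {i : ℕ} (hi : i < N) : H n N g i < H n N g (i + 1) := by
  have h1 := hu.up i hi
  have h2 := theta_up (n := n) hi
  have h3 : ((g i).2.2 : ℝ) ≤ (g (i + 1)).2.2 := by exact_mod_cast h1
  unfold H
  have h4 : (0 : ℝ) ≤ n + 1 := by positivity
  nlinarith [mul_le_mul_of_nonneg_left h3 h4]

theorem H_down (hu : UpDown n N g) {i : ℕ} (hi : N ≤ i) (hin : i < n) :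
    H n N g (i + 1) < H n N g i := by
  have h4 : (0 : ℝ) ≤ n + 1 := by positivity
  rcases hi.eq_or_lt with rfl | hlt
  · have h1 := hu.drop
    have h1' : ((g (N + 1)).2.2 : ℝ) + 1 = (g N).2.2 := by exact_mod_cast h1
    have h2 := theta_nonneg (N := N) hin.le
    have h3 := theta_lt (N := N) (n := n) (i := N + 1) hin
    have h5 : (1 : ℝ) ≤ n := by
      have := hu.two
      have : 1 ≤ n := by omega
      exact_mod_cast this
    unfold H
    rw [← h1']
    nlinarith
  · have h1 := hu.down i hi hin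
    have h2 := theta_down (n := n) hlt
    have h3 : ((g (i + 1)).2.2 : ℝ) ≤ (g i).2.2 := by exact_mod_cast h1
    unfold H
    nlinarith [mul_le_mul_of_nonneg_left h3 h4]

end lift

end M2

open M2 in
/-- (M2) -/
theorem liftStatement : LiftStatement := by
  intro E n N g hE hc hu
  have hN := hu.lt
  have hN2 := hu.two
  obtain ⟨Θ, hΘ⟩ := exists_homeo (Phi n N g) continuous_Phi Phi_mono
  have hseg := fun i hi s h0 h1 => Theta_seg (s := s) (i := i) hE hc hN hΘ hi h0 h1
  -- the strands
  set ha : ℕ → ℝ := H n N g with hha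
  set hb : ℕ → ℝ := fun j => H n N g (n - j) with hhb
  have hma : ∀ i < N, ha i < ha (i + 1) := fun i hi => H_up hu hi
  have hmb : ∀ j < n - N, hb j < hb (j + 1) := by
    intro j hj
    have h1 := H_down hu (i := n - (j + 1)) (by omega) (by omega)
    rwa [show n - (j + 1) + 1 = n - j by omega] at h1
  have hH0 : H n N g 0 = 0 := by simp [H, theta_zero]
  have hHn : H n N g n = 0 := by simp [H, theta_n hN, hc.per]
  set a := curve N (col g) ha with hadef
  set b := curve (n - N) (fun j => col g (n - j)) hb with hbdef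
  have hasE : ∀ i < N, ∀ s, 0 ≤ s → s ≤ 1 → a ((1 - s) * H n N g i + s * H n N g (i + 1)) =
      (1 - s) • col g i + s • col g (i + 1) := fun i hi s h0 h1 => curve_seg hma hi h0 h1
  have hbsE : ∀ i, N ≤ i → i < n → ∀ s, 0 ≤ s → s ≤ 1 →
      b ((1 - s) * H n N g i + s * H n N g (i + 1)) = (1 - s) • col g i + s • col g (i + 1) := by
    intro i hi hin s h0 h1
    have h2 := curve_seg (c := fun j => col g (n - j)) hmb (i := n - (i + 1)) (by omega)
      (s := 1 - s) (by linarith) (by linarith)
    simp only [hhb] at h2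
    rw [show n - (n - (i + 1)) = i + 1 by omega, show n - (n - (i + 1) + 1) = i by omega] at h2
    rw [hbdef, show (1 - s) * H n N g i + s * H n N g (i + 1)
      = (1 - (1 - s)) * H n N g (i + 1) + (1 - s) * H n N g i by ring]
    simp only [hhb]
    rw [h2]
    rw [show 1 - (1 - s) = s by ring, add_comm]
  have hadj : ∀ i < n, Adj (g i) (g (i + 1)) := fun i hi =>
    hE.adj _ _ ((hc.edge _ _).2 ⟨i, hi, rfl⟩)
  -- vertical steps
  have hvert : ∀ i < n, (g i).2.2 = (g (i + 1)).2.2 + 1 → col g i = col g (i + 1) := by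
    intro i hi h
    rcases adj_cases (hadj i hi) with h1 | h1 | h1 | h1 | h1 | h1 <;> rw [h1] at h <;>
      simp only [] at h <;> first | omega | (unfold col; rw [h1])
  have hconst : ∀ i, N ≤ i → i < n → col g i = col g (i + 1) → ∀ t, H n N g (i + 1) ≤ t →
      t ≤ H n N g i → b t = col g i := by
    intro i hi hin hcol t h0 h1
    have h2 := H_down hu hi hin
    have h3 := hbsE i hi hin ((H n N g i - t) / (H n N g i - H n N g (i + 1)))
      (div_nonneg (by linarith) (by linarith)) (by rw [div_le_one (by linarith)]; linarith)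
    have h4 : H n N g i - H n N g (i + 1) ≠ 0 := ne_of_gt (by linarith)
    rw [← hcol, ← add_smul, sub_add_cancel, one_smul] at h3
    rw [← h3]
    congr 1
    field_simp
    ring
  have hn1 : col g (n - 1) = col g (n - 1 + 1) := hvert (n - 1) (by omega) (by
    rw [hu.land, show n - 1 + 1 = n by omega, hc.per])
  have hN1 : col g N = col g (N + 1) := hvert N hN hu.drop.symm
  have hcoln : col g n = col g 0 := by unfold col; rw [hc.per]
  have hmonoz : ∀ d j, j + d = n → N ≤ j → (g n).2.2 ≤ (g j).2.2 := by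
    intro d
    induction d with
    | zero => intro j hj _; rw [← hj, add_zero]
    | succ d ih =>
      intro j hj hNj
      exact (ih (j + 1) (by omega) (by omega)).trans (hu.down j hNj (by omega))
  have hzN : (g 0).2.2 + 1 ≤ (g N).2.2 := by
    have h1 := hmonoz (n - (N + 1)) (N + 1) (by omega) (by omega)
    have h2 := hu.drop
    rw [hc.per] at h1
    omega
  have hN3 : 1 < N - 1 := by
    by_contra hcon
    have h1 : N - 1 = 1 := by omega
    have h2 := hu.last
    rw [h1, hu.first] at h2
    omega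
  have hn5 : (3 : ℝ) ≤ n := by exact_mod_cast hc.three
  -- heights
  have hH1 : H n N g 1 < 1 := by
    have h1 := theta_lt (N := N) (n := n) (i := 1) (by omega)
    have h2 := hu.first
    simp only [H, h2, sub_self, mul_zero, zero_add]
    exact h1
  have hHn1 : 1 ≤ H n N g (n - 1) := by
    have h1 := theta_nonneg (N := N) (n := n) (i := n - 1) (by omega)
    have h2 : ((g (n - 1)).2.2 : ℝ) = (g 0).2.2 + 1 := by exact_mod_cast hu.land
    simp only [H, h2]
    linarith
  have hHN : H n N g (N + 1) ≤ H n N g (N - 1) := by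
    have h1 := theta_nonneg (N := N) (n := n) (i := N - 1) (by omega)
    have h2 := theta_lt (N := N) (n := n) (i := N + 1) (by omega)
    have h3 : ((g (N + 1)).2.2 : ℝ) + 1 = (g N).2.2 := by exact_mod_cast hu.drop
    have h4 : ((g (N - 1)).2.2 : ℝ) = (g N).2.2 := by exact_mod_cast hu.last
    simp only [H, h4, ← h3]
    nlinarith
  have hpos : 0 < H n N g 1 := by
    have := H_up hu (i := 0) (by omega)
    rwa [hH0] at this
  have hlt' : H n N g (N - 1) < H n N g N := by
    have := H_up hu (i := N - 1) (by omega)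
    rwa [show N - 1 + 1 = N by omega] at this
  have hlt : H n N g 1 < H n N g (N - 1) := mono_lt hma hN3 (by omega)
  have hTpos : 0 < H n N g N := by linarith
  -- values
  have hb0 : b 0 = col g 0 := by
    rw [hconst (n - 1) (by omega) (by omega) hn1 0 (by
      rw [show n - 1 + 1 = n by omega, hHn]) (by linarith), hn1,
      show n - 1 + 1 = n by omega, hcoln]
  have hbT : b (H n N g N) = col g N := hconst N le_rfl hN hN1 _ (by linarith) le_rfl
  have ha1 : a (H n N g 1) = col g 1 := by
    have := hasE 0 (by omega) 1 zero_le_one le_rfl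
    simpa using this
  have haN1 : a (H n N g (N - 1)) = col g (N - 1) := by
    have := hasE (N - 1) (by omega) 0 le_rfl zero_le_one
    simpa using this
  -- points of the two strands
  have hsegb : ∀ t, 0 ≤ t → t ≤ H n N g N → ∃ i, N ≤ i ∧ i < n ∧ ∃ s : ℝ, 0 ≤ s ∧ s ≤ 1 ∧
      t = (1 - s) * H n N g i + s * H n N g (i + 1) := by
    intro t h0 h1
    obtain ⟨j, hj, s, hs0, hs1, hs⟩ := exists_seg hmb (by omega) (t := t) (by
      simp only [hhb, Nat.sub_zero, hHn]; exact h0) (by
      simp only [hhb, show n - (n - N) = N by omega]; exact h1)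
    refine ⟨n - (j + 1), by omega, by omega, 1 - s, by linarith, by linarith, ?_⟩
    simp only [hhb] at hs
    rw [show n - (j + 1) + 1 = n - j by omega, hs]
    ring
  refine ⟨H n N g 1, H n N g (N - 1), H n N g N, a, b, ?_, Θ, ?_⟩
  · refine ⟨hpos, hlt, hlt', continuous_curve _ _ _, continuous_curve _ _ _, ?_, ?_, ?_, ?_, ?_⟩
    · -- different
      rintro t ⟨ht0, ht1⟩ hab
      obtain ⟨i, hi, s, hs0, hs1, hs⟩ := exists_seg (L := N - 2) (h := fun j => H n N g (j + 1))
        (fun j hj => H_up hu (by omega)) (by omega) (t := t) ht0 (by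
          simp only [show N - 2 + 1 = N - 1 by omega]; exact ht1)
      obtain ⟨j, hj, hjn, r, hr0, hr1, hr⟩ := hsegb t (by linarith) (by linarith)
      have e1 := hseg (i + 1) (by omega) s hs0 hs1
      have e2 := hseg j hjn r hr0 hr1
      have f1 := hasE (i + 1) (by omega) s hs0 hs1
      have f2 := hbsE j hj hjn r hr0 hr1
      rw [← hs] at e1 f1
      rw [← hr] at e2 f2
      rw [← f1] at e1
      rw [← f2, ← hab] at e2
      have e3 := Θ.injective (e1.trans e2.symm)
      have hin : ∀ m, 1 ≤ m → m ≤ N - 1 → ∀ l, N ≤ l → l ≤ n → g l ≠ g m := by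
        intro m hm1 hm2 l hl1 hl2 h
        rcases hl2.eq_or_lt with rfl | hl3
        · rw [hc.per] at h
          have := hc.inj 0 (by omega) m (by omega) h
          omega
        · have := hc.inj l hl3 m (by omega) h
          omega
      rcases edges_disjoint (hadj _ (by omega)) (hadj _ hjn) hs0 hs1 hr0 hr1 e3 with h | h | h | h
      · exact hin _ (by omega) (by omega) _ hj hjn.le h
      · exact hin _ (by omega) (by omega) _ hj hjn.le h
      · exact hin _ (by omega) (by omega) _ (by omega) (by omega) h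
      · exact hin _ (by omega) (by omega) _ (by omega) (by omega) h
    · rintro t ⟨ht0, ht1⟩
      rw [hb0, hconst (n - 1) (by omega) (by omega) hn1 t (by
        rw [show n - 1 + 1 = n by omega, hHn]; exact ht0) (by linarith), hn1,
        show n - 1 + 1 = n by omega, hcoln]
    · rintro t ⟨ht0, ht1⟩
      have h1 := hasE 0 (by omega) (t / H n N g 1) (div_nonneg ht0 hpos.le)
        (by rw [div_le_one hpos]; exact ht1)
      rw [hH0, mul_zero, zero_add, zero_add, div_mul_cancel₀ _ hpos.ne'] at h1
      rw [h1, hb0, ha1]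
    · rintro t ⟨ht0, ht1⟩
      rw [hbT]
      exact hconst N le_rfl hN hN1 _ (by linarith) ht1
    · rintro t ⟨ht0, ht1⟩
      have hd : 0 < H n N g N - H n N g (N - 1) := by linarith
      have h1 := hasE (N - 1) (by omega) (1 - (H n N g N - t) / (H n N g N - H n N g (N - 1)))
        (by rw [sub_nonneg, div_le_one hd]; linarith)
        (by have := div_nonneg (by linarith : 0 ≤ H n N g N - t) hd.le; linarith)
      rw [show N - 1 + 1 = N by omega, sub_sub_cancel] at h1
      rw [haN1, hbT, ← h1]
      congr 1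
      field_simp
      ring
  · -- the image
    ext x
    constructor
    · rintro ⟨y, ⟨u, v, huv, hy⟩, rfl⟩
      obtain ⟨i, hi, he⟩ := (hc.edge u v).1 huv
      have hy' : y ∈ segment ℝ (toR (g i)) (toR (g (i + 1))) := by
        rcases Sym2.eq_iff.1 he with ⟨rfl, rfl⟩ | ⟨rfl, rfl⟩
        · exact hy
        · rw [segment_symm]; exact hy
      obtain ⟨r, s, hr, hs, hrs, rfl⟩ := hy'
      have hr' : r = 1 - s := by linarith
      subst hr'
      have e := hseg i hi s hs (by linarith)
      rw [e]
      rcases Nat.lt_or_ge i N with hiN | hiN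
      · have f1 := hasE i hiN s hs (by linarith)
        have g1 : 0 ≤ H n N g i := by
          rw [← hH0]; exact mono_le hma (Nat.zero_le i) hiN.le
        have g2 : H n N g (i + 1) ≤ H n N g N := mono_le hma hiN le_rfl
        have g3 := H_up hu hiN
        refine ⟨(1 - s) * H n N g i + s * H n N g (i + 1), ⟨?_, ?_⟩, Or.inl ?_⟩
        · nlinarith
        · nlinarith
        · rw [f1]
      · have f1 := hbsE i hiN hi s hs (by linarith)
        have g1 : 0 ≤ H n N g (i + 1) := by
          have := mono_le hmb (i := 0) (j := n - (i + 1)) (by omega) (by omega)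
          simp only [hhb, Nat.sub_zero, hHn, show n - (n - (i + 1)) = i + 1 by omega] at this
          exact this
        have g2 : H n N g i ≤ H n N g N := by
          have := mono_le hmb (i := n - i) (j := n - N) (by omega) (by omega)
          simp only [hhb, show n - (n - i) = i by omega, show n - (n - N) = N by omega] at this
          exact this
        have g3 := H_down hu hiN hi
        refine ⟨(1 - s) * H n N g i + s * H n N g (i + 1), ⟨?_, ?_⟩, Or.inr ?_⟩
        · nlinarith
        · nlinarith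
        · rw [f1]
    · rintro ⟨t, ⟨ht0, ht1⟩, hx | hx⟩
      · obtain ⟨i, hi, s, hs0, hs1, hs⟩ := exists_seg hma (by omega) (t := t) (by
          rw [hha, hH0]; exact ht0) ht1
        have e := hseg i (by omega) s hs0 hs1
        have f1 := hasE i hi s hs0 hs1
        rw [hha] at hs e
        rw [← hs] at e f1
        refine ⟨(1 - s) • toR (g i) + s • toR (g (i + 1)), ⟨g i, g (i + 1), (hc.edge _ _).2
          ⟨i, by omega, rfl⟩, ⟨1 - s, s, by linarith, hs0, by ring, rfl⟩⟩, ?_⟩
        rw [e, hx, f1]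
      · obtain ⟨i, hiN, hi, s, hs0, hs1, hs⟩ := hsegb t ht0 ht1
        have e := hseg i hi s hs0 hs1
        have f1 := hbsE i hiN hi s hs0 hs1
        rw [← hs] at e f1
        refine ⟨(1 - s) • toR (g i) + s • toR (g (i + 1)), ⟨g i, g (i + 1), (hc.edge _ _).2
          ⟨i, by omega, rfl⟩, ⟨1 - s, s, by linarith, hs0, by ring, rfl⟩⟩, ?_⟩
        rw [e, hx, f1]

end Pool.Agent.LatticeTube
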