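import Pool.Agent.LatticeTube.MonoSpec

/-! (M3) straightening two strands by plane similarities. -/

set_option autoImplicit false

open Pool.Agent.LK Set

namespace Pool.Agent.LatticeTube

/-- complex number of a point of the plane -/
def toC (p : ℝ × ℝ) : ℂ := ⟨p.1, p.2⟩

theorem toC_inj {p q : ℝ × ℝ} (h : toC p = toC q) : p = q := by
  have h1 := congrArg Complex.re h
  have h2 := congrArg Complex.im h
  exact Prod.ext h1 h2

theorem continuous_toC : Continuous toC := by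
  have h : toC = fun p : ℝ × ℝ => (p.1 : ℂ) + (p.2 : ℂ) * Complex.I := by
    funext p
    apply Complex.ext <;> simp [toC]
  rw [h]
  fun_prop

theorem toC_comb (s t : ℝ) (p q : ℝ × ℝ) : toC (s • p + t • q) = s * toC p + t * toC q := by
  apply Complex.ext <;> simp [toC]

/-- The family of similarities as a homeomorphism of `ℝ³`. -/
noncomputable def simil (α δ : ℝ → ℂ) (hα : Continuous α) (hδ : Continuous δ)
    (h0 : ∀ t, δ t ≠ 0) : R3 ≃ₜ R3 where
  toFun x := ((((⟨x.1, x.2.1⟩ : ℂ) - α x.2.2) / δ x.2.2).re,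
    (((⟨x.1, x.2.1⟩ : ℂ) - α x.2.2) / δ x.2.2).im, x.2.2)
  invFun x := ((α x.2.2 + (⟨x.1, x.2.1⟩ : ℂ) * δ x.2.2).re,
    (α x.2.2 + (⟨x.1, x.2.1⟩ : ℂ) * δ x.2.2).im, x.2.2)
  left_inv := by
    rintro ⟨x, y, t⟩
    have h : α t + (((⟨x, y⟩ : ℂ) - α t) / δ t) * δ t = ⟨x, y⟩ := by
      rw [div_mul_cancel₀ _ (h0 t)]; ring
    have e : (⟨(((⟨x, y⟩ : ℂ) - α t) / δ t).re, (((⟨x, y⟩ : ℂ) - α t) / δ t).im⟩ : ℂ) =
        ((⟨x, y⟩ : ℂ) - α t) / δ t := Complex.ext rfl rfl
    simp only [e, h]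
  right_inv := by
    rintro ⟨x, y, t⟩
    have h : ((α t + (⟨x, y⟩ : ℂ) * δ t) - α t) / δ t = ⟨x, y⟩ := by
      rw [add_sub_cancel_left, mul_div_cancel_right₀ _ (h0 t)]
    have e : (⟨(α t + (⟨x, y⟩ : ℂ) * δ t).re, (α t + (⟨x, y⟩ : ℂ) * δ t).im⟩ : ℂ) =
        α t + (⟨x, y⟩ : ℂ) * δ t := Complex.ext rfl rfl
    simp only [e, h]
  continuous_toFun := by
    have hc : Continuous fun x : R3 => toC (x.1, x.2.1) := continuous_toC.comp (by fun_prop)
    have h1 : Continuous fun x : R3 => (toC (x.1, x.2.1) - α x.2.2) / δ x.2.2 :=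
      (hc.sub (hα.comp (by fun_prop))).div (hδ.comp (by fun_prop)) fun x => h0 _
    exact (Complex.continuous_re.comp h1).prodMk ((Complex.continuous_im.comp h1).prodMk
      (by fun_prop))
  continuous_invFun := by
    have hc : Continuous fun x : R3 => toC (x.1, x.2.1) := continuous_toC.comp (by fun_prop)
    have h1 : Continuous fun x : R3 => α x.2.2 + toC (x.1, x.2.1) * δ x.2.2 :=
      (hα.comp (by fun_prop)).add (hc.mul (hδ.comp (by fun_prop)))
    exact (Complex.continuous_re.comp h1).prodMk ((Complex.continuous_im.comp h1).prodMk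
      (by fun_prop))

theorem straightenStatement : StraightenStatement := by
  intro t0 t1 T a b hs
  have ht01 := hs.lt
  have ht0 := hs.pos
  have ht1 := hs.lt'
  -- clamp
  set cl : ℝ → ℝ := fun t => max t0 (min t t1) with hcl
  have hclc : Continuous cl := by fun_prop
  have hclm : ∀ t, cl t ∈ Icc t0 t1 := fun t =>
    ⟨le_max_left _ _, max_le ht01.le (min_le_right _ _)⟩
  have hcl1 : ∀ t ∈ Icc t0 t1, cl t = t := by
    intro t ht
    simp only [hcl]
    rw [min_eq_left ht.2, max_eq_right ht.1]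
  have hcl0 : ∀ t, t ≤ t0 → cl t = t0 := by
    intro t ht
    simp only [hcl]
    exact max_eq_left ((min_le_left _ _).trans ht)
  have hcl2 : ∀ t, t1 ≤ t → cl t = t1 := by
    intro t ht
    simp only [hcl]
    rw [min_eq_right ht, max_eq_right ht01.le]
  set α : ℝ → ℂ := fun t => toC (a (cl t)) with hα
  set δ : ℝ → ℂ := fun t => toC (b (cl t)) - toC (a (cl t)) with hδ
  have hαc : Continuous α := continuous_toC.comp (hs.conta.comp hclc)
  have hδc : Continuous δ := (continuous_toC.comp (hs.contb.comp hclc)).sub hαc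
  have h0 : ∀ t, δ t ≠ 0 := by
    intro t h
    exact hs.ne _ (hclm t) (toC_inj (sub_eq_zero.mp h)).symm
  -- images of the two strands
  have keyA : ∀ t ∈ Icc (0 : ℝ) T, (toC (a t) - α t) / δ t =
      if t ≤ t0 then ((1 - t / t0 : ℝ) : ℂ) else if t ≤ t1 then 0 else
        (((t - t1) / (T - t1) : ℝ) : ℂ) := by
    intro t ht
    split_ifs with h1 h2
    · have hb0 : b t0 = b 0 := hs.botb t0 ⟨ht0.le, le_refl _⟩
      have e : toC (a t) - α t = ((1 - t / t0 : ℝ) : ℂ) * δ t := by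
        simp only [hα, hδ, hcl0 t h1]
        rw [hs.bota t ⟨ht.1, h1⟩, toC_comb, hb0]
        push_cast
        ring
      rw [e, mul_div_cancel_right₀ _ (h0 t)]
    · have : toC (a t) - α t = 0 := by
        simp only [hα]
        rw [hcl1 t ⟨(not_le.mp h1).le, h2⟩, sub_self]
      rw [this, zero_div]
    · have h3 : t1 ≤ t := (not_le.mp h2).le
      have hbT : b t1 = b T := hs.topb t1 ⟨le_refl _, ht1.le⟩
      have hT : T - t1 ≠ 0 := (sub_pos.mpr ht1).ne'
      have e : toC (a t) - α t = (((t - t1) / (T - t1) : ℝ) : ℂ) * δ t := by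
        simp only [hα, hδ, hcl2 t h3]
        rw [hs.topa t ⟨h3, ht.2⟩, toC_comb, hbT]
        have hTc : ((T : ℂ) - (t1 : ℂ)) ≠ 0 := by exact_mod_cast hT
        push_cast
        field_simp
        ring
      rw [e, mul_div_cancel_right₀ _ (h0 t)]
  have keyB : ∀ t ∈ Icc (0 : ℝ) T, (toC (b t) - α t) / δ t = 1 := by
    intro t ht
    have e : b (cl t) = b t := by
      rcases le_total t t0 with h1 | h1
      · rw [hcl0 t h1, hs.botb t0 ⟨ht0.le, le_refl _⟩, hs.botb t ⟨ht.1, h1⟩]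
      · rcases le_total t t1 with h2 | h2
        · rw [hcl1 t ⟨h1, h2⟩]
        · rw [hcl2 t h2, hs.topb t1 ⟨le_refl _, ht1.le⟩, hs.topb t ⟨h2, ht.2⟩]
    have : toC (b t) - α t = δ t := by
      simp only [hα, hδ, e]
    rw [this, div_self (h0 t)]
  refine ⟨simil α δ hαc hδc h0, ?_⟩
  have hA : ∀ t, simil α δ hαc hδc h0 ((a t).1, (a t).2, t) =
      (((toC (a t) - α t) / δ t).re, ((toC (a t) - α t) / δ t).im, t) := fun t => rfl
  have hB : ∀ t, simil α δ hαc hδc h0 ((b t).1, (b t).2, t) =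
      (((toC (b t) - α t) / δ t).re, ((toC (b t) - α t) / δ t).im, t) := fun t => rfl
  ext ⟨x, y, z⟩
  constructor
  · rintro ⟨_, ⟨t, ht, rfl | rfl⟩, hx⟩
    · rw [hA, keyA t ht] at hx
      split_ifs at hx with h1 h2
      · simp only [Complex.ofReal_re, Complex.ofReal_im, Prod.mk.injEq] at hx
        obtain ⟨rfl, rfl, rfl⟩ := hx
        exact ⟨rfl, Or.inr (Or.inr (Or.inl ⟨ht.1, h1, rfl⟩))⟩
      · simp only [Complex.zero_re, Complex.zero_im, Prod.mk.injEq] at hx
        obtain ⟨rfl, rfl, rfl⟩ := hx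
        exact ⟨rfl, Or.inr (Or.inl ⟨rfl, (not_le.mp h1).le, h2⟩)⟩
      · simp only [Complex.ofReal_re, Complex.ofReal_im, Prod.mk.injEq] at hx
        obtain ⟨rfl, rfl, rfl⟩ := hx
        exact ⟨rfl, Or.inr (Or.inr (Or.inr ⟨(not_le.mp h2).le, ht.2, rfl⟩))⟩
    · rw [hB, keyB t ht] at hx
      simp only [Complex.one_re, Complex.one_im, Prod.mk.injEq] at hx
      obtain ⟨rfl, rfl, rfl⟩ := hx
      exact ⟨rfl, Or.inl ⟨rfl, ht.1, ht.2⟩⟩
  · rintro ⟨hy, h⟩
    simp only at hy h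
    subst hy
    rcases h with ⟨rfl, h1, h2⟩ | ⟨rfl, h1, h2⟩ | ⟨h1, h2, rfl⟩ | ⟨h1, h2, rfl⟩
    · refine ⟨((b z).1, (b z).2, z), ⟨z, ⟨h1, h2⟩, Or.inr rfl⟩, ?_⟩
      rw [hB, keyB z ⟨h1, h2⟩]
      simp
    · have hz : z ∈ Icc (0 : ℝ) T := ⟨ht0.le.trans h1, h2.trans ht1.le⟩
      refine ⟨((a z).1, (a z).2, z), ⟨z, hz, Or.inl rfl⟩, ?_⟩
      rw [hA, keyA z hz]
      split_ifs with h3
      · have : z = t0 := le_antisymm h3 h1
        subst this
        simp [div_self ht0.ne']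
      · simp
    · have hz : z ∈ Icc (0 : ℝ) T := ⟨h1, h2.trans (ht01.le.trans ht1.le)⟩
      refine ⟨((a z).1, (a z).2, z), ⟨z, hz, Or.inl rfl⟩, ?_⟩
      rw [hA, keyA z hz, if_pos h2]
      simp
    · have hz : z ∈ Icc (0 : ℝ) T := ⟨ht0.le.trans (ht01.le.trans h1), h2⟩
      refine ⟨((a z).1, (a z).2, z), ⟨z, hz, Or.inl rfl⟩, ?_⟩
      rw [hA, keyA z hz]
      have h3 : ¬ z ≤ t0 := by
        intro h; linarith
      rw [if_neg h3]
      split_ifs with h4
      · have : z = t1 := le_antisymm h4 h1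
        subst this
        simp
      · simp only [Complex.ofReal_re, Complex.ofReal_im]

end Pool.Agent.LatticeTube
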