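import Pool.Agent.LatticeTube.MonoSpec
import Pool.Agent.MP_aea6d5_co.TopSym

/-! (M4): the quadrilateral is a round circle up to a homeomorphism of space. -/

set_option autoImplicit false

open Pool.Agent.LK Set

namespace Pool.Agent.LatticeTube

theorem max_abs_half (x y : ℝ) : max |x - 1 / 2| |y - 1 / 2| = 1 / 2 ↔
    (0 ≤ x ∧ x ≤ 1) ∧ (0 ≤ y ∧ y ≤ 1) ∧ (x = 0 ∨ x = 1 ∨ y = 0 ∨ y = 1) := by
  have key : ∀ t : ℝ, |t - 1 / 2| ≤ 1 / 2 ↔ 0 ≤ t ∧ t ≤ 1 := fun t => by
    rw [abs_le]
    constructor
    · rintro ⟨a, b⟩; constructor <;> linarith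
    · rintro ⟨a, b⟩; constructor <;> linarith
  have key' : ∀ t : ℝ, |t - 1 / 2| = 1 / 2 ↔ t = 0 ∨ t = 1 := fun t => by
    rw [abs_eq (by norm_num)]
    constructor
    · rintro (a | a)
      · right; linarith
      · left; linarith
    · rintro (a | a)
      · right; linarith
      · left; linarith
  constructor
  · intro h
    have h1 : |x - 1 / 2| ≤ 1 / 2 := (le_max_left _ _).trans h.le
    have h2 : |y - 1 / 2| ≤ 1 / 2 := (le_max_right _ _).trans h.le
    refine ⟨(key x).1 h1, (key y).1 h2, ?_⟩
    rcases max_choice |x - 1 / 2| |y - 1 / 2| with h3 | h3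
    · rw [h3] at h
      rcases (key' x).1 h with h4 | h4 <;> simp [h4]
    · rw [h3] at h
      rcases (key' y).1 h with h4 | h4 <;> simp [h4]
  · rintro ⟨h1, h2, h3⟩
    refine le_antisymm (max_le ((key x).2 h1) ((key y).2 h2)) ?_
    rcases h3 with h | h | h | h
    · exact ((key' x).2 (Or.inl h)).ge.trans (le_max_left _ _)
    · exact ((key' x).2 (Or.inr h)).ge.trans (le_max_left _ _)
    · exact ((key' y).2 (Or.inl h)).ge.trans (le_max_right _ _)
    · exact ((key' y).2 (Or.inr h)).ge.trans (le_max_right _ _)

/-- (M4) -/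
theorem quadStatement : QuadStatement := by
  intro t0 t1 T h0 h1 h2
  -- clamp
  let c : ℝ → ℝ := fun x => max 0 (min 1 x)
  have hc : Continuous c := continuous_const.max (continuous_const.min continuous_id)
  have hc0 : ∀ x, 0 ≤ c x := fun x => le_max_left _ _
  have hc1 : ∀ x, c x ≤ 1 := fun x => max_le zero_le_one (min_le_left _ _)
  have hcx : ∀ x, 0 ≤ x → x ≤ 1 → c x = x := fun x ha hb => by
    simp only [c]
    rw [min_eq_right hb, max_eq_right ha]
  let lo : ℝ → ℝ := fun x => t0 * (1 - c x)
  let w : ℝ → ℝ := fun x => (t1 + (T - t1) * c x) - t0 * (1 - c x)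
  have hlo : Continuous lo := by fun_prop
  have hw : Continuous w := by fun_prop
  have hwpos : ∀ x, 0 < w x := fun x => by
    have ha := hc0 x
    have hb := hc1 x
    have h3 : w x = (t1 - t0) * (1 - c x) + T * c x := by simp only [w]; ring
    rw [h3]
    rcases eq_or_lt_of_le ha with h | h
    · rw [← h]; linarith
    · have : 0 ≤ (t1 - t0) * (1 - c x) := mul_nonneg (by linarith) (by linarith)
      have : 0 < T * c x := mul_pos (by linarith) h
      linarith
  -- `(x, y, z) ↦ (x, (z - lo x) / w x, y)`
  let e : R3 ≃ₜ R3 :=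
    { toFun := fun p => (p.1, (p.2.2 - lo p.1) / w p.1, p.2.1)
      invFun := fun q => (q.1, q.2.2, lo q.1 + w q.1 * q.2.1)
      left_inv := fun p => by
        have := (hwpos p.1).ne'
        ext
        · rfl
        · rfl
        · simp only
          field_simp
          ring
      right_inv := fun q => by
        have := (hwpos q.1).ne'
        ext
        · rfl
        · simp only
          field_simp
          ring
        · rfl
      continuous_toFun := by
        refine continuous_fst.prodMk (Continuous.prodMk ?_ (by fun_prop))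
        exact Continuous.div (by fun_prop) (hw.comp continuous_fst) fun p => (hwpos p.1).ne'
      continuous_invFun := by
        refine continuous_fst.prodMk (Continuous.prodMk (by fun_prop) ?_)
        exact (hlo.comp continuous_fst).add ((hw.comp continuous_fst).mul (by fun_prop)) }
  obtain ⟨φ, hφ⟩ := unknotted_square
  refine ⟨e.trans φ, ?_⟩
  have hkey : e '' quad t0 t1 T = body square := by
    rw [body_square]
    ext q
    obtain ⟨x, y, z⟩ := q
    rw [Homeomorph.image_eq_preimage_symm]
    show (x, z, lo x + w x * y) ∈ quad t0 t1 T ↔ _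
    simp only [quad, mem_ofPred_eq, max_abs_half]
    have hw0 := hwpos x
    refine and_congr_right fun _ => ?_
    have hdiv : ∀ r : ℝ, r / t0 * t0 = r := fun r => div_mul_cancel₀ r h0.ne'
    have hTt : 0 < T - t1 := by linarith
    constructor
    · rintro (⟨h3, h4, h5⟩ | ⟨h3, h4, h5⟩ | ⟨h3, h4, h5⟩ | ⟨h3, h4, h5⟩)
      · have h6 : c x = 1 := by rw [hcx x (by linarith) (by linarith), h3]
        have h7 : lo x = 0 := by simp only [lo]; rw [h6]; ring
        have h8 : w x = T := by simp only [w]; rw [h6]; ring
        rw [h7, h8, zero_add] at h4 h5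
        have hT : 0 < T := by linarith
        refine ⟨⟨by linarith, by linarith⟩, ⟨?_, ?_⟩, Or.inr (Or.inl h3)⟩
        · by_contra h9
          nlinarith [mul_pos hT (show 0 < -y by linarith)]
        · by_contra h9
          nlinarith [mul_pos hT (show 0 < y - 1 by linarith)]
      · have h6 : c x = 0 := by rw [hcx x (by linarith) (by linarith), h3]
        have h7 : lo x = t0 := by simp only [lo]; rw [h6]; ring
        have h8 : w x = t1 - t0 := by simp only [w]; rw [h6]; ring
        rw [h7, h8] at h4 h5
        have hT : 0 < t1 - t0 := by linarith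
        refine ⟨⟨by linarith, by linarith⟩, ⟨?_, ?_⟩, Or.inl h3⟩
        · by_contra h9
          nlinarith [mul_pos hT (show 0 < -y by linarith)]
        · by_contra h9
          nlinarith [mul_pos hT (show 0 < y - 1 by linarith)]
      · have hx0 : 0 ≤ x := by
          rw [h5]
          have : (lo x + w x * y) / t0 ≤ 1 := by rw [div_le_one h0]; exact h4
          linarith
        have hx1 : x ≤ 1 := by
          rw [h5]
          have : 0 ≤ (lo x + w x * y) / t0 := div_nonneg h3 h0.le
          linarith
        have h6 : c x = x := hcx x hx0 hx1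
        have h7 : lo x = t0 * (1 - x) := by simp only [lo]; rw [h6]
        have h8 : lo x + w x * y = t0 * (1 - x) := by
          have h9 := hdiv (lo x + w x * y)
          have h10 : (lo x + w x * y) / t0 = 1 - x := by linarith
          rw [h10] at h9
          linarith
        have h9 : w x * y = 0 := by linarith
        have h10 : y = 0 := (mul_eq_zero.1 h9).resolve_left hw0.ne'
        exact ⟨⟨hx0, hx1⟩, ⟨by linarith, by linarith⟩, Or.inr (Or.inr (Or.inl h10))⟩
      · have hx0 : 0 ≤ x := by
          rw [h5]
          exact div_nonneg (by linarith) hTt.le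
        have hx1 : x ≤ 1 := by
          rw [h5, div_le_one hTt]
          linarith
        have h6 : c x = x := hcx x hx0 hx1
        have h7 : lo x = t0 * (1 - x) := by simp only [lo]; rw [h6]
        have h7' : w x = (t1 + (T - t1) * x) - t0 * (1 - x) := by simp only [w]; rw [h6]
        have h8 : lo x + w x * y = t1 + (T - t1) * x := by
          have h9 := div_mul_cancel₀ (lo x + w x * y - t1) hTt.ne'
          rw [← h5] at h9
          linarith
        have h9 : w x * (y - 1) = 0 := by linarith
        have h10 : y = 1 := by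
          have := (mul_eq_zero.1 h9).resolve_left hw0.ne'
          linarith
        exact ⟨⟨hx0, hx1⟩, ⟨by linarith, by linarith⟩, Or.inr (Or.inr (Or.inr h10))⟩
    · rintro ⟨⟨hx0, hx1⟩, ⟨hy0, hy1⟩, h3⟩
      have h6 : c x = x := hcx x hx0 hx1
      have h7 : lo x = t0 * (1 - x) := by simp only [lo]; rw [h6]
      have h7' : w x = (t1 + (T - t1) * x) - t0 * (1 - x) := by simp only [w]; rw [h6]
      rcases h3 with h3 | h3 | h3 | h3
      · right; left
        refine ⟨h3, ?_, ?_⟩
        · rw [h7, h7', h3]
          nlinarith [mul_nonneg (show 0 ≤ t1 - t0 by linarith) hy0]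
        · rw [h7, h7', h3]
          nlinarith [mul_nonneg (show 0 ≤ t1 - t0 by linarith) (show 0 ≤ 1 - y by linarith)]
      · left
        refine ⟨h3, ?_, ?_⟩
        · rw [h7, h7', h3]
          nlinarith [mul_nonneg (show 0 ≤ T by linarith) hy0]
        · rw [h7, h7', h3]
          nlinarith [mul_nonneg (show 0 ≤ T by linarith) (show 0 ≤ 1 - y by linarith)]
      · right; right; left
        have h8 : lo x + w x * y = t0 * (1 - x) := by rw [h7, h3]; ring
        rw [h8]
        refine ⟨mul_nonneg h0.le (by linarith), ?_, ?_⟩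
        · nlinarith [mul_nonneg h0.le hx0]
        · rw [mul_div_cancel_left₀ _ h0.ne']; ring
      · right; right; right
        have h8 : lo x + w x * y = t1 + (T - t1) * x := by rw [h7, h7', h3]; ring
        rw [h8]
        refine ⟨?_, ?_, ?_⟩
        · nlinarith [mul_nonneg hTt.le hx0]
        · nlinarith [mul_nonneg hTt.le (show 0 ≤ 1 - x by linarith)]
        · rw [add_sub_cancel_left, mul_div_cancel_left₀ _ hTt.ne']
  rw [← hφ, ← hkey, image_image]
  rfl

end Pool.Agent.LatticeTube
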