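import Pool.Agent.LatticeTube.Closing

/-! (G5) Transfer: many two-strand polygons in a tube. -/

set_option autoImplicit false

open Pool.Agent.LK Set

namespace Pool.Agent.LatticeTube

/-- The polygon has an enumeration that goes once up and once down. -/
def UD (E : ES) : Prop := ∃ (n N : ℕ) (g : ℕ → P3), Cyc E n g ∧ UpDown n N g

/-- (G5') Transfer, with the traversal. -/
def TransferUD : Prop := ∀ (B : Finset (ℤ × ℤ)) (y z : ℝ)
  (v : (ℤ × ℤ) × (ℤ × ℤ) → ℝ), 0 < y → 0 < z → (∀ s, 0 ≤ v s) →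
  (∃ s, 0 < v s ∧ s.1 ∈ B ∧ s.2 ∈ B ∧ s.1 ≠ s.2) →
  (∀ a ∈ B, ∀ b ∈ B, a ≠ b → v (a, b) ≤ y * z ^ 2 * ∑ s' ∈ B ×ˢ B, linkGF B z (a, b) s' * v s') →
  (∀ a ∈ B, ∀ b ∈ B, ∃ p, PathIn B a b p) →
  ¬ Summable fun E : {E : ES // IsPolygon E ∧ UD E ∧ InTube B E ∧ NormZ E} =>
    z ^ E.1.card * y ^ span E.1

theorem append_split {α : Type*} (p : α → Prop) : ∀ (P P' A A' : List α), (∀ u ∈ P, p u) →
    (∀ u ∈ P', p u) → (∀ u ∈ A.head?, ¬ p u) → (∀ u ∈ A'.head?, ¬ p u) → P ++ A = P' ++ A' →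
    P = P' ∧ A = A' := by
  intro P
  induction P with
  | nil =>
    intro P' A A' _ h2 h3 _ h
    rcases P' with _ | ⟨x, P'⟩
    · exact ⟨rfl, by simpa using h⟩
    · exfalso
      simp only [List.nil_append, List.cons_append] at h
      exact h3 x (by rw [h]; rfl) (h2 x List.mem_cons_self)
  | cons x P ih =>
    intro P' A A' h1 h2 h3 h4 h
    rcases P' with _ | ⟨x', P'⟩
    · exfalso
      simp only [List.nil_append, List.cons_append] at h
      exact h4 x (by rw [← h]; rfl) (h1 x List.mem_cons_self)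
    · simp only [List.cons_append, List.cons.injEq] at h
      obtain ⟨rfl, h⟩ := h
      obtain ⟨rfl, h5⟩ := ih P' A A' (fun u hu => h1 u (List.mem_cons_of_mem _ hu))
        (fun u hu => h2 u (List.mem_cons_of_mem _ hu)) h3 h4 h
      exact ⟨rfl, h5⟩

theorem lists_finite (B : Finset (ℤ × ℤ)) :
    {p : List (ℤ × ℤ) | p.Nodup ∧ ∀ c ∈ p, c ∈ B}.Finite := by
  classical
  have h1 : {l : List B | l.length ≤ B.card}.Finite := List.finite_length_le _ _
  refine (h1.image (List.map Subtype.val)).subset ?_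
  rintro p ⟨hp, hB⟩
  refine ⟨p.attachWith (fun c => c ∈ B) hB, ?_, ?_⟩
  · simp only [mem_ofPred_eq, List.length_attachWith]
    rw [← List.toFinset_card_of_nodup hp]
    exact Finset.card_le_card fun c hc => hB c (List.mem_toFinset.1 hc)
  · exact List.attachWith_map_subtype_val hB

theorem links_finite (B : Finset (ℤ × ℤ)) (s s' : St) : (Links B s s').Finite := by
  refine ((lists_finite B).prod (lists_finite B)).subset ?_
  rintro m ⟨h1, h2, _⟩
  exact ⟨⟨h1.2.2.1, h1.2.2.2.2⟩, ⟨h2.2.2.1, h2.2.2.2.2⟩⟩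

/-- The finite set of links. -/
noncomputable def lk (B : Finset (ℤ × ℤ)) (s s' : St) : Finset (List (ℤ × ℤ) × List (ℤ × ℤ)) :=
  (links_finite B s s').toFinset

theorem mem_lk {B : Finset (ℤ × ℤ)} {s s' : St} {m : List (ℤ × ℤ) × List (ℤ × ℤ)} :
    m ∈ lk B s s' ↔ m ∈ Links B s s' := by
  rw [lk, Set.Finite.mem_toFinset]

theorem linkGF_eq (B : Finset (ℤ × ℤ)) (z : ℝ) (s s' : St) :
    linkGF B z s s' = ∑ m ∈ lk B s s', z ^ (m.1.length - 1 + (m.2.length - 1)) :=
  finsum_mem_eq_finite_toFinset_sum _ (links_finite B s s')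

open Classical in
/-- The pairs of lists obtained after `N` levels. -/
noncomputable def Op (B : Finset (ℤ × ℤ)) (p0 : List (ℤ × ℤ)) (s0 : St) :
    ℕ → St → Finset (List P3 × List P3)
  | 0 => fun s => if s = s0 then {(lev 0 p0, [(s0.1.1, s0.1.2, 0)])} else ∅
  | N + 1 => fun s' => (B ×ˢ B).biUnion fun s => (Op B p0 s0 N s ×ˢ lk B s s').image fun x =>
      (x.1.1 ++ lev (N + 1) x.2.2, (lev (N + 1) x.2.1).reverse ++ x.1.2)

variable {B : Finset (ℤ × ℤ)} {p0 : List (ℤ × ℤ)} {s0 : St}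

theorem op_inv (h0 : PathIn B s0.1 s0.2 p0) (hne : s0.1 ≠ s0.2) : ∀ (N : ℕ) (s : St),
    ∀ x ∈ Op B p0 s0 N s, Inv B p0 s0.1 N s x.1 x.2 := by
  intro N
  induction N with
  | zero =>
    intro s x hx
    simp only [Op] at hx
    split_ifs at hx with hs
    · subst hs
      rw [Finset.mem_singleton] at hx
      subst hx
      exact inv_zero h0 hne
    · simp at hx
  | succ N ih =>
    intro s' x hx
    simp only [Op, Finset.mem_biUnion, Finset.mem_image, Finset.mem_product] at hx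
    obtain ⟨s, _, ⟨x, m⟩, ⟨h1, h2⟩, rfl⟩ := hx
    exact (ih s x h1).ext (mem_lk.1 h2)

theorem ext_inj {N : ℕ} {c0 : ℤ × ℤ} {s t : St} {P R P' R' : List P3}
    {m m' : List (ℤ × ℤ) × List (ℤ × ℤ)} (h : Inv B p0 c0 N s P R) (h' : Inv B p0 c0 N t P' R')
    (he : ((P ++ lev (N + 1) m.2, (lev (N + 1) m.1).reverse ++ R) : List P3 × List P3) =
      (P' ++ lev (N + 1) m'.2, (lev (N + 1) m'.1).reverse ++ R')) :
    P = P' ∧ R = R' ∧ m = m' := by
  obtain ⟨e1, e2⟩ := Prod.mk.inj he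
  have hlev : ∀ (l : List (ℤ × ℤ)) (u : P3), u ∈ lev (N + 1) l → (N : ℤ) < u.2.2 := by
    intro l u hu
    rw [(mem_lev.1 hu).2]; push_cast; omega
  obtain ⟨f1, f2⟩ := append_split (fun u : P3 => u.2.2 ≤ (N : ℤ)) _ _ _ _
    (fun u hu => (h.levP u hu).2.1) (fun u hu => (h'.levP u hu).2.1)
    (fun u hu => not_le.2 (hlev _ _ (List.mem_of_mem_head? hu)))
    (fun u hu => not_le.2 (hlev _ _ (List.mem_of_mem_head? hu))) e1
  obtain ⟨f3, f4⟩ := append_split (fun u : P3 => (N : ℤ) < u.2.2) _ _ _ _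
    (fun u hu => hlev _ _ (List.mem_reverse.1 hu)) (fun u hu => hlev _ _ (List.mem_reverse.1 hu))
    (fun u hu => not_lt.2 (h.levR _ (List.mem_of_mem_head? hu)).2.1)
    (fun u hu => not_lt.2 (h'.levR _ (List.mem_of_mem_head? hu)).2.1) e2
  refine ⟨f1, f4, Prod.ext (lev_injective _ (List.reverse_injective f3)) (lev_injective _ f2)⟩

theorem Inv.state_eq {N : ℕ} {c0 : ℤ × ℤ} {s t : St} {P R : List P3} (h : Inv B p0 c0 N s P R)
    (h' : Inv B p0 c0 N t P R) : s = t := by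
  have h1 := h.headR.symm.trans h'.headR
  have h2 := h.lastP.symm.trans h'.lastP
  simp only [Option.some.injEq, Prod.mk.injEq, and_true] at h1 h2
  exact Prod.ext (Prod.ext h1.1 h1.2) (Prod.ext h2.1 h2.2)

/-- The total weight. -/
noncomputable def Wt (B : Finset (ℤ × ℤ)) (p0 : List (ℤ × ℤ)) (s0 : St) (z : ℝ) (N : ℕ) (s : St) :
    ℝ := ∑ x ∈ Op B p0 s0 N s, z ^ (x.1.length + x.2.length)

theorem wt_succ (h0 : PathIn B s0.1 s0.2 p0) (hne : s0.1 ≠ s0.2) (z : ℝ) (N : ℕ) (s' : St) :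
    Wt B p0 s0 z (N + 1) s' = z ^ 2 * ∑ s ∈ B ×ˢ B, Wt B p0 s0 z N s * linkGF B z s s' := by
  classical
  rw [Wt, Op, Finset.sum_biUnion, Finset.mul_sum]
  · refine Finset.sum_congr rfl fun s _ => ?_
    rw [Finset.sum_image, Finset.sum_product, Wt, Finset.sum_mul, Finset.mul_sum]
    · refine Finset.sum_congr rfl fun x _ => ?_
      rw [linkGF_eq, Finset.mul_sum, Finset.mul_sum]
      refine Finset.sum_congr rfl fun m hm => ?_
      obtain ⟨h1, h2, _⟩ := mem_lk.1 hm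
      have l1 : 1 ≤ m.1.length := List.length_pos_iff.2 h1.ne_nil
      have l2 : 1 ≤ m.2.length := List.length_pos_iff.2 h2.ne_nil
      simp only [List.length_append, List.length_reverse, length_lev]
      rw [← pow_add, ← pow_add]
      congr 1
      omega
    · rintro ⟨x, m⟩ hx ⟨x', m'⟩ hx' he
      simp only [Finset.coe_product, Set.mem_prod, Finset.mem_coe] at hx hx'
      obtain ⟨f1, f2, f3⟩ := ext_inj (op_inv h0 hne N s x hx.1) (op_inv h0 hne N s x' hx'.1) he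
      exact Prod.ext (Prod.ext f1 f2) f3
  · intro s _ t _ hst
    rw [Function.onFun, Finset.disjoint_left]
    intro a ha ha'
    rw [Finset.mem_image] at ha ha'
    obtain ⟨⟨x, m⟩, hx, rfl⟩ := ha
    obtain ⟨⟨x', m'⟩, hx', he⟩ := ha'
    rw [Finset.mem_product] at hx hx'
    have i1 := op_inv h0 hne N s x hx.1
    have i2 := op_inv h0 hne N t x' hx'.1
    obtain ⟨f1, f2, _⟩ := ext_inj i2 i1 he
    rw [f1, f2] at i2
    exact hst (i1.state_eq i2)

theorem wt_nonneg {z : ℝ} (hz : 0 < z) (N : ℕ) (s : St) : 0 ≤ Wt B p0 s0 z N s :=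
  Finset.sum_nonneg fun _ _ => by positivity

theorem wt_diag (h0 : PathIn B s0.1 s0.2 p0) (hne : s0.1 ≠ s0.2) (z : ℝ) (N : ℕ) (s : St)
    (hs : s.1 = s.2) : Wt B p0 s0 z N s = 0 := by
  rw [Wt, Finset.sum_eq_zero]
  intro x hx
  exact absurd hs (op_inv h0 hne N s x hx).ne

/-- The potential grows. -/
theorem potential (h0 : PathIn B s0.1 s0.2 p0) (hne : s0.1 ≠ s0.2) {y z : ℝ}
    (hz : 0 < z) {v : St → ℝ}
    (hT : ∀ a ∈ B, ∀ b ∈ B, a ≠ b →
      v (a, b) ≤ y * z ^ 2 * ∑ s' ∈ B ×ˢ B, linkGF B z (a, b) s' * v s') (N : ℕ) :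
    ∑ s ∈ B ×ˢ B, Wt B p0 s0 z N s * v s ≤
      y * ∑ s ∈ B ×ˢ B, Wt B p0 s0 z (N + 1) s * v s := by
  calc ∑ s ∈ B ×ˢ B, Wt B p0 s0 z N s * v s
      ≤ ∑ s ∈ B ×ˢ B, Wt B p0 s0 z N s * (y * z ^ 2 * ∑ s' ∈ B ×ˢ B, linkGF B z s s' * v s') := by
        refine Finset.sum_le_sum fun s hs => ?_
        by_cases hd : s.1 = s.2
        · rw [wt_diag h0 hne z N s hd]; simp
        · rw [Finset.mem_product] at hs
          exact mul_le_mul_of_nonneg_left (hT s.1 hs.1 s.2 hs.2 hd) (wt_nonneg hz N s)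
    _ = y * ∑ s' ∈ B ×ˢ B, (z ^ 2 * ∑ s ∈ B ×ˢ B, Wt B p0 s0 z N s * linkGF B z s s') * v s' := by
        simp only [Finset.mul_sum, Finset.sum_mul]
        rw [Finset.sum_comm]
        refine Finset.sum_congr rfl fun s _ => Finset.sum_congr rfl fun s' _ => ?_
        ring
    _ = y * ∑ s ∈ B ×ˢ B, Wt B p0 s0 z (N + 1) s * v s := by
        congr 1
        refine Finset.sum_congr rfl fun s' _ => ?_
        rw [wt_succ h0 hne]

theorem potential_pow (h0 : PathIn B s0.1 s0.2 p0) (hne : s0.1 ≠ s0.2) {y z : ℝ} (hy : 0 < y)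
    (hz : 0 < z) {v : St → ℝ} (hv : ∀ s, 0 ≤ v s)
    (hT : ∀ a ∈ B, ∀ b ∈ B, a ≠ b →
      v (a, b) ≤ y * z ^ 2 * ∑ s' ∈ B ×ˢ B, linkGF B z (a, b) s' * v s') (N : ℕ) :
    z ^ (p0.length + 1) * v s0 ≤ y ^ N * ∑ s ∈ B ×ˢ B, Wt B p0 s0 z N s * v s := by
  induction N with
  | zero =>
    rw [pow_zero, one_mul]
    have hs : s0 ∈ B ×ˢ B := by
      have := inv_zero h0 hne
      exact Finset.mem_product.2 ⟨this.mem1, this.mem2⟩
    refine le_trans (le_of_eq ?_) (Finset.single_le_sum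
      (f := fun s => Wt B p0 s0 z 0 s * v s) (fun s _ => mul_nonneg (wt_nonneg hz 0 s) (hv s)) hs)
    simp only [Wt, Op, if_true, Finset.sum_singleton, length_lev, List.length_singleton]
  | succ N ih =>
    refine ih.trans ?_
    rw [pow_succ, mul_assoc]
    exact mul_le_mul_of_nonneg_left (potential h0 hne hz hT N) (by positivity)

/-- The closed list determines the two lists. -/
theorem close_inj {N : ℕ} {s : St} {P R P' R' : List P3} {c0 d0 : ℤ × ℤ}
    (h : Inv B p0 c0 N s P R) (h' : Inv B p0 c0 N s P' R') (hp0 : PathIn B c0 d0 p0)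
    (hne0 : c0 ≠ d0) {q : List (ℤ × ℤ)} (hq : PathIn B s.2 s.1 q)
    (he : pedges (P ++ lev (N + 1) q ++ R) = pedges (P' ++ lev (N + 1) q ++ R')) :
    P = P' ∧ R = R' := by
  obtain ⟨_, h1, _⟩ := h.close hp0 hne0 hq
  obtain ⟨_, h2, _⟩ := h'.close hp0 hne0 hq
  have hp2 : 2 ≤ p0.length := hp0.two_le hne0
  have hgen : ∀ {P R : List P3}, Inv B p0 c0 N s P R → ∀ i < p0.length,
      (P ++ lev (N + 1) q ++ R).getD i 0 = (lev 0 p0).getD i 0 := by
    intro P R h i hi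
    obtain ⟨t, ht⟩ := h.pre
    rw [← ht, List.append_assoc, List.append_assoc,
      List.getD_append _ _ _ _ (by rw [length_lev]; omega)]
  rw [← he] at h2
  obtain ⟨hn, hg⟩ := cyc_unique h1 h2 (by rw [hgen h 0 (by omega), hgen h' 0 (by omega)])
    (by rw [hgen h 1 (by omega), hgen h' 1 (by omega)])
  have hR1 : 1 ≤ R.length := List.length_pos_iff.2 h.R_ne
  have hR1' : 1 ≤ R'.length := List.length_pos_iff.2 h'.R_ne
  have hlist : P ++ lev (N + 1) q ++ R = P' ++ lev (N + 1) q ++ R' := by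
    have hl : (P ++ lev (N + 1) q ++ R).length = (P' ++ lev (N + 1) q ++ R').length := by
      simp only [List.length_append, length_lev]; omega
    refine List.ext_getElem hl fun i hi hi' => ?_
    have := hg i (by simp only [List.length_append, length_lev] at hi; omega)
    rwa [List.getD_eq_getElem _ _ hi, List.getD_eq_getElem _ _ hi'] at this
  rw [List.append_assoc, List.append_assoc] at hlist
  have hhead : ∀ (R : List P3), ∀ u ∈ (lev (N + 1) q ++ R).head?, ¬ u.2.2 ≤ (N : ℤ) := by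
    intro R u hu
    rw [List.head?_append, hq.head_lev] at hu
    simp only [Option.some_or, Option.mem_def, Option.some.injEq] at hu
    subst hu
    push_cast
    omega
  obtain ⟨f1, f2⟩ := append_split (fun u : P3 => u.2.2 ≤ (N : ℤ)) _ _ _ _
    (fun u hu => (h.levP u hu).2.1) (fun u hu => (h'.levP u hu).2.1) (hhead R) (hhead R') hlist
  exact ⟨f1, List.append_cancel_left f2⟩

theorem transferUD : TransferUD := by
  classical
  rintro B y z v hy hz hv ⟨s0, hs0, hs1, hs2, hne⟩ hT hconn hsum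
  obtain ⟨p0, h0⟩ := hconn s0.1 hs1 s0.2 hs2
  have hq : ∀ s : St, ∃ q, s.1 ∈ B → s.2 ∈ B → PathIn B s.2 s.1 q := by
    intro s
    by_cases h1 : s.1 ∈ B
    · by_cases h2 : s.2 ∈ B
      · obtain ⟨q, hq⟩ := hconn s.2 h2 s.1 h1
        exact ⟨q, fun _ _ => hq⟩
      · exact ⟨[], fun _ h => absurd h h2⟩
    · exact ⟨[], fun h => absurd h h1⟩
  choose q hq using hq
  set V : ℝ := ∑ s ∈ B ×ˢ B, v s with hV
  have hV0 : 0 ≤ V := Finset.sum_nonneg fun s _ => hv s
  set δ : ℝ := z ^ (p0.length + 1) * v s0 with hδ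
  have hδ0 : 0 < δ := by positivity
  have hex : ∀ N, ∃ s ∈ B ×ˢ B, δ / (V + 1) ≤ y ^ N * Wt B p0 s0 z N s := by
    intro N
    by_contra hcon
    push Not at hcon
    have h1 := potential_pow h0 hne hy hz hv hT N
    have h2 : y ^ N * ∑ s ∈ B ×ˢ B, Wt B p0 s0 z N s * v s ≤ δ / (V + 1) * V := by
      rw [Finset.mul_sum, hV, Finset.mul_sum]
      refine Finset.sum_le_sum fun s hs => ?_
      rw [← mul_assoc]
      exact mul_le_mul_of_nonneg_right (hcon s hs).le (hv s)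
    have h3 : δ / (V + 1) * V < δ := by
      rw [div_mul_eq_mul_div, div_lt_iff₀ (by linarith)]
      nlinarith
    linarith
  choose sN hsN hsW using hex
  have hpos : 0 < δ / (V + 1) := by positivity
  have hinv : ∀ N, ∀ x ∈ Op B p0 s0 N (sN N), Inv B p0 s0.1 N (sN N) x.1 x.2 :=
    fun N x hx => op_inv h0 hne N _ x hx
  have hqN : ∀ N, PathIn B (sN N).2 (sN N).1 (q (sN N)) := fun N =>
    hq _ (Finset.mem_product.1 (hsN N)).1 (Finset.mem_product.1 (hsN N)).2
  -- the polygons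
  let Ef : (Σ N : ℕ, {x // x ∈ Op B p0 s0 N (sN N)}) → ES := fun x =>
    pedges (x.2.1.1 ++ lev (x.1 + 1) (q (sN x.1)) ++ x.2.1.2)
  have hcl := fun x : (Σ N : ℕ, {x // x ∈ Op B p0 s0 N (sN N)}) =>
    (hinv x.1 x.2.1 x.2.2).close h0 hne (hqN x.1)
  let j : (Σ N : ℕ, {x // x ∈ Op B p0 s0 N (sN N)}) →
      {E : ES // IsPolygon E ∧ UD E ∧ InTube B E ∧ NormZ E} := fun x =>
    ⟨Ef x, (hcl x).1, ⟨_, _, _, (hcl x).2.1, (hcl x).2.2.1⟩, (hcl x).2.2.2.1, (hcl x).2.2.2.2.1⟩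
  have hj : Function.Injective j := by
    rintro ⟨N, x, hx⟩ ⟨N', x', hx'⟩ he
    have he' : Ef ⟨N, x, hx⟩ = Ef ⟨N', x', hx'⟩ := congrArg Subtype.val he
    have hN : N = N' := by
      have h1 : span (Ef ⟨N, x, hx⟩) = N + 1 := (hcl ⟨N, x, hx⟩).2.2.2.2.2
      have h2 : span (Ef ⟨N', x', hx'⟩) = N' + 1 := (hcl ⟨N', x', hx'⟩).2.2.2.2.2
      rw [he', h2] at h1
      omega
    subst hN
    obtain ⟨f1, f2⟩ := close_inj (hinv N x hx) (hinv N x' hx') h0 hne (hqN N) he'
    have : x = x' := Prod.ext f1 f2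
    subst this
    rfl
  have hs2 := (hsum.comp_injective hj).sigma
  have hlim := hs2.tendsto_atTop_zero
  -- a lower bound for each span
  have hζ : ∀ s : St, z ^ ((q s).length - 1) ≥ 0 := fun s => by positivity
  set w : ℝ := min 1 z with hw
  have hw0 : 0 < w := lt_min one_pos hz
  have hqw : ∀ N, w ^ B.card ≤ z ^ ((q (sN N)).length - 1) := by
    intro N
    have h1 : (q (sN N)).length ≤ B.card := by
      rw [← List.toFinset_card_of_nodup (hqN N).2.2.1]
      exact Finset.card_le_card fun c hc => (hqN N).2.2.2.2 c (List.mem_toFinset.1 hc)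
    calc w ^ B.card ≤ w ^ ((q (sN N)).length - 1) :=
          pow_le_pow_of_le_one hw0.le (min_le_left _ _) (by omega)
      _ ≤ z ^ ((q (sN N)).length - 1) := pow_le_pow_left₀ hw0.le (min_le_right _ _) _
  have hlow : ∀ N, w ^ B.card * y * (δ / (V + 1)) ≤
      ∑' x : {x // x ∈ Op B p0 s0 N (sN N)}, ((fun E : {E : ES // IsPolygon E ∧ UD E ∧ InTube B E ∧
        NormZ E} => z ^ E.1.card * y ^ span E.1) ∘ j) ⟨N, x⟩ := by
    intro N
    rw [tsum_fintype]
    have h1 : ∀ x : {x // x ∈ Op B p0 s0 N (sN N)}, w ^ B.card * y * y ^ N *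
        z ^ (x.1.1.length + x.1.2.length) ≤ ((fun E : {E : ES // IsPolygon E ∧ UD E ∧
          InTube B E ∧ NormZ E} => z ^ E.1.card * y ^ span E.1) ∘ j) ⟨N, x⟩ := by
      intro x
      have hc := hcl ⟨N, x⟩
      have hcard : (Ef ⟨N, x⟩).card = x.1.1.length + (q (sN N)).length + x.1.2.length - 1 :=
        hc.2.1.card_eq
      have hspan : span (Ef ⟨N, x⟩) = N + 1 := hc.2.2.2.2.2
      show _ ≤ z ^ (Ef ⟨N, x⟩).card * y ^ span (Ef ⟨N, x⟩)
      have hq1 : 1 ≤ (q (sN N)).length := List.length_pos_iff.2 (hqN N).ne_nil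
      have e : x.1.1.length + (q (sN N)).length + x.1.2.length - 1 =
          (x.1.1.length + x.1.2.length) + ((q (sN N)).length - 1) := by omega
      rw [hcard, hspan, e, pow_add z (x.1.1.length + x.1.2.length), pow_succ]
      have h2 := hqw N
      have h3 : 0 ≤ z ^ (x.1.1.length + x.1.2.length) * (y ^ N * y) := by positivity
      calc w ^ B.card * y * y ^ N * z ^ (x.1.1.length + x.1.2.length)
          = z ^ (x.1.1.length + x.1.2.length) * (y ^ N * y) * w ^ B.card := by ring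
        _ ≤ z ^ (x.1.1.length + x.1.2.length) * (y ^ N * y) * z ^ ((q (sN N)).length - 1) :=
            mul_le_mul_of_nonneg_left h2 h3
        _ = _ := by ring
    refine le_trans ?_ (Finset.sum_le_sum fun x _ => h1 x)
    rw [← Finset.mul_sum]
    have h4 : ∑ x : {x // x ∈ Op B p0 s0 N (sN N)}, z ^ (x.1.1.length + x.1.2.length) =
        Wt B p0 s0 z N (sN N) :=
      Finset.sum_coe_sort (Op B p0 s0 N (sN N))
        (fun x : List P3 × List P3 => z ^ (x.1.length + x.2.length))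
    rw [h4, mul_assoc (w ^ B.card * y)]
    exact mul_le_mul_of_nonneg_left (hsW N) (by positivity)
  have hε : 0 < w ^ B.card * y * (δ / (V + 1)) := by positivity
  obtain ⟨N, hN⟩ := (hlim.eventually_lt_const hε).exists
  exact absurd (hlow N) (not_le.2 hN)

end Pool.Agent.LatticeTube
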