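import Pool.Agent.LatticeTube.GapSpec
import Pool.Agent.MP_aea6d5_co.Basic

/-! (G1) sections of lattice polygons: parity and contiguity. -/

set_option autoImplicit false

open Pool.Agent.LK

namespace Pool.Agent.LatticeTube

/-- the vertical edge above the point `p` -/
private def up (p : P3) : Sym2 P3 := s((p.1, p.2.1, p.2.2), (p.1, p.2.1, p.2.2 + 1))

private theorem up_inj : Function.Injective up := by
  rintro ⟨a, b, k⟩ ⟨a', b', k'⟩ h
  simp only [up, Sym2.eq_iff, Prod.mk.injEq] at h
  rcases h with ⟨⟨h1, h2, h3⟩, _⟩ | ⟨⟨h1, h2, h3⟩, h4, h5, h6⟩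
  · rw [h1, h2, h3]
  · omega

private noncomputable def ups (E : ES) : Finset P3 :=
  (E.finite_toSet.preimage (up_inj.injOn)).toFinset

private theorem mem_ups {E : ES} {p : P3} : p ∈ ups E ↔ up p ∈ E := by
  unfold ups
  rw [Set.Finite.mem_toFinset]
  rfl

private theorem vert_eq (E : ES) : vert E = (ups E).card := by
  have h : {e : Sym2 P3 | e ∈ E ∧ ∃ x y k : ℤ, e = s((x, y, k), (x, y, k + 1))}
      = up '' (ups E : Set P3) := by
    ext e
    constructor
    · rintro ⟨he, x, y, k, rfl⟩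
      exact ⟨(x, y, k), mem_ups.2 he, rfl⟩
    · rintro ⟨p, hp, rfl⟩
      exact ⟨mem_ups.1 hp, p.1, p.2.1, p.2.2, rfl⟩
  unfold vert
  rw [h, Set.ncard_image_of_injective _ up_inj, Set.ncard_coe_finset]

private theorem sect_eq (E : ES) (k : ℤ) :
    sect E k = (fun p : P3 => (p.1, p.2.1)) '' ((ups E).filter (fun p => p.2.2 = k) : Set P3) := by
  ext c
  constructor
  · intro hc
    refine ⟨(c.1, c.2, k), ?_, rfl⟩
    rw [Finset.mem_coe, Finset.mem_filter, mem_ups]
    exact ⟨hc, rfl⟩
  · rintro ⟨p, hp, rfl⟩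
    rw [Finset.mem_coe, Finset.mem_filter, mem_ups] at hp
    obtain ⟨h1, rfl⟩ := hp
    exact h1

private theorem sect_card (E : ES) (k : ℤ) :
    (sect E k).ncard = ((ups E).filter (fun p => p.2.2 = k)).card := by
  rw [sect_eq, Set.ncard_image_of_injOn, Set.ncard_coe_finset]
  rintro ⟨a, b, c⟩ hp ⟨a', b', c'⟩ hq h
  rw [Finset.mem_coe, Finset.mem_filter] at hp hq
  simp only [Prod.mk.injEq] at h
  have h1 : c = k := hp.2
  have h2 : c' = k := hq.2
  rw [h.1, h.2, h1, h2]

private theorem sect_finite (E : ES) (k : ℤ) : (sect E k).Finite := by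
  rw [sect_eq]
  exact (Finset.finite_toSet _).image _

/-- the levels of the nonempty sections -/
private theorem levels_eq (E : ES) :
    {k : ℤ | (sect E k).Nonempty} = ((ups E).image (fun p => p.2.2) : Finset ℤ) := by
  ext k
  rw [Finset.mem_coe, Finset.mem_image]
  constructor
  · rintro ⟨c, hc⟩
    exact ⟨(c.1, c.2, k), mem_ups.2 hc, rfl⟩
  · rintro ⟨p, hp, rfl⟩
    exact ⟨(p.1, p.2.1), mem_ups.1 hp⟩

private theorem levels_finite (E : ES) : {k : ℤ | (sect E k).Nonempty}.Finite := by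
  rw [levels_eq]
  exact Finset.finite_toSet _

private theorem adj_cases {u v : P3} (h : Adj u v) (hk : u.2.2 < v.2.2) :
    v.1 = u.1 ∧ v.2.1 = u.2.1 ∧ v.2.2 = u.2.2 + 1 := by
  unfold Adj at h
  have h1 := abs_nonneg (u.1 - v.1)
  have h2 := abs_nonneg (u.2.1 - v.2.1)
  have h3 : |u.2.2 - v.2.2| = v.2.2 - u.2.2 := by
    rw [abs_sub_comm, abs_of_pos (by omega)]
  rw [h3] at h
  have h4 : |u.1 - v.1| = 0 := by omega
  have h5 : |u.2.1 - v.2.1| = 0 := by omega
  rw [abs_eq_zero] at h4 h5
  refine ⟨by omega, by omega, by omega⟩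

/-- an edge which crosses the height `k + 1/2` is vertical -/
private theorem crossing {E : ES} (hE : IsPolygon E) {k : ℤ} {u v : P3} (h : s(u, v) ∈ E)
    (hu : u.2.2 ≤ k) (hv : k < v.2.2) : (u.1, u.2.1) ∈ sect E k ∧ u.2.2 = k ∧
      v = (u.1, u.2.1, k + 1) := by
  obtain ⟨h1, h2, h3⟩ := adj_cases (hE.adj u v h) (by omega)
  have hk : u.2.2 = k := by omega
  have hv' : v = (u.1, u.2.1, k + 1) := by
    refine Prod.ext h1 (Prod.ext h2 ?_)
    show v.2.2 = k + 1
    omega
  refine ⟨?_, hk, hv'⟩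
  show s((u.1, u.2.1, k), (u.1, u.2.1, k + 1)) ∈ E
  rw [← hv']
  have hu' : (u.1, u.2.1, k) = u := Prod.ext rfl (Prod.ext rfl hk.symm)
  rw [hu']
  exact h

open Classical in
private theorem even_sect {E : ES} (hE : IsPolygon E) (k : ℤ) : Even (sect E k).ncard := by
  -- the lower half of the vertices
  set W : Finset P3 := (verts_finite E).toFinset.filter (fun u => u.2.2 ≤ k) with hW
  set V : Finset P3 := (verts_finite E).toFinset with hV
  have hmV : ∀ u, u ∈ V ↔ u ∈ verts E := fun u => by rw [hV, Set.Finite.mem_toFinset]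
  have hmW : ∀ u, u ∈ W ↔ u ∈ verts E ∧ u.2.2 ≤ k := fun u => by
    rw [hW, Finset.mem_filter, Set.Finite.mem_toFinset]
  -- darts
  set D : Finset (P3 × P3) := (W ×ˢ V).filter (fun p => s(p.1, p.2) ∈ E) with hD
  have hmD : ∀ p : P3 × P3, p ∈ D ↔ p.1.2.2 ≤ k ∧ s(p.1, p.2) ∈ E := by
    intro p
    rw [hD, Finset.mem_filter, Finset.mem_product, hmW, hmV]
    constructor
    · rintro ⟨⟨⟨_, h1⟩, _⟩, h2⟩
      exact ⟨h1, h2⟩
    · rintro ⟨h1, h2⟩
      exact ⟨⟨⟨left_mem_verts h2, h1⟩, right_mem_verts h2⟩, h2⟩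
  have hcardD : D.card = 2 * W.card := by
    have h1 : D.card = ∑ u ∈ W, (D.filter fun p => p.1 = u).card := by
      apply Finset.card_eq_sum_card_fiberwise
      intro p hp
      rw [Finset.mem_coe, hmD] at hp
      rw [Finset.mem_coe, hmW]
      exact ⟨left_mem_verts hp.2, hp.1⟩
    have h2 : ∀ u ∈ W, (D.filter fun p => p.1 = u).card = 2 := by
      intro u hu
      rw [hmW] at hu
      rw [← hE.deg u hu.1]
      have h3 : {w | s(u, w) ∈ E} = (D.filter fun p => p.1 = u).image Prod.snd := by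
        ext w
        rw [Finset.mem_coe, Finset.mem_image]
        constructor
        · intro hw
          refine ⟨(u, w), ?_, rfl⟩
          rw [Finset.mem_filter, hmD]
          exact ⟨⟨hu.2, hw⟩, rfl⟩
        · rintro ⟨p, hp, rfl⟩
          rw [Finset.mem_filter, hmD] at hp
          obtain ⟨⟨_, h4⟩, rfl⟩ := hp
          exact h4
      rw [h3, Set.ncard_coe_finset, Finset.card_image_of_injOn]
      rintro ⟨a, b⟩ hp ⟨a', b'⟩ hq h
      rw [Finset.mem_coe, Finset.mem_filter] at hp hq
      have e1 : a = u := hp.2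
      have e2 : a' = u := hq.2
      have e3 : b = b' := h
      rw [e1, e2, e3]
    rw [h1, Finset.sum_congr rfl h2, Finset.sum_const, smul_eq_mul, mul_comm]
  -- the darts inside the lower half
  set D1 : Finset (P3 × P3) := D.filter (fun p => p.2.2.2 ≤ k) with hD1
  set D2 : Finset (P3 × P3) := D.filter (fun p => ¬ p.2.2.2 ≤ k) with hD2
  have hsum : D1.card + D2.card = D.card := Finset.card_filter_add_card_filter_not _
  have hmD1 : ∀ p : P3 × P3, p ∈ D1 ↔ (p.1.2.2 ≤ k ∧ s(p.1, p.2) ∈ E) ∧ p.2.2.2 ≤ k := by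
    intro p
    rw [hD1, Finset.mem_filter, hmD]
  have heven1 : Even D1.card := by
    rw [← ZMod.natCast_eq_zero_iff_even]
    have h1 : (D1.card : ZMod 2) = ∑ p ∈ D1, (1 : ZMod 2) := by simp
    rw [h1]
    refine Finset.sum_involution (fun p _ => (p.2, p.1)) ?_ ?_ ?_ ?_
    · intro p _
      decide
    · intro p hp _ h2
      rw [hmD1] at hp
      have h3 : p.2 = p.1 := congrArg Prod.fst h2
      exact (hE.adj _ _ hp.1.2).ne h3.symm
    · intro p hp
      rw [hmD1] at hp ⊢
      refine ⟨⟨hp.2, ?_⟩, hp.1.1⟩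
      rw [Sym2.eq_swap]
      exact hp.1.2
    · intro p _
      rfl
  have hcard2 : D2.card = (sect E k).ncard := by
    have h1 : sect E k = (D2.image fun p => (p.1.1, p.1.2.1) : Finset (ℤ × ℤ)) := by
      ext c
      rw [Finset.mem_coe, Finset.mem_image]
      constructor
      · intro hc
        refine ⟨((c.1, c.2, k), (c.1, c.2, k + 1)), ?_, rfl⟩
        rw [hD2, Finset.mem_filter, hmD]
        refine ⟨⟨le_refl _, hc⟩, ?_⟩
        show ¬ k + 1 ≤ k
        omega
      · rintro ⟨p, hp, rfl⟩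
        rw [hD2, Finset.mem_filter, hmD] at hp
        exact (crossing hE hp.1.2 hp.1.1 (by have := hp.2; omega)).1
    rw [h1, Set.ncard_coe_finset, Finset.card_image_of_injOn]
    rintro ⟨a, b⟩ hp ⟨a', b'⟩ hq h
    rw [Finset.mem_coe, hD2, Finset.mem_filter, hmD] at hp hq
    obtain ⟨_, h3, h4⟩ := crossing hE hp.1.2 hp.1.1 (by have := hp.2; omega)
    obtain ⟨_, h3', h4'⟩ := crossing hE hq.1.2 hq.1.1 (by have := hq.2; omega)
    simp only [Prod.mk.injEq] at h
    have e1 : a = a' := Prod.ext h.1 (Prod.ext h.2 (h3.trans h3'.symm))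
    have e2 : b = b' := by
      have h4a : b = (a.1, a.2.1, k + 1) := h4
      have h4b : b' = (a'.1, a'.2.1, k + 1) := h4'
      rw [h4a, h4b, e1]
    rw [e1, e2]
  rw [← hcard2]
  rw [Nat.even_iff] at heven1 ⊢
  omega

private theorem part1 (E : ES) (hE : IsPolygon E) : 4 * span E ≤ vert E + 2 * numTwo E := by
  classical
  set S : Finset ℤ := (ups E).image (fun p => p.2.2) with hS
  have hspan : span E = S.card := by
    unfold span
    rw [levels_eq, Set.ncard_coe_finset]
  have hvert : vert E = ∑ k ∈ S, (sect E k).ncard := by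
    rw [vert_eq, Finset.card_eq_sum_card_image (fun p : P3 => p.2.2) (ups E)]
    exact Finset.sum_congr rfl fun k _ => (sect_card E k).symm
  have hmS : ∀ k, k ∈ S ↔ (sect E k).Nonempty := by
    intro k
    have h := levels_eq E
    have h2 : k ∈ {k : ℤ | (sect E k).Nonempty} ↔ k ∈ (S : Set ℤ) := by rw [h]
    exact h2.symm
  have htwo : numTwo E = (S.filter fun k => (sect E k).ncard = 2).card := by
    unfold numTwo
    rw [← Set.ncard_coe_finset]
    congr 1
    ext k
    rw [Finset.mem_coe, Finset.mem_filter, hmS]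
    constructor
    · intro h
      have h' : (sect E k).ncard = 2 := h
      exact ⟨Set.nonempty_of_ncard_ne_zero (by omega), h'⟩
    · exact fun h => h.2
  have h4 : ∀ k ∈ S, 4 ≤ (sect E k).ncard + 2 * (if (sect E k).ncard = 2 then 1 else 0) := by
    intro k hk
    rw [hmS] at hk
    have h1 : 0 < (sect E k).ncard := (Set.ncard_pos (sect_finite E k)).2 hk
    have h2 := even_sect hE k
    rw [Nat.even_iff] at h2
    split_ifs with h3
    · omega
    · omega
  have h5 := Finset.sum_le_sum h4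
  rw [Finset.sum_const, smul_eq_mul, Finset.sum_add_distrib, ← hvert, ← Finset.mul_sum,
    ← Finset.card_filter, ← htwo, ← hspan] at h5
  omega

private theorem part2 (E : ES) (hE : IsPolygon E) (hN : NormZ E) (k : ℤ) :
    (sect E k).Nonempty ↔ 0 ≤ k ∧ k < span E := by
  classical
  set S : Finset ℤ := (ups E).image (fun p => p.2.2) with hS
  have hspan : span E = S.card := by
    unfold span
    rw [levels_eq, Set.ncard_coe_finset]
  have hmS : ∀ k, k ∈ S ↔ (sect E k).Nonempty := by
    intro k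
    have h := levels_eq E
    have h2 : k ∈ {k : ℤ | (sect E k).Nonempty} ↔ k ∈ (S : Set ℤ) := by rw [h]
    exact h2.symm
  have hpos : ∀ k ∈ S, 0 ≤ k := by
    intro k hk
    rw [hmS] at hk
    obtain ⟨c, hc⟩ := hk
    exact hN.1 _ (left_mem_verts hc)
  -- downward closed
  have hdown : ∀ k ∈ S, ∀ j, 0 ≤ j → j ≤ k → j ∈ S := by
    intro k hk j hj hjk
    rw [hmS] at hk ⊢
    obtain ⟨c, hc⟩ := hk
    obtain ⟨u, hu, hu0⟩ := hN.2
    have hpath := hE.conn u hu _ (right_mem_verts hc)
    have key : ∀ v, Relation.ReflTransGen (fun a b => s(a, b) ∈ E) u v → j < v.2.2 →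
        (sect E j).Nonempty := by
      intro v hv
      induction hv with
      | refl =>
        intro h
        omega
      | @tail a b hab hb ih =>
        intro h
        by_cases h1 : j < a.2.2
        · exact ih h1
        · exact ⟨_, (crossing hE hb (by omega) h).1⟩
    apply key _ hpath
    show j < k + 1
    omega
  rw [← hmS, hspan]
  constructor
  · intro hk
    have h0 := hpos k hk
    refine ⟨h0, ?_⟩
    have h1 : Finset.Icc 0 k ⊆ S := by
      intro j hj
      rw [Finset.mem_Icc] at hj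
      exact hdown k hk j hj.1 hj.2
    have h2 := Finset.card_le_card h1
    rw [Int.card_Icc] at h2
    omega
  · rintro ⟨h0, h1⟩
    by_contra hk
    have h2 : S ⊆ Finset.Ico 0 k := by
      intro j hj
      rw [Finset.mem_Ico]
      refine ⟨hpos j hj, ?_⟩
      by_contra h3
      exact hk (hdown j hj k h0 (by omega))
    have h3 := Finset.card_le_card h2
    rw [Int.card_Ico] at h3
    omega

/-- (G1) -/
theorem sectionStatement : SectionStatement := ⟨part1, part2⟩

end Pool.Agent.LatticeTube
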