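import Pool.Agent.LatticeTube.MonoSpec

/-! (M1) Two-strand polygons are traversed once up and once down. -/

set_option autoImplicit false

open Pool.Agent.LK Set

namespace Pool.Agent.LatticeTube

private lemma m1_adj {u v : P3} (h : Adj u v) :
    u.2.2 = v.2.2 ∨ (v.1 = u.1 ∧ v.2.1 = u.2.1 ∧ v.2.2 = u.2.2 + 1) ∨
      (v.1 = u.1 ∧ v.2.1 = u.2.1 ∧ u.2.2 = v.2.2 + 1) := by
  unfold Adj at h
  rcases abs_cases (u.1 - v.1) with ⟨h1, h1'⟩ | ⟨h1, h1'⟩ <;>
  rcases abs_cases (u.2.1 - v.2.1) with ⟨h2, h2'⟩ | ⟨h2, h2'⟩ <;>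
  rcases abs_cases (u.2.2 - v.2.2) with ⟨h3, h3'⟩ | ⟨h3, h3'⟩ <;>
  rw [h1, h2, h3] at h <;> omega

/-- discrete intermediate values, upwards -/
private lemma m1_up {l : ℕ → ℤ} {i j : ℕ} {k : ℤ} (hij : i ≤ j)
    (hs : ∀ m, i ≤ m → m < j → l (m + 1) ≤ l m + 1) (hi : l i ≤ k) (hj : k < l j) :
    ∃ m, i ≤ m ∧ m < j ∧ l m = k ∧ l (m + 1) = k + 1 := by
  induction j, hij using Nat.le_induction with
  | base => omega
  | succ j hij ih =>
    by_cases h1 : k < l j
    · obtain ⟨m, h2, h3, h4, h5⟩ := ih (fun m hm hm' => hs m hm (by omega)) h1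
      exact ⟨m, h2, by omega, h4, h5⟩
    · have := hs j hij (by omega)
      exact ⟨j, hij, by omega, by omega, by omega⟩

/-- discrete intermediate values, downwards -/
private lemma m1_down {l : ℕ → ℤ} {i j : ℕ} {k : ℤ} (hij : i ≤ j)
    (hs : ∀ m, i ≤ m → m < j → l m ≤ l (m + 1) + 1) (hi : k < l i) (hj : l j ≤ k) :
    ∃ m, i ≤ m ∧ m < j ∧ l m = k + 1 ∧ l (m + 1) = k := by
  induction j, hij using Nat.le_induction with
  | base => omega
  | succ j hij ih =>
    by_cases h1 : l j ≤ k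
    · obtain ⟨m, h2, h3, h4, h5⟩ := ih (fun m hm hm' => hs m hm (by omega)) h1
      exact ⟨m, h2, by omega, h4, h5⟩
    · have := hs j hij (by omega)
      exact ⟨j, hij, by omega, by omega, by omega⟩

/-- the column of a crossing belongs to the section -/
private lemma m1_cross {E : ES} (hE : IsPolygon E) {n : ℕ} {g : ℕ → P3} (hc : Cyc E n g) {i : ℕ}
    (hi : i < n) {k : ℤ} (h : ((g i).2.2 = k ∧ (g (i + 1)).2.2 = k + 1) ∨
      ((g i).2.2 = k + 1 ∧ (g (i + 1)).2.2 = k)) :
    s(g i, g (i + 1)) = s(((g i).1, (g i).2.1, k), ((g i).1, (g i).2.1, k + 1)) ∧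
      ((g i).1, (g i).2.1) ∈ sect E k := by
  have hadj := m1_adj (hE.adj _ _ (hc.mem_edge hi))
  have key : s(g i, g (i + 1)) = s(((g i).1, (g i).2.1, k), ((g i).1, (g i).2.1, k + 1)) := by
    rcases h with ⟨h1, h2⟩ | ⟨h1, h2⟩
    · have h3 : (g (i + 1)).1 = (g i).1 ∧ (g (i + 1)).2.1 = (g i).2.1 := by omega
      have e1 : g i = ((g i).1, (g i).2.1, k) := by
        ext <;> simp [h1]
      have e2 : g (i + 1) = ((g i).1, (g i).2.1, k + 1) := by
        ext <;> simp [h2, h3.1, h3.2]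
      rw [← e1, ← e2]
    · have h3 : (g (i + 1)).1 = (g i).1 ∧ (g (i + 1)).2.1 = (g i).2.1 := by omega
      have e1 : g i = ((g i).1, (g i).2.1, k + 1) := by
        ext <;> simp [h1]
      have e2 : g (i + 1) = ((g i).1, (g i).2.1, k) := by
        ext <;> simp [h2, h3.1, h3.2]
      rw [← e1, ← e2, Sym2.eq_swap]
  refine ⟨key, ?_⟩
  change s((((g i).1, (g i).2.1).1, ((g i).1, (g i).2.1).2, k),
    (((g i).1, (g i).2.1).1, ((g i).1, (g i).2.1).2, k + 1)) ∈ E
  change s(((g i).1, (g i).2.1, k), ((g i).1, (g i).2.1, k + 1)) ∈ E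
  rw [← key]
  exact hc.mem_edge hi

/-- there are no three crossings -/
private lemma m1_three {E : ES} (hE : IsPolygon E) (hm : Mono E) {n : ℕ} {g : ℕ → P3}
    (hc : Cyc E n g) {k : ℤ} {i₁ i₂ i₃ : ℕ} (h12 : i₁ < i₂) (h23 : i₂ < i₃) (h3 : i₃ < n)
    (c₁ : ((g i₁).2.2 = k ∧ (g (i₁ + 1)).2.2 = k + 1) ∨
      ((g i₁).2.2 = k + 1 ∧ (g (i₁ + 1)).2.2 = k))
    (c₂ : ((g i₂).2.2 = k ∧ (g (i₂ + 1)).2.2 = k + 1) ∨
      ((g i₂).2.2 = k + 1 ∧ (g (i₂ + 1)).2.2 = k))
    (c₃ : ((g i₃).2.2 = k ∧ (g (i₃ + 1)).2.2 = k + 1) ∨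
      ((g i₃).2.2 = k + 1 ∧ (g (i₃ + 1)).2.2 = k)) : False := by
  obtain ⟨e₁, s₁⟩ := m1_cross hE hc (by omega) c₁
  obtain ⟨e₂, s₂⟩ := m1_cross hE hc (by omega) c₂
  obtain ⟨e₃, s₃⟩ := m1_cross hE hc h3 c₃
  have hcard := hm.2 k ⟨_, s₁⟩
  obtain ⟨x, y, hxy, hS⟩ := Set.ncard_eq_two.1 hcard
  rw [hS] at s₁ s₂ s₃
  have hne : ∀ i j, i < n → j < n → i ≠ j →
      s(g i, g (i + 1)) = s(((g i).1, (g i).2.1, k), ((g i).1, (g i).2.1, k + 1)) →
      s(g j, g (j + 1)) = s(((g j).1, (g j).2.1, k), ((g j).1, (g j).2.1, k + 1)) →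
      ((g i).1, (g i).2.1) ≠ ((g j).1, (g j).2.1) := by
    intro i j hi hj hij h1 h2 h4
    apply hij
    apply hc.edge_inj hi hj
    rw [Prod.mk.injEq] at h4
    rw [h1, h2, h4.1, h4.2]
  have n12 := hne i₁ i₂ (by omega) (by omega) (by omega) e₁ e₂
  have n13 := hne i₁ i₃ (by omega) (by omega) (by omega) e₁ e₃
  have n23 := hne i₂ i₃ (by omega) (by omega) (by omega) e₂ e₃
  rw [Set.mem_insert_iff, Set.mem_singleton_iff] at s₁ s₂ s₃
  rcases s₁ with s₁ | s₁ <;> rcases s₂ with s₂ | s₂ <;> rcases s₃ with s₃ | s₃ <;>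
    first
    | exact n12 (s₁.trans s₂.symm)
    | exact n13 (s₁.trans s₃.symm)
    | exact n23 (s₂.trans s₃.symm)

/-- (M1) two-strand polygons are traversed once up and once down. -/
theorem monoCycStatement : MonoCycStatement := by
  classical
  intro E hE hm
  -- the lowest vertical edge
  set S : Set P3 := {u | s(u, (u.1, u.2.1, u.2.2 + 1)) ∈ E} with hS
  have hSfin : S.Finite := (verts_finite E).subset fun u hu => mem_verts_left hu
  have hSne : S.Nonempty := by
    obtain ⟨k, c, hck⟩ := hm.1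
    exact ⟨(c.1, c.2, k), hck⟩
  obtain ⟨u, huS, humin⟩ := Set.exists_min_image S (fun u => u.2.2) hSfin hSne
  set w : P3 := (u.1, u.2.1, u.2.2 + 1) with hw
  have huw : s(u, w) ∈ E := huS
  obtain ⟨q, huq, hqw⟩ := exists_other hE huw
  have hdown : ∀ x y : P3, s(x, y) ∈ E → x.2.2 = u.2.2 → y.2.2 + 1 = x.2.2 → False := by
    intro x y hxy h1 h2
    have h3 := m1_adj (hE.adj _ _ hxy)
    have h4 : y ∈ S := by
      change s(y, (y.1, y.2.1, y.2.2 + 1)) ∈ E
      have h5 : (y.1, y.2.1, y.2.2 + 1) = x := by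
        rcases h3 with h3 | h3 | h3
        · omega
        · omega
        · ext
          · exact h3.1
          · exact h3.2.1
          · exact h2
      rw [h5, Sym2.eq_swap]
      exact hxy
    have h5 := humin y h4
    omega
  have hq : q.2.2 = u.2.2 := by
    rcases m1_adj (hE.adj _ _ huq) with h1 | h1 | h1
    · exact h1.symm
    · exfalso
      apply hqw
      rw [hw]
      ext
      · exact h1.1
      · exact h1.2.1
      · exact h1.2.2
    · exact absurd h1.2.2.symm (fun h2 => hdown u q huq rfl h2)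
  obtain ⟨n, g, hc, hg0, hg1⟩ := exists_cyc hE huq
  have hn := hc.three
  have hgn : g (n - 1) = w := by
    have h1 : s(u, g (n - 1)) ∈ E := by
      have h2 := hc.mem_edge (i := n - 1) (by omega)
      rw [Nat.sub_add_cancel (by omega), hc.per, hg0, Sym2.eq_swap] at h2
      exact h2
    have h2 : g (n - 1) ≠ q := by
      rw [← hg1]
      intro h3
      have := hc.inj _ (by omega) _ (by omega) h3
      omega
    rcases nbr_eq' hE huq h1 h2.symm huw with h3 | h3
    · exact absurd h3.symm hqw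
    · exact h3.symm
  -- the levels
  set l : ℕ → ℤ := fun i => (g i).2.2 with hl
  have hstep : ∀ i < n, l i = l (i + 1) ∨ l (i + 1) = l i + 1 ∨ l i = l (i + 1) + 1 := by
    intro i hi
    rcases m1_adj (hE.adj _ _ (hc.mem_edge hi)) with h1 | h1 | h1
    · exact Or.inl h1
    · exact Or.inr (Or.inl h1.2.2)
    · exact Or.inr (Or.inr h1.2.2)
  have hl0 : l 0 = u.2.2 := by rw [hl]; simp only; rw [hg0]
  have hlow : ∀ i ≤ n, l 0 ≤ l i := by
    intro i
    induction i with
    | zero => intro _; exact le_rfl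
    | succ i ih =>
      intro hi
      have h1 := ih (by omega)
      by_contra h2
      have h3 := hstep i (by omega)
      exact hdown (g i) (g (i + 1)) (hc.mem_edge (by omega)) (by change l i = _; omega)
        (by change l (i + 1) + 1 = l i; omega)
  have hn1 : l (n - 1) = l 0 + 1 := by
    change (g (n - 1)).2.2 = _
    rw [hgn, hl0]
  have hnn : l n = l 0 := by
    change (g n).2.2 = (g 0).2.2
    rw [hc.per]
  have h10 : l 1 = l 0 := by
    rw [hl0]
    change (g 1).2.2 = _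
    rw [hg1, hq]
  -- no step down before a step up
  have key : ∀ i j, i < j → j < n → l i = l (i + 1) + 1 → l (j + 1) = l j + 1 → False := by
    intro i j hij hj h1 h2
    have hs1 : ∀ a b m, a ≤ m → m < b → b ≤ n → l (m + 1) ≤ l m + 1 := by
      intro a b m _ h4 h5
      rcases hstep m (by omega) with h | h | h <;> omega
    have hs2 : ∀ a b m, a ≤ m → m < b → b ≤ n → l m ≤ l (m + 1) + 1 := by
      intro a b m _ h4 h5
      rcases hstep m (by omega) with h | h | h <;> omega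
    have hlow1 := hlow (i + 1) (by omega)
    rcases lt_or_ge (l j) (l (i + 1)) with h3 | h3
    · -- three crossings of the section `l j`
      have hlowj := hlow j (by omega)
      obtain ⟨m₁, a1, a2, a3, a4⟩ := m1_up (l := l) (i := 0) (j := i) (k := l j) (by omega)
        (fun m h4 h5 => hs1 0 i m h4 h5 (by omega)) hlowj (by omega)
      obtain ⟨m₂, b1, b2, b3, b4⟩ := m1_down (l := l) (i := i + 1) (j := j) (k := l j) (by omega)
        (fun m h4 h5 => hs2 (i + 1) j m h4 h5 (by omega)) h3 le_rfl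
      exact m1_three hE hm hc (k := l j) (i₁ := m₁) (i₂ := m₂) (i₃ := j) (by omega) b2 hj
        (Or.inl ⟨a3, a4⟩) (Or.inr ⟨b3, b4⟩) (Or.inl ⟨rfl, h2⟩)
    · -- three crossings of the section `l (i + 1)`
      obtain ⟨m₁, a1, a2, a3, a4⟩ := m1_up (l := l) (i := 0) (j := i) (k := l (i + 1)) (by omega)
        (fun m h4 h5 => hs1 0 i m h4 h5 (by omega)) hlow1 (by omega)
      obtain ⟨m₂, b1, b2, b3, b4⟩ := m1_up (l := l) (i := i + 1) (j := j + 1) (k := l (i + 1))
        (by omega) (fun m h4 h5 => hs1 (i + 1) (j + 1) m h4 h5 (by omega)) le_rfl (by omega)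
      exact m1_three hE hm hc (k := l (i + 1)) (i₁ := m₁) (i₂ := i) (i₃ := m₂) a2 (by omega)
        (by omega) (Or.inl ⟨a3, a4⟩) (Or.inr ⟨h1, rfl⟩) (Or.inl ⟨b3, b4⟩)
  -- the first step down
  have hex : ∃ N, N < n ∧ l N = l (N + 1) + 1 := by
    refine ⟨n - 1, by omega, ?_⟩
    rw [Nat.sub_add_cancel (by omega), hnn, hn1]
  set N := Nat.find hex with hN
  obtain ⟨hNn, hNd⟩ := Nat.find_spec hex
  have hNmin : ∀ i < N, ¬ l i = l (i + 1) + 1 := by
    intro i hi h1
    exact Nat.find_min hex hi ⟨by omega, h1⟩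
  rw [← hN] at hNn hNd
  have hN0 : N ≠ 0 := by
    intro h1
    rw [h1] at hNd
    simp only [zero_add] at hNd
    omega
  have hN1 : N ≠ 1 := by
    intro h1
    rw [h1] at hNd hNn
    have := hlow 2 (by omega)
    have h2 : l (1 + 1) = l 2 := rfl
    omega
  refine ⟨n, N, g, hc, ⟨by omega, hNn, ?_, ?_, ?_, ?_, ?_, ?_⟩⟩
  · intro i hi
    have h1 := hNmin i hi
    rcases hstep i (by omega) with h2 | h2 | h2
    · exact h2.le
    · change l i ≤ l (i + 1)
      omega
    · exact absurd h2 h1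
  · intro i hi hin
    change l (i + 1) ≤ l i
    rcases Nat.eq_or_lt_of_le hi with h1 | h1
    · rw [← h1]
      omega
    · rcases hstep i hin with h2 | h2 | h2
      · omega
      · exact absurd h2 (fun h3 => key N i h1 hin hNd h3)
      · omega
  · exact h10
  · change l (N - 1) = l N
    have h1 := hNmin (N - 1) (by omega)
    rw [Nat.sub_add_cancel (by omega)] at h1
    have h2 := m1_adj (hE.adj _ _ (hc.mem_edge (i := N - 1) (by omega)))
    rw [Nat.sub_add_cancel (by omega)] at h2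
    rcases h2 with h2 | h2 | h2
    · exact h2
    · exfalso
      have h3 := m1_adj (hE.adj _ _ (hc.mem_edge hNn))
      have hNd' : (g N).2.2 = (g (N + 1)).2.2 + 1 := hNd
      have h4 : g (N + 1) = g (N - 1) := by
        rcases h3 with h3 | h3 | h3
        · omega
        · omega
        · ext
          · rw [h3.1, h2.1]
          · rw [h3.2.1, h2.2.1]
          · omega
      rcases Nat.lt_or_ge (N + 1) n with h5 | h5
      · have := hc.inj _ h5 _ (by omega) h4
        omega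
      · have h6 : N + 1 = n := by omega
        rw [h6, hc.per] at h4
        have := hc.inj _ (by omega) _ (by omega) h4
        omega
    · exact absurd h2.2.2 h1
  · change l (N + 1) + 1 = l N
    omega
  · exact hn1

end Pool.Agent.LatticeTube
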