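import Pool.Agent.LatticeTube.GapSpec

/-! (G2) the layer bound for the generating function of polygons in a tube. -/

set_option autoImplicit false

open Pool.Agent.LK

namespace Pool.Agent.LatticeTube

namespace G2

/-- The point of the column `c` at level `k`. -/
def pt (k : ℤ) (c : ℤ × ℤ) : P3 := (c.1, c.2, k)

theorem pt_inj (k : ℤ) : Function.Injective (pt k) := by
  intro c d h
  simp only [pt, Prod.mk.injEq] at h
  exact Prod.ext h.1 h.2.1

/-- The horizontal edges of `E` at level `k`. -/
def hor (B : Finset (ℤ × ℤ)) (E : ES) (k : ℤ) : Finset (Sym2 (ℤ × ℤ)) :=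
  B.sym2.filter fun e => Sym2.map (pt k) e ∈ E

theorem mem_hor (B : Finset (ℤ × ℤ)) (E : ES) (k : ℤ) (c d : ℤ × ℤ) :
    s(c, d) ∈ hor B E k ↔ (c ∈ B ∧ d ∈ B) ∧ s(pt k c, pt k d) ∈ E := by
  simp [hor, Finset.mem_filter]

theorem finite_nbr (E : ES) (u : P3) : {w | s(u, w) ∈ E}.Finite := by
  have : {w | s(u, w) ∈ E} = (fun w => s(u, w)) ⁻¹' (E : Set (Sym2 P3)) := rfl
  rw [this]
  refine Set.Finite.preimage ?_ E.finite_toSet
  intro a _ b _ h
  exact Sym2.congr_right.1 h

theorem deg_cases (E : ES) (hE : IsPolygon E) (u : P3) :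
    {w | s(u, w) ∈ E}.ncard = 0 ∨ {w | s(u, w) ∈ E}.ncard = 2 := by
  by_cases hu : u ∈ verts E
  · exact Or.inr (hE.deg u hu)
  · left
    have : {w | s(u, w) ∈ E} = ∅ := by
      ext w
      simp only [Set.mem_ofPred_eq, Set.mem_empty_iff_false, iff_false]
      intro hw
      exact hu ⟨w, hw⟩
    rw [this, Set.ncard_empty]

theorem hset_hor (B : Finset (ℤ × ℤ)) (E : ES) (hE : IsPolygon E) (k : ℤ) :
    HSet B (hor B E k) := by
  constructor
  · intro c d h
    rw [mem_hor] at h
    refine ⟨h.1.1, h.1.2, ?_⟩
    have := hE.adj _ _ h.2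
    simp only [Adj, pt] at this
    simpa [Adj2] using this
  · intro c
    have h1 : (pt k '' {d | s(c, d) ∈ hor B E k}).ncard ≤ {w | s(pt k c, w) ∈ E}.ncard := by
      apply Set.ncard_le_ncard _ (finite_nbr E _)
      rintro w ⟨d, hd, rfl⟩
      exact ((mem_hor B E k c d).1 hd).2
    rw [Set.ncard_image_of_injective _ (pt_inj k)] at h1
    rcases deg_cases E hE (pt k c) with h | h <;> omega

/-- Horizontal neighbours. -/
noncomputable def hdeg (E : ES) (k : ℤ) (c : ℤ × ℤ) : ℕ := {d | s(pt k c, pt k d) ∈ E}.ncard

open Classical in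
theorem deg_formula (E : ES) (hE : IsPolygon E) (k : ℤ) (c : ℤ × ℤ) :
    {w | s(pt k c, w) ∈ E}.ncard =
      hdeg E k c + (if c ∈ sect E k then 1 else 0) + (if c ∈ sect E (k - 1) then 1 else 0) := by
  have hset : {w | s(pt k c, w) ∈ E} =
      (pt k '' {d | s(pt k c, pt k d) ∈ E}) ∪
        ((if c ∈ sect E k then {pt (k + 1) c} else ∅) ∪
          (if c ∈ sect E (k - 1) then {pt (k - 1) c} else ∅)) := by
    ext w
    simp only [Set.mem_ofPred_eq, Set.mem_union, Set.mem_image]
    constructor
    · intro hw
      have hadj := hE.adj _ _ hw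
      obtain ⟨x, y, l⟩ := w
      simp only [Adj, pt] at hadj
      by_cases hl : l = k
      · subst hl
        exact Or.inl ⟨(x, y), hw, rfl⟩
      · right
        have h1 : |k - l| ≥ 1 := by
          rcases lt_or_gt_of_ne hl with h | h
          · rw [abs_of_pos (by omega)]; omega
          · rw [abs_of_neg (by omega)]; omega
        have h2 : |c.1 - x| = 0 := by
          have := abs_nonneg (c.1 - x); have := abs_nonneg (c.2 - y); omega
        have h3 : |c.2 - y| = 0 := by
          have := abs_nonneg (c.1 - x); have := abs_nonneg (c.2 - y); omega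
        have h4 : |k - l| = 1 := by omega
        rw [abs_eq_zero] at h2 h3
        have hx : x = c.1 := by omega
        have hy : y = c.2 := by omega
        subst hx hy
        rcases lt_or_gt_of_ne hl with h | h
        · rw [abs_of_pos (by omega)] at h4
          have hl' : l = k - 1 := by omega
          subst hl'
          right
          have : c ∈ sect E (k - 1) := by
            simp only [sect, Set.mem_ofPred_eq, sub_add_cancel]
            rw [Sym2.eq_swap]
            exact hw
          rw [if_pos this]
          rfl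
        · rw [abs_of_neg (by omega)] at h4
          have hl' : l = k + 1 := by omega
          subst hl'
          left
          have : c ∈ sect E k := hw
          rw [if_pos this]
          rfl
    · rintro (⟨d, hd, rfl⟩ | h | h)
      · exact hd
      · by_cases hc : c ∈ sect E k
        · rw [if_pos hc] at h
          rw [Set.mem_singleton_iff.1 h]
          exact hc
        · rw [if_neg hc] at h
          exact absurd h (Set.notMem_empty _)
      · by_cases hc : c ∈ sect E (k - 1)
        · rw [if_pos hc] at h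
          rw [Set.mem_singleton_iff.1 h]
          have hc' := hc
          simp only [sect, Set.mem_ofPred_eq, sub_add_cancel] at hc'
          rw [Sym2.eq_swap]
          exact hc'
        · rw [if_neg hc] at h
          exact absurd h (Set.notMem_empty _)
  rw [hset]
  have hf1 : (pt k '' {d | s(pt k c, pt k d) ∈ E}).Finite := by
    apply Set.Finite.subset (finite_nbr E (pt k c))
    rintro w ⟨d, hd, rfl⟩
    exact hd
  have hf2 : (if c ∈ sect E k then {pt (k + 1) c} else ∅ : Set P3).Finite := by
    split_ifs
    · exact Set.finite_singleton _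
    · exact Set.finite_empty
  have hf3 : (if c ∈ sect E (k - 1) then {pt (k - 1) c} else ∅ : Set P3).Finite := by
    split_ifs
    · exact Set.finite_singleton _
    · exact Set.finite_empty
  rw [Set.ncard_union_eq _ hf1 (hf2.union hf3), Set.ncard_union_eq _ hf2 hf3,
    Set.ncard_image_of_injective _ (pt_inj k), hdeg, add_assoc]
  · congr 2
    · split_ifs <;> simp
    · split_ifs <;> simp
  · rw [Set.disjoint_left]
    intro w h1 h2
    split_ifs at h1 with hc1
    · split_ifs at h2 with hc2
      · rw [Set.mem_singleton_iff] at h1 h2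
        rw [h1] at h2
        simp only [pt, Prod.mk.injEq] at h2
        omega
      · exact h2
    · exact h1
  · rw [Set.disjoint_left]
    rintro w ⟨d, _, rfl⟩ (h | h)
    · split_ifs at h
      · rw [Set.mem_singleton_iff] at h
        simp only [pt, Prod.mk.injEq] at h
        omega
      · exact h
    · split_ifs at h
      · rw [Set.mem_singleton_iff] at h
        simp only [pt, Prod.mk.injEq] at h
        omega
      · exact h

/-- Two polygons with the same horizontal degrees at level `k` and the same section below have the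
same section above. -/
theorem sect_step (E E' : ES) (hE : IsPolygon E) (hE' : IsPolygon E') (k : ℤ) (c : ℤ × ℤ)
    (hh : hdeg E k c = hdeg E' k c) (hs : c ∈ sect E (k - 1) ↔ c ∈ sect E' (k - 1)) :
    c ∈ sect E k ↔ c ∈ sect E' k := by
  classical
  have h1 := deg_formula E hE k c
  have h2 := deg_formula E' hE' k c
  have d1 := deg_cases E hE (pt k c)
  have d2 := deg_cases E' hE' (pt k c)
  by_cases a : c ∈ sect E (k - 1)
  · have a' := hs.1 a
    rw [if_pos a] at h1
    rw [if_pos a'] at h2
    by_cases b : c ∈ sect E k <;> by_cases b' : c ∈ sect E' k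
    · simp [b, b']
    · rw [if_pos b] at h1
      rw [if_neg b'] at h2
      omega
    · rw [if_neg b] at h1
      rw [if_pos b'] at h2
      omega
    · simp [b, b']
  · have a' : c ∉ sect E' (k - 1) := fun h => a (hs.2 h)
    rw [if_neg a] at h1
    rw [if_neg a'] at h2
    by_cases b : c ∈ sect E k <;> by_cases b' : c ∈ sect E' k
    · simp [b, b']
    · rw [if_pos b] at h1
      rw [if_neg b'] at h2
      omega
    · rw [if_neg b] at h1
      rw [if_pos b'] at h2
      omega
    · simp [b, b']

/-- A path crossing a level contains a crossing edge. -/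
theorem cross (E : ES) (m : ℤ) (u v : P3)
    (h : Relation.ReflTransGen (fun a b => s(a, b) ∈ E) u v) (hu : m ≤ u.2.2) (hv : v.2.2 < m) :
    ∃ a b, s(a, b) ∈ E ∧ m ≤ a.2.2 ∧ b.2.2 < m := by
  induction h with
  | refl => omega
  | @tail b c hab hbc ih =>
    by_cases hb : b.2.2 < m
    · exact ih hb
    · exact ⟨b, c, hbc, by omega, hv⟩

/-- Levels of the vertices are at most the span. -/
theorem level_le (h1 : SectionStatement) (E : ES) (hE : IsPolygon E) (hN : NormZ E) (u : P3)
    (hu : u ∈ verts E) : u.2.2 ≤ span E := by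
  by_contra hcon
  push Not at hcon
  obtain ⟨v, hv, hv0⟩ := hN.2
  obtain ⟨a, b, hab, ha, hb⟩ := cross E u.2.2 u v (hE.conn u hu v hv) le_rfl (by
    have : (0 : ℤ) ≤ span E := Int.natCast_nonneg _
    omega)
  have hadj := hE.adj _ _ hab
  obtain ⟨x, y, l⟩ := a
  obtain ⟨x', y', l'⟩ := b
  simp only [Adj] at hadj ha hb
  have e1 : |l - l'| = l - l' := abs_of_pos (by omega)
  have h2 : |x - x'| = 0 := by
    have := abs_nonneg (x - x'); have := abs_nonneg (y - y'); omega
  have h3 : |y - y'| = 0 := by
    have := abs_nonneg (x - x'); have := abs_nonneg (y - y'); omega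
  rw [h2, h3, e1] at hadj
  rw [abs_eq_zero] at h2 h3
  have hx : x' = x := by omega
  have hy : y' = y := by omega
  have hl : l = l' + 1 := by omega
  subst hx hy hl
  have hne : (sect E l').Nonempty := ⟨(x', y'), by
    simp only [sect, Set.mem_ofPred_eq]
    rw [Sym2.eq_swap]
    exact hab⟩
  have := ((h1.2 E hE hN l').1 hne).2
  omega

/-- The map to families of layers. -/
theorem determined (h1 : SectionStatement) (B : Finset (ℤ × ℤ)) (E E' : ES)
    (hE : IsPolygon E) (hE' : IsPolygon E') (hB : InTube B E) (hB' : InTube B E')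
    (hN : NormZ E) (hN' : NormZ E')
    (hs : span E = span E') (hh : ∀ k : ℕ, k ≤ span E → hor B E k = hor B E' k) : E ⊆ E' := by
  -- same horizontal edges at all levels
  have hlev : ∀ (E : ES), IsPolygon E → NormZ E → ∀ k : ℤ, ∀ c d, s(pt k c, pt k d) ∈ E →
      0 ≤ k ∧ k ≤ span E := by
    intro E hE hN k c d hcd
    have hu : pt k c ∈ verts E := ⟨_, hcd⟩
    exact ⟨hN.1 _ hu, level_le h1 E hE hN _ hu⟩
  have key : ∀ k : ℤ, ∀ c d, s(pt k c, pt k d) ∈ E ↔ s(pt k c, pt k d) ∈ E' := by
    intro k c d
    constructor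
    · intro h
      obtain ⟨hk0, hk1⟩ := hlev E hE hN k c d h
      obtain ⟨n, rfl⟩ := Int.eq_ofNat_of_zero_le hk0
      have hn : n ≤ span E := by exact_mod_cast hk1
      have hc : c ∈ B := hB (pt n c) ⟨_, h⟩
      have hd : d ∈ B := hB (pt n d) ⟨pt n c, by rw [Sym2.eq_swap]; exact h⟩
      have := (mem_hor B E n c d).2 ⟨⟨hc, hd⟩, h⟩
      rw [hh n hn] at this
      exact ((mem_hor B E' n c d).1 this).2
    · intro h
      obtain ⟨hk0, hk1⟩ := hlev E' hE' hN' k c d h
      obtain ⟨n, rfl⟩ := Int.eq_ofNat_of_zero_le hk0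
      have hn : n ≤ span E := by rw [hs]; exact_mod_cast hk1
      have hc : c ∈ B := hB' (pt n c) ⟨_, h⟩
      have hd : d ∈ B := hB' (pt n d) ⟨pt n c, by rw [Sym2.eq_swap]; exact h⟩
      have := (mem_hor B E' n c d).2 ⟨⟨hc, hd⟩, h⟩
      rw [← hh n hn] at this
      exact ((mem_hor B E n c d).1 this).2
  have hdegeq : ∀ k c, hdeg E k c = hdeg E' k c := by
    intro k c
    unfold hdeg
    congr 1
    ext d
    exact key k c d
  have hsec : ∀ n : ℕ, ∀ c, c ∈ sect E ((n : ℤ) - 1) ↔ c ∈ sect E' ((n : ℤ) - 1) := by
    intro n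
    induction n with
    | zero =>
      intro c
      have e1 : c ∉ sect E (((0 : ℕ) : ℤ) - 1) := by
        intro hc
        have := ((h1.2 E hE hN _).1 ⟨c, hc⟩).1
        norm_num at this
      have e2 : c ∉ sect E' (((0 : ℕ) : ℤ) - 1) := by
        intro hc
        have := ((h1.2 E' hE' hN' _).1 ⟨c, hc⟩).1
        norm_num at this
      simp only [e1, e2]
    | succ n ih =>
      intro c
      have := sect_step E E' hE hE' n c (hdegeq n c) (ih c)
      rw [show (((n + 1 : ℕ) : ℤ) - 1) = n by push_cast; ring]
      exact this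
  have hsec' : ∀ k : ℤ, ∀ c, c ∈ sect E k ↔ c ∈ sect E' k := by
    intro k c
    by_cases hk : 0 ≤ k
    · obtain ⟨n, rfl⟩ := Int.eq_ofNat_of_zero_le hk
      have := hsec (n + 1) c
      rw [show (((n + 1 : ℕ) : ℤ) - 1) = n by push_cast; ring] at this
      exact this
    · have e1 : c ∉ sect E k := by
        intro hc
        exact hk ((h1.2 E hE hN _).1 ⟨c, hc⟩).1
      have e2 : c ∉ sect E' k := by
        intro hc
        exact hk ((h1.2 E' hE' hN' _).1 ⟨c, hc⟩).1
      simp only [e1, e2]
  intro e he
  induction e using Sym2.ind with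
  | _ u w =>
    have hadj := hE.adj _ _ he
    obtain ⟨x, y, l⟩ := u
    obtain ⟨x', y', l'⟩ := w
    simp only [Adj] at hadj
    by_cases hl : l = l'
    · subst hl
      exact (key l (x, y) (x', y')).1 he
    · have g1 : |l - l'| ≥ 1 := by
        rcases lt_or_gt_of_ne hl with h | h
        · rw [abs_of_neg (by omega)]; omega
        · rw [abs_of_pos (by omega)]; omega
      have h2 : |x - x'| = 0 := by
        have := abs_nonneg (x - x'); have := abs_nonneg (y - y'); omega
      have h3 : |y - y'| = 0 := by
        have := abs_nonneg (x - x'); have := abs_nonneg (y - y'); omega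
      have h4 : |l - l'| = 1 := by omega
      rw [abs_eq_zero] at h2 h3
      have hx : x' = x := by omega
      have hy : y' = y := by omega
      subst hx hy
      rcases lt_or_gt_of_ne hl with h | h
      · rw [abs_of_neg (by omega)] at h4
        have hl' : l' = l + 1 := by omega
        subst hl'
        exact (hsec' l (x', y')).1 he
      · rw [abs_of_pos (by omega)] at h4
        have hl' : l = l' + 1 := by omega
        subst hl'
        rw [Sym2.eq_swap] at he ⊢
        exact (hsec' l' (x', y')).1 he

theorem card_hor_add_vert (B : Finset (ℤ × ℤ)) (E : ES) (h : ℕ) :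
    ∑ k ∈ Finset.range (h + 1), (hor B E k).card + vert E ≤ E.card := by
  classical
  set V : ES := E.filter fun e => ∃ x y k : ℤ, e = s((x, y, k), (x, y, k + 1)) with hV
  have hvert : vert E = V.card := by
    rw [vert, ← Set.ncard_coe_finset]
    congr 1
    ext e
    simp [hV]
  set H : ℕ → ES := fun k => (hor B E k).image (Sym2.map (pt k)) with hH
  have hHcard : ∀ k, (H k).card = (hor B E k).card := fun k =>
    Finset.card_image_of_injective _ (Sym2.map.injective (pt_inj k))
  have hHE : ∀ k, H k ⊆ E := by
    intro k e he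
    simp only [hH, Finset.mem_image] at he
    obtain ⟨e', he', rfl⟩ := he
    simp only [hor, Finset.mem_filter] at he'
    exact he'.2
  have hlev : ∀ k, ∀ e ∈ H k, ∀ u ∈ e, u.2.2 = (k : ℤ) := by
    intro k e he u hu
    simp only [hH, Finset.mem_image] at he
    obtain ⟨e', he', rfl⟩ := he
    rw [Sym2.mem_map] at hu
    obtain ⟨c, _, rfl⟩ := hu
    rfl
  have hdisj : (↑(Finset.range (h + 1)) : Set ℕ).PairwiseDisjoint H := by
    intro k _ l _ hkl
    rw [Function.onFun, Finset.disjoint_left]
    intro e he he'
    induction e using Sym2.ind with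
    | _ u w =>
      have a := hlev k _ he u (Sym2.mem_mk_left _ _)
      have b := hlev l _ he' u (Sym2.mem_mk_left _ _)
      apply hkl
      have : (k : ℤ) = l := by rw [← a, ← b]
      exact_mod_cast this
  have hdV : Disjoint ((Finset.range (h + 1)).biUnion H) V := by
    rw [Finset.disjoint_left]
    intro e he he'
    rw [Finset.mem_biUnion] at he
    obtain ⟨k, _, hk⟩ := he
    simp only [hV, Finset.mem_filter] at he'
    obtain ⟨_, x, y, l, rfl⟩ := he'
    have a := hlev k _ hk _ (Sym2.mem_mk_left _ _)
    have b := hlev k _ hk _ (Sym2.mem_mk_right _ _)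
    simp only at a b
    omega
  calc ∑ k ∈ Finset.range (h + 1), (hor B E k).card + vert E
      = (((Finset.range (h + 1)).biUnion H) ∪ V).card := by
        rw [Finset.card_union_of_disjoint hdV, Finset.card_biUnion hdisj, hvert]
        simp only [hHcard]
    _ ≤ E.card := by
        apply Finset.card_le_card
        apply Finset.union_subset
        · rw [Finset.biUnion_subset]
          exact fun k _ => hHE k
        · exact Finset.filter_subset _ _

theorem finite_hset (B : Finset (ℤ × ℤ)) : {H | HSet B H}.Finite := by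
  apply Set.Finite.subset (B.sym2.powerset.finite_toSet)
  intro H hH
  simp only [Finset.coe_powerset, Set.mem_preimage, Set.mem_powerset_iff, Finset.coe_subset]
  intro e he
  induction e using Sym2.ind with
  | _ c d =>
    rw [Finset.mk_mem_sym2_iff]
    exact ⟨(hH.1 c d he).1, (hH.1 c d he).2.1⟩

theorem sigma_eq {X : Type} (a b : ℕ) (f : Fin (a + 1) → X) (g : Fin (b + 1) → X)
    (h : (⟨a, f⟩ : Σ h : ℕ, (Fin (h + 1) → X)) = ⟨b, g⟩) :
    a = b ∧ ∀ (k : ℕ) (hk : k < a + 1) (hk' : k < b + 1), f ⟨k, hk⟩ = g ⟨k, hk'⟩ := by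
  cases h
  exact ⟨rfl, fun _ _ _ => rfl⟩

end G2

open G2

theorem layerStatement (h1 : SectionStatement) : LayerStatement := by
  classical
  intro B y z hy hz hz1 hlt
  have : Fintype {H // HSet B H} := (finite_hset B).fintype
  have hP : hPoly B z = ∑ H : {H // HSet B H}, z ^ H.1.card := by
    rw [hPoly, finsum_mem_eq_finite_toFinset_sum _ (finite_hset B)]
    exact Finset.sum_subtype _ (by simp) _
  have hP0 : 0 ≤ hPoly B z := by
    rw [hP]
    exact Finset.sum_nonneg fun _ _ => by positivity
  set g : (Σ h : ℕ, (Fin (h + 1) → {H // HSet B H})) → ℝ :=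
    fun p => (y * z ^ 4) ^ p.1 * ∏ i, z ^ (p.2 i).1.card with hg
  have hgnn : ∀ p, 0 ≤ g p := fun p => by
    simp only [hg]
    positivity
  have hgs : Summable g := by
    rw [summable_sigma_of_nonneg hgnn]
    constructor
    · intro h
      exact Summable.of_finite
    · have : (fun h : ℕ => ∑' F : Fin (h + 1) → {H // HSet B H}, g ⟨h, F⟩) =
          fun h => hPoly B z * (y * z ^ 4 * hPoly B z) ^ h := by
        funext h
        rw [tsum_fintype]
        simp only [hg]
        rw [← Finset.mul_sum, ← Fintype.sum_pow (fun H : {H // HSet B H} => z ^ H.1.card) (h + 1),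
          ← hP]
        ring
      rw [this]
      apply Summable.mul_left
      apply summable_geometric_of_lt_one _ hlt
      positivity
  set ι : Poly B → (Σ h : ℕ, (Fin (h + 1) → {H // HSet B H})) :=
    fun E => ⟨span E.1, fun i => ⟨hor B E.1 (i : ℕ), hset_hor B E.1 E.2.1 _⟩⟩ with hι
  have hinj : Function.Injective ι := by
    intro E E' h
    have hsub : ∀ E E' : Poly B, ι E = ι E' → E.1 ⊆ E'.1 := by
      intro E E' h
      obtain ⟨hs, hf⟩ := sigma_eq _ _ _ _ h
      apply determined h1 B E.1 E'.1 E.2.1 E'.2.1 E.2.2.1 E'.2.2.1 E.2.2.2 E'.2.2.2 hs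
      intro k hk
      have := hf k (by omega) (by omega)
      exact congrArg Subtype.val this
    apply Subtype.ext
    exact Finset.Subset.antisymm (hsub E E' h) (hsub E' E h.symm)
  refine Summable.of_nonneg_of_le (fun E => by positivity) (fun E => ?_) (hgs.comp_injective hinj)
  simp only [Function.comp, hg, hι]
  have e1 : ∏ i : Fin (span E.1 + 1), z ^ (hor B E.1 ((i : ℕ) : ℤ)).card =
      z ^ (∑ k ∈ Finset.range (span E.1 + 1), (hor B E.1 k).card) := by
    rw [Finset.prod_pow_eq_pow_sum, Finset.sum_range]
  rw [e1, mul_pow, ← pow_mul, ← pow_mul]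
  have e2 := card_hor_add_vert B E.1 (span E.1)
  have e3 := h1.1 E.1 E.2.1
  calc z ^ E.1.card * y ^ span E.1 * z ^ (2 * numTwo E.1)
      = y ^ span E.1 * z ^ (E.1.card + 2 * numTwo E.1) := by rw [pow_add]; ring
    _ ≤ y ^ span E.1 * z ^ (4 * span E.1 +
          ∑ k ∈ Finset.range (span E.1 + 1), (hor B E.1 k).card) := by
        apply mul_le_mul_of_nonneg_left _ (by positivity)
        apply pow_le_pow_of_le_one hz.le hz1
        omega
    _ = _ := by rw [pow_add]; ring

end Pool.Agent.LatticeTube
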