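import Pool.Agent.LatticeTube.GapSpec
import Pool.Agent.MP_aea6d5_co.PolyCyc

/-! (G3): polygons are non-reversing words; vertical steps have weight `x`. -/

set_option autoImplicit false

open Pool.Agent.LK

namespace Pool.Agent.LatticeTube

namespace G3

/-- unit steps: axis and sign -/
abbrev Step := Fin 3 × Bool

/-- the reversed step -/
def rev (s : Step) : Step := (s.1, !s.2)

/-- the vector of a step -/
def vec (s : Step) : P3 :=
  if s.1 = 0 then ((if s.2 then 1 else -1), 0, 0)
  else if s.1 = 1 then (0, (if s.2 then 1 else -1), 0)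
  else (0, 0, (if s.2 then 1 else -1))

theorem vec_rev (s : Step) : vec (rev s) = -vec s := by
  revert s
  decide

theorem exists_step {u v : P3} (h : Adj u v) : ∃ s : Step, v = u + vec s := by
  obtain ⟨u1, u2, u3⟩ := u
  obtain ⟨v1, v2, v3⟩ := v
  unfold Adj at h
  simp only at h
  have key : (v1 = u1 + 1 ∧ v2 = u2 ∧ v3 = u3) ∨ (v1 = u1 - 1 ∧ v2 = u2 ∧ v3 = u3) ∨
      (v1 = u1 ∧ v2 = u2 + 1 ∧ v3 = u3) ∨ (v1 = u1 ∧ v2 = u2 - 1 ∧ v3 = u3) ∨
      (v1 = u1 ∧ v2 = u2 ∧ v3 = u3 + 1) ∨ (v1 = u1 ∧ v2 = u2 ∧ v3 = u3 - 1) := by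
    rcases abs_cases (u1 - v1) with ⟨h1, h1'⟩ | ⟨h1, h1'⟩ <;>
    rcases abs_cases (u2 - v2) with ⟨h2, h2'⟩ | ⟨h2, h2'⟩ <;>
    rcases abs_cases (u3 - v3) with ⟨h3, h3'⟩ | ⟨h3, h3'⟩ <;>
    rw [h1, h2, h3] at h <;> omega
  rcases key with ⟨h1, h2, h3⟩ | ⟨h1, h2, h3⟩ | ⟨h1, h2, h3⟩ | ⟨h1, h2, h3⟩ | ⟨h1, h2, h3⟩ |
    ⟨h1, h2, h3⟩
  · refine ⟨(0, true), ?_⟩
    simp [vec, h1, h2, h3]
  · refine ⟨(0, false), ?_⟩
    simp [vec, h1, h2, h3, sub_eq_add_neg]
  · refine ⟨(1, true), ?_⟩
    simp [vec, h1, h2, h3]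
  · refine ⟨(1, false), ?_⟩
    simp [vec, h1, h2, h3, sub_eq_add_neg]
  · refine ⟨(2, true), ?_⟩
    simp [vec, h1, h2, h3]
  · refine ⟨(2, false), ?_⟩
    simp [vec, h1, h2, h3, sub_eq_add_neg]

/-- the non-reversing words of length `n + 1` with first step `a` -/
def Wd : ℕ → Step → Finset (List Step)
  | 0, a => {[a]}
  | n + 1, a => ((Finset.univ.filter (fun b => b ≠ rev a)).biUnion (Wd n)).image (List.cons a)

/-- the word of a sequence of steps -/
def wd (st : ℕ → Step) : ℕ → ℕ → List Step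
  | i, 0 => [st i]
  | i, n + 1 => st i :: wd st (i + 1) n

theorem wd_mem (st : ℕ → Step) (n : ℕ) : ∀ i : ℕ, (∀ j < n, st (i + j + 1) ≠ rev (st (i + j))) →
    wd st i n ∈ Wd n (st i) := by
  induction n with
  | zero => intro i _; simp [wd, Wd]
  | succ n ih =>
    intro i h
    have h1 := ih (i + 1) (fun j hj => by
      have := h (j + 1) (by omega)
      rwa [show i + (j + 1) + 1 = i + 1 + j + 1 by ring, show i + (j + 1) = i + 1 + j by ring]
        at this)
    rw [wd, Wd, Finset.mem_image]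
    refine ⟨wd st (i + 1) n, ?_, rfl⟩
    rw [Finset.mem_biUnion]
    exact ⟨st (i + 1), Finset.mem_filter.2 ⟨Finset.mem_univ _, h 0 (by omega)⟩, h1⟩

theorem wd_inj (st st' : ℕ → Step) (n : ℕ) : ∀ n' i i' : ℕ, wd st i n = wd st' i' n' →
    n = n' ∧ ∀ j ≤ n, st (i + j) = st' (i' + j) := by
  induction n with
  | zero =>
    intro n' i i' h
    cases n' with
    | zero =>
      simp only [wd, List.cons.injEq, and_true] at h
      refine ⟨rfl, fun j hj => ?_⟩
      have : j = 0 := by omega
      subst this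
      simpa using h
    | succ n' =>
      cases n' <;> simp [wd] at h
  | succ n ih =>
    intro n' i i' h
    cases n' with
    | zero => cases n <;> simp [wd] at h
    | succ n' =>
      simp only [wd, List.cons.injEq] at h
      obtain ⟨h1, h2⟩ := ih n' (i + 1) (i' + 1) h.2
      refine ⟨by omega, fun j hj => ?_⟩
      cases j with
      | zero => simpa using h.1
      | succ j =>
        have := h2 j (by omega)
        rwa [show i + 1 + j = i + (j + 1) by ring, show i' + 1 + j = i' + (j + 1) by ring] at this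

/-- the weight of a step -/
noncomputable def wt (x z : ℝ) (s : Step) : ℝ := z * (if s.1 = 2 then x else 1)

/-- the weight of a word -/
noncomputable def W (x z : ℝ) (w : List Step) : ℝ := (w.map (wt x z)).prod

theorem wt_pos {x z : ℝ} (hx : 1 ≤ x) (hz : 0 < z) (s : Step) : 0 < wt x z s := by
  unfold wt
  split_ifs
  · exact mul_pos hz (by linarith)
  · linarith

theorem W_nonneg {x z : ℝ} (hx : 1 ≤ x) (hz : 0 < z) (w : List Step) : 0 ≤ W x z w := by
  unfold W
  induction w with
  | nil => simp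
  | cons a w ih =>
    rw [List.map_cons, List.prod_cons]
    exact mul_nonneg (wt_pos hx hz a).le ih

theorem W_wd (x z : ℝ) (st : ℕ → Step) (n : ℕ) : ∀ i : ℕ, W x z (wd st i n) =
    ∏ j ∈ Finset.range (n + 1), wt x z (st (i + j)) := by
  induction n with
  | zero => intro i; simp [W, wd]
  | succ n ih =>
    intro i
    have h1 : W x z (wd st i (n + 1)) = wt x z (st i) * W x z (wd st (i + 1) n) := by
      simp [W, wd]
    have h2 : ∏ j ∈ Finset.range (n + 1), wt x z (st (i + 1 + j)) =
        ∏ j ∈ Finset.range (n + 1), wt x z (st (i + (j + 1))) :=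
      Finset.prod_congr rfl fun j _ => by rw [show i + 1 + j = i + (j + 1) by ring]
    rw [h1, ih, h2, Finset.prod_range_succ' _ (n + 1), add_zero, mul_comm]

theorem sum_biUnion_le {α β : Type*} [DecidableEq β] (s : Finset α) (t : α → Finset β)
    (f : β → ℝ) (hf : ∀ b, 0 ≤ f b) : ∑ b ∈ s.biUnion t, f b ≤ ∑ a ∈ s, ∑ b ∈ t a, f b := by
  classical
  induction s using Finset.induction_on with
  | empty => simp
  | insert a s ha ih =>
    rw [Finset.biUnion_insert, Finset.sum_insert ha]
    have h1 : ∑ b ∈ t a ∪ s.biUnion t, f b ≤ ∑ b ∈ t a, f b + ∑ b ∈ s.biUnion t, f b := by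
      have e1 : ∑ b ∈ t a ∪ s.biUnion t, f b + ∑ b ∈ t a ∩ s.biUnion t, f b =
          ∑ b ∈ t a, f b + ∑ b ∈ s.biUnion t, f b := Finset.sum_union_inter
      have e2 : 0 ≤ ∑ b ∈ t a ∩ s.biUnion t, f b := Finset.sum_nonneg fun b _ => hf b
      linarith
    linarith

/-- the potential of a step -/
noncomputable def ph (t : ℝ) (s : Step) : ℝ := if s.1 = 2 then 1 else t

theorem sum_Wd {x z t θ K : ℝ} (hx : 1 ≤ x) (hz : 0 < z) (hK : 0 ≤ K) (hθ : 0 ≤ θ)
    (h1 : x * z * (1 + 4 * t) ≤ θ) (h2 : z * (2 + 3 * t) ≤ θ * t) (h3 : x * z ≤ K)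
    (h4 : z ≤ K * t) (n : ℕ) : ∀ a : Step, ∑ w ∈ Wd n a, W x z w ≤ K * ph t a * θ ^ n := by
  induction n with
  | zero =>
    intro a
    rw [Wd, Finset.sum_singleton, pow_zero, mul_one]
    simp only [W, List.map_cons, List.map_nil, List.prod_cons, List.prod_nil, mul_one, wt, ph]
    split_ifs
    · linarith
    · linarith
  | succ n ih =>
    intro a
    rw [Wd, Finset.sum_image (fun w _ w' _ h => (List.cons.inj h).2)]
    have e1 : ∀ w : List Step, W x z (a :: w) = wt x z a * W x z w := by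
      intro w
      simp [W]
    simp only [e1]
    rw [← Finset.mul_sum]
    have e2 : ∑ w ∈ (Finset.univ.filter (fun b => b ≠ rev a)).biUnion (Wd n), W x z w ≤
        ∑ b ∈ Finset.univ.filter (fun b => b ≠ rev a), K * ph t b * θ ^ n :=
      (sum_biUnion_le _ _ _ (W_nonneg hx hz)).trans (Finset.sum_le_sum fun b _ => ih b)
    have e3 : ∑ b ∈ Finset.univ.filter (fun b => b ≠ rev a), K * ph t b * θ ^ n =
        K * θ ^ n * ∑ b ∈ Finset.univ.filter (fun b => b ≠ rev a), ph t b := by
      rw [Finset.mul_sum]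
      exact Finset.sum_congr rfl fun b _ => by ring
    have e4 : ∑ b ∈ Finset.univ.filter (fun b => b ≠ rev a), ph t b =
        if a.1 = 2 then 1 + 4 * t else 2 + 3 * t := by
      obtain ⟨a1, a2⟩ := a
      fin_cases a1 <;> cases a2 <;>
        simp [Finset.sum_filter, Fintype.sum_prod_type, Fin.sum_univ_three, ph, rev] <;> ring
    rw [e3, e4] at e2
    have e5 := mul_le_mul_of_nonneg_left e2 (wt_pos hx hz a).le
    refine e5.trans ?_
    have hKθ : 0 ≤ K * θ ^ n := by positivity
    rw [pow_succ]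
    unfold wt ph
    split_ifs
    · have := mul_le_mul_of_nonneg_left h1 hKθ
      nlinarith
    · have := mul_le_mul_of_nonneg_left h2 hKθ
      nlinarith

/-- the constants -/
theorem exists_consts {x z : ℝ} (hx : 1 ≤ x) (hz : 0 < z)
    (h : (x + 3) * z + 5 * x * z ^ 2 < 1) : ∃ t θ K : ℝ, 0 < t ∧ 0 ≤ θ ∧ θ < 1 ∧ 0 ≤ K ∧
      x * z * (1 + 4 * t) ≤ θ ∧ z * (2 + 3 * t) ≤ θ * t ∧ x * z ≤ K ∧ z ≤ K * t := by
  have hxz : 0 < x * z := mul_pos (by linarith) hz
  have h3 : 0 < 1 - 3 * z := by nlinarith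
  have h4 : 0 < 1 - x * z := by nlinarith
  -- `2 z / (1 - 3 z) < t < (1 - x z) / (4 x z)`
  have hlt : 2 * z / (1 - 3 * z) < (1 - x * z) / (4 * (x * z)) := by
    rw [div_lt_div_iff₀ h3 (by linarith)]
    nlinarith
  obtain ⟨t, ht1, ht2⟩ := exists_between hlt
  have ht0 : 0 < t := lt_of_le_of_lt (by positivity) ht1
  rw [div_lt_iff₀ h3] at ht1
  rw [lt_div_iff₀ (by linarith)] at ht2
  have e1 : x * z * (1 + 4 * t) < 1 := by nlinarith
  have e2 : z * (2 + 3 * t) / t < 1 := by
    rw [div_lt_one ht0]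
    nlinarith
  refine ⟨t, max (x * z * (1 + 4 * t)) (z * (2 + 3 * t) / t), x * z + z / t, ht0, ?_,
    max_lt e1 e2, by positivity, le_max_left _ _, ?_, ?_, ?_⟩
  · exact le_max_of_le_left (by positivity)
  · have := le_max_right (x * z * (1 + 4 * t)) (z * (2 + 3 * t) / t)
    rwa [div_le_iff₀ ht0] at this
  · have : 0 ≤ z / t := by positivity
    linarith
  · have e3 : (x * z + z / t) * t = x * z * t + z := by
      field_simp
    rw [e3]
    have : 0 ≤ x * z * t := by positivity
    linarith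

theorem vec_axis (s : Step) : s.1 = 2 ↔ (vec s).1 = 0 ∧ (vec s).2.1 = 0 := by
  revert s
  decide

theorem vec_two {s : Step} (h : s.1 = 2) : vec s = (0, 0, 1) ∨ vec s = (0, 0, -1) := by
  revert s
  decide

theorem edge_vert {u : P3} {s : Step} :
    (∃ x y k : ℤ, s(u, u + vec s) = s((x, y, k), (x, y, k + 1))) ↔ s.1 = 2 := by
  obtain ⟨u1, u2, u3⟩ := u
  constructor
  · rintro ⟨x, y, k, h⟩
    rw [vec_axis]
    rcases Sym2.eq_iff.1 h with ⟨h1, h2⟩ | ⟨h1, h2⟩
    · simp only [Prod.ext_iff, Prod.fst_add, Prod.snd_add] at h1 h2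
      omega
    · simp only [Prod.ext_iff, Prod.fst_add, Prod.snd_add] at h1 h2
      omega
  · intro h
    rcases vec_two h with h1 | h1
    · refine ⟨u1, u2, u3, ?_⟩
      rw [h1]
      simp
    · refine ⟨u1, u2, u3 - 1, ?_⟩
      rw [h1, Sym2.eq_swap]
      simp [sub_eq_add_neg]

end G3

open G3

theorem wordStatement : WordStatement := by
  classical
  intro B x z hx hz h
  obtain ⟨t, θ, K, ht, hθ0, hθ1, hK, h1, h2, h3, h4⟩ := exists_consts hx hz h
  -- the data of a polygon
  have hdata : ∀ E : Poly B, ∃ (m : ℕ) (c : ℤ × ℤ) (st : ℕ → Step) (g : ℕ → P3), c ∈ B ∧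
      g 0 = (c.1, c.2, 0) ∧ Cyc E.1 (m + 1) g ∧ (∀ i < m + 1, g (i + 1) = g i + vec (st i)) ∧
      ∀ j < m, st (j + 1) ≠ rev (st j) := by
    rintro ⟨E, hE, hB, -, u, hu, hu0⟩
    obtain ⟨v, huv⟩ := id hu
    obtain ⟨n, g, hc, hg0, -⟩ := exists_cyc hE huv
    have hn := hc.three
    have hex : ∀ i, ∃ s : Step, i < n → g (i + 1) = g i + vec s := by
      intro i
      by_cases hi : i < n
      · obtain ⟨s, hs⟩ := exists_step (hE.adj _ _ (hc.mem_edge hi))
        exact ⟨s, fun _ => hs⟩
      · exact ⟨(0, true), fun h => absurd h hi⟩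
    choose st hst using hex
    refine ⟨n - 1, (u.1, u.2.1), st, g, hB u hu, ?_, ?_, ?_, ?_⟩
    · rw [hg0]
      refine Prod.ext rfl (Prod.ext rfl ?_)
      exact hu0
    · rwa [Nat.sub_add_cancel (by omega)]
    · intro i hi
      exact hst i (by omega)
    · intro j hj hcon
      have e1 := hst j (by omega)
      have e2 := hst (j + 1) (by omega)
      rw [hcon, vec_rev, e1, add_neg_cancel_right] at e2
      rcases Nat.lt_or_ge (j + 1 + 1) n with hlt | hge
      · have := hc.inj _ hlt _ (by omega) e2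
        omega
      · have e3 : j + 1 + 1 = n := by omega
        rw [e3, hc.per] at e2
        have := hc.inj 0 (by omega) j (by omega) e2
        omega
  choose m c st g hcB hg0 hcyc hst hnr using hdata
  set code : Poly B → (ℤ × ℤ) × List Step := fun E => (c E, wd (st E) 0 (m E)) with hcode
  have hinj : Function.Injective code := by
    intro E F hEF
    have e1 : c E = c F := congrArg Prod.fst hEF
    obtain ⟨e2, e3⟩ := wd_inj _ _ _ _ _ _ (congrArg Prod.snd hEF)
    have e4 : ∀ i ≤ m E + 1, g E i = g F i := by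
      intro i
      induction i with
      | zero => intro _; rw [hg0, hg0, e1]
      | succ i ih =>
        intro hi
        rw [hst E i (by omega), hst F i (by omega), ih (by omega)]
        have := e3 i (by omega)
        rw [zero_add] at this
        rw [this]
    apply Subtype.ext
    rw [(hcyc E).eq_image, (hcyc F).eq_image, e2]
    apply Finset.image_congr
    intro i hi
    have hi' : i < m F + 1 := by simpa using hi
    simp only
    rw [e4 i (by omega), e4 (i + 1) (by omega)]
  have hweight : ∀ E : Poly B, z ^ E.1.card * x ^ vert E.1 = W x z (code E).2 := by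
    intro E
    have e1 : vert E.1 =
        ((Finset.range (m E + 1)).filter fun i => (st E i).1 = 2).card := by
      have e2 : {e : Sym2 P3 | e ∈ E.1 ∧ ∃ x y k : ℤ, e = s((x, y, k), (x, y, k + 1))} =
          ((((Finset.range (m E + 1)).filter fun i => (st E i).1 = 2).image
            fun i => s(g E i, g E (i + 1)) : Finset (Sym2 P3)) : Set (Sym2 P3)) := by
        ext e
        rw [Finset.coe_image, Set.mem_image, Set.mem_ofPred_eq]
        constructor
        · rintro ⟨he, x', y', k', he'⟩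
          rw [(hcyc E).eq_image, Finset.mem_image] at he
          obtain ⟨i, hi, rfl⟩ := he
          refine ⟨i, ?_, rfl⟩
          rw [Finset.mem_coe, Finset.mem_filter]
          refine ⟨hi, ?_⟩
          rw [hst E i (Finset.mem_range.1 hi)] at he'
          exact edge_vert.1 ⟨x', y', k', he'⟩
        · rintro ⟨i, hi, rfl⟩
          rw [Finset.mem_coe, Finset.mem_filter] at hi
          refine ⟨(hcyc E).mem_edge (Finset.mem_range.1 hi.1), ?_⟩
          rw [hst E i (Finset.mem_range.1 hi.1)]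
          exact edge_vert.2 hi.2
      rw [vert, e2, Set.ncard_coe_finset, Finset.card_image_of_injOn]
      intro i hi j hj hij
      rw [Finset.mem_coe, Finset.mem_filter] at hi hj
      exact (hcyc E).edge_inj (Finset.mem_range.1 hi.1) (Finset.mem_range.1 hj.1) hij
    rw [e1, (hcyc E).card_eq, hcode]
    simp only
    rw [W_wd]
    simp only [zero_add, wt]
    rw [Finset.prod_mul_distrib, Finset.prod_const, Finset.card_range, Finset.prod_ite,
      Finset.prod_const, Finset.prod_const_one, mul_one]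
  -- the bound
  set Φ : ℝ := ∑ a : Step, ph t a with hΦ
  have hph : ∀ a : Step, 0 ≤ ph t a := by
    intro a
    unfold ph
    split_ifs
    · norm_num
    · exact ht.le
  refine summable_of_sum_le (c := (B.card : ℝ) * (K * Φ * (1 - θ)⁻¹)) ?_ ?_
  · intro E
    change 0 ≤ z ^ E.1.card * x ^ vert E.1
    have : 0 ≤ x := by linarith
    positivity
  · intro s
    have hs : ∑ E ∈ s, z ^ E.1.card * x ^ vert E.1 = ∑ p ∈ s.image code, W x z p.2 := by
      rw [Finset.sum_image (fun E _ F _ h => hinj h)]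
      exact Finset.sum_congr rfl fun E _ => hweight E
    rw [hs]
    set N := s.sup m + 1 with hN
    set T : Finset (List Step) :=
      (Finset.range N).biUnion fun n => Finset.univ.biUnion fun a : Step => Wd n a with hT
    have hsub : s.image code ⊆ B ×ˢ T := by
      intro p hp
      obtain ⟨E, hE, rfl⟩ := Finset.mem_image.1 hp
      rw [Finset.mem_product]
      refine ⟨hcB E, ?_⟩
      rw [hT, Finset.mem_biUnion]
      refine ⟨m E, Finset.mem_range.2 (Nat.lt_succ_of_le (Finset.le_sup hE)), ?_⟩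
      rw [Finset.mem_biUnion]
      refine ⟨st E 0, Finset.mem_univ _, wd_mem _ _ 0 fun j hj => ?_⟩
      rw [zero_add]
      exact hnr E j hj
    have hT1 : ∑ w ∈ T, W x z w ≤ K * Φ * (1 - θ)⁻¹ := by
      calc ∑ w ∈ T, W x z w
          ≤ ∑ n ∈ Finset.range N, ∑ w ∈ Finset.univ.biUnion fun a : Step => Wd n a, W x z w :=
            sum_biUnion_le _ _ _ (W_nonneg hx hz)
        _ ≤ ∑ n ∈ Finset.range N, K * Φ * θ ^ n := by
            refine Finset.sum_le_sum fun n _ => ?_
            refine (sum_biUnion_le _ _ _ (W_nonneg hx hz)).trans ?_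
            refine (Finset.sum_le_sum fun a _ => sum_Wd hx hz hK hθ0 h1 h2 h3 h4 n a).trans ?_
            rw [← Finset.sum_mul, ← Finset.mul_sum]
        _ = K * Φ * ∑ n ∈ Finset.range N, θ ^ n := (Finset.mul_sum _ _ _).symm
        _ ≤ K * Φ * (1 - θ)⁻¹ := by
            have hΦ0 : 0 ≤ Φ := Finset.sum_nonneg fun a _ => hph a
            refine mul_le_mul_of_nonneg_left ?_ (by positivity)
            rw [← tsum_geometric_of_lt_one hθ0 hθ1]
            exact Summable.sum_le_tsum _ (fun i _ => by positivity)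
              (summable_geometric_of_lt_one hθ0 hθ1)
    calc ∑ p ∈ s.image code, W x z p.2
        ≤ ∑ p ∈ B ×ˢ T, W x z p.2 :=
          Finset.sum_le_sum_of_subset_of_nonneg hsub fun p _ _ => W_nonneg hx hz _
      _ = (B.card : ℝ) * ∑ w ∈ T, W x z w := by
          rw [Finset.sum_product]
          simp
      _ ≤ (B.card : ℝ) * (K * Φ * (1 - θ)⁻¹) :=
          mul_le_mul_of_nonneg_left hT1 (Nat.cast_nonneg _)

end Pool.Agent.LatticeTube
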