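import Pool.Agent.LatticeTube.GapSpec

/-! (G4) the gap under tension. -/

set_option autoImplicit false

open Pool.Agent.LK

namespace Pool.Agent.LatticeTube

private lemma g4_root {y : ℝ} (hy : 58 ≤ y) : ∃ x : ℝ, 2.7596 ≤ x ∧ x ^ 4 = y := by
  have hy0 : 0 ≤ y := by linarith
  refine ⟨Real.sqrt (Real.sqrt y), ?_, ?_⟩
  · apply Real.le_sqrt_of_sq_le
    apply Real.le_sqrt_of_sq_le
    norm_num
    linarith
  · have h1 : Real.sqrt (Real.sqrt y) ^ 2 = Real.sqrt y := Real.sq_sqrt (Real.sqrt_nonneg _)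
    have h2 : Real.sqrt y ^ 2 = y := Real.sq_sqrt hy0
    calc Real.sqrt (Real.sqrt y) ^ 4 = (Real.sqrt (Real.sqrt y) ^ 2) ^ 2 := by ring
      _ = y := by rw [h1, h2]

private lemma g4_ineq {x : ℝ} (hx : 2.7596 ≤ x) : x ^ 2 + 3 * x + 5 < x ^ 3 := by
  have h0 : 0 ≤ x - 2.7596 := by linarith
  nlinarith [mul_nonneg h0 h0, mul_nonneg (mul_nonneg h0 h0) h0]

private lemma g4_fug {x : ℝ} (hx : 2.7596 ≤ x) : ∃ z : ℝ, (x ^ 2)⁻¹ < z ∧
    (x + 3) * z + 5 * x * z ^ 2 < 1 := by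
  have hx0 : 0 < x := by linarith
  have h1 : (x + 3) * (x ^ 2)⁻¹ + 5 * x * (x ^ 2)⁻¹ ^ 2 < 1 := by
    have h2 : (x + 3) * (x ^ 2)⁻¹ + 5 * x * (x ^ 2)⁻¹ ^ 2 = (x ^ 2 + 3 * x + 5) / x ^ 3 := by
      field_simp
    rw [h2, div_lt_one (by positivity)]
    exact g4_ineq hx
  have hc : Continuous fun z : ℝ => (x + 3) * z + 5 * x * z ^ 2 := by fun_prop
  have h3 : ∀ᶠ z in nhds (x ^ 2)⁻¹, (x + 3) * z + 5 * x * z ^ 2 < 1 :=
    hc.continuousAt.eventually_lt continuousAt_const h1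
  obtain ⟨ε, hε, h4⟩ := Metric.eventually_nhds_iff.1 h3
  refine ⟨(x ^ 2)⁻¹ + ε / 2, by linarith, h4 ?_⟩
  rw [Real.dist_eq, add_sub_cancel_left, abs_of_pos (by linarith)]
  linarith

theorem tensionStatement (h1 : SectionStatement) (h3 : WordStatement) (h4 : VRectStatement) :
    TensionStatement := by
  intro B a b hab hab' y hy
  obtain ⟨x, hx, rfl⟩ := g4_root hy
  have hx0 : 0 < x := by linarith
  have hx1 : 1 ≤ x := by linarith
  obtain ⟨z, hz', hz⟩ := g4_fug hx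
  have hz0 : 0 < (x ^ 2)⁻¹ := by positivity
  refine ⟨(x ^ 2)⁻¹, z, (x ^ 2)⁻¹, hz0, hz', hz0, ?_, ?_⟩
  · have hzp : 0 < z := hz0.trans hz'
    refine Summable.of_nonneg_of_le (fun E => by positivity) (fun E => ?_) (h3 B x z hx1 hzp hz)
    rw [mul_assoc]
    refine mul_le_mul_of_nonneg_left ?_ (by positivity)
    have h5 := h1.1 E.1 E.2.1
    have h6 : x ^ (4 * span E.1) ≤ x ^ (vert E.1 + 2 * numTwo E.1) :=
      pow_le_pow_right₀ hx1 h5
    rw [← pow_mul, inv_pow, ← pow_mul]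
    rw [pow_add] at h6
    rw [← div_eq_mul_inv, div_le_iff₀ (by positivity)]
    exact h6
  · intro hs
    have hr : ∀ h : ℕ, IsPolygon (vrect a b (h + 1)) ∧ Unknotted (vrect a b (h + 1)) ∧
        InTube B (vrect a b (h + 1)) ∧ NormZ (vrect a b (h + 1)) := by
      intro h
      obtain ⟨g1, g2, g3, -, -, g6⟩ := h4 a b (h + 1) (by omega)
      refine ⟨g1, g2, fun u hu => ?_, g3⟩
      rcases g6 u hu with g | g
      · rw [g]
        exact hab
      · rw [g]
        exact hab'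
    let f : ℕ → UPoly B := fun h => ⟨vrect a b (h + 1), hr h⟩
    have hf : Function.Injective f := by
      intro h h' hh
      have g1 := (h4 a b (h + 1) (by omega)).2.2.2.1
      have g2 := (h4 a b (h' + 1) (by omega)).2.2.2.1
      have g3 : vrect a b (h + 1) = vrect a b (h' + 1) := congrArg Subtype.val hh
      rw [g3, g2] at g1
      omega
    have h5 := hs.comp_injective hf
    have h6 : ((fun E : UPoly B => (x ^ 2)⁻¹ ^ E.1.card * (x ^ 4) ^ span E.1) ∘ f) =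
        fun _ => (x ^ 4)⁻¹ := by
      funext h
      have g1 := (h4 a b (h + 1) (by omega)).2.2.2.1
      have g2 := (h4 a b (h + 1) (by omega)).2.2.2.2.1
      show (x ^ 2)⁻¹ ^ (vrect a b (h + 1)).card * (x ^ 4) ^ span (vrect a b (h + 1)) = (x ^ 4)⁻¹
      rw [g1, g2, inv_pow, ← pow_mul, ← pow_mul]
      have g3 : x ^ (2 * (2 * (h + 1) + 2)) = x ^ (4 * (h + 1)) * x ^ 4 := by
        rw [← pow_add]
        congr 1
        ring
      rw [g3]
      field_simp
    rw [h6] at h5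
    have h7 := (summable_const_iff _).1 h5
    have h8 : 0 < (x ^ 4)⁻¹ := by positivity
    linarith

end Pool.Agent.LatticeTube
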