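import Pool.Agent.LatticeTube.GapSpec
import Pool.Agent.MP_aea6d5_co.Main
import Pool.Agent.MP_aea6d5_co.RRect

/-! (G4a) Vertical rectangles are unknotted polygons. -/

set_option autoImplicit false

open Pool.Agent.LK

namespace Pool.Agent.LatticeTube

/-- the edges of a vertical rectangle -/
private theorem ga_mem (a b : ℤ) (h : ℕ) (u1 u2 u3 v1 v2 v3 : ℤ) :
    s(((u1, u2, u3) : P3), ((v1, v2, v3) : P3)) ∈ vrect a b h ↔
      u2 = b ∧ v2 = b ∧
        ((u3 = v3 ∧ (u3 = 0 ∨ u3 = h) ∧ ((u1 = a ∧ v1 = a + 1) ∨ (u1 = a + 1 ∧ v1 = a))) ∨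
          (u1 = v1 ∧ (u1 = a ∨ u1 = a + 1) ∧
            ((v3 = u3 + 1 ∧ 0 ≤ u3 ∧ u3 < h) ∨ (u3 = v3 + 1 ∧ 0 ≤ v3 ∧ v3 < h)))) := by
  unfold vrect
  simp only [Finset.mem_union, Finset.mem_insert, Finset.mem_singleton, Finset.mem_image,
    Finset.mem_range, Sym2.eq_iff, Prod.mk.injEq]
  constructor
  · rintro (((h1 | h1) | ⟨k, hk, h1⟩) | ⟨k, hk, h1⟩) <;> omega
  · rintro ⟨rfl, rfl, ⟨rfl, h1, h2⟩ | ⟨rfl, h1, h2⟩⟩
    · rcases h1 with rfl | rfl
      · exact Or.inl (Or.inl (Or.inl (by omega)))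
      · exact Or.inl (Or.inl (Or.inr (by omega)))
    · rcases h1 with rfl | rfl
      · refine Or.inl (Or.inr ?_)
        rcases h2 with ⟨rfl, h3, h4⟩ | ⟨rfl, h3, h4⟩
        · exact ⟨u3.toNat, by omega, by omega⟩
        · exact ⟨v3.toNat, by omega, by omega⟩
      · refine Or.inr ?_
        rcases h2 with ⟨rfl, h3, h4⟩ | ⟨rfl, h3, h4⟩
        · exact ⟨u3.toNat, by omega, by omega⟩
        · exact ⟨v3.toNat, by omega, by omega⟩

private theorem ga_szE {E : Finset (Sym2 P3)} {u v : P3} :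
    s(u, v) ∈ mapE sz E ↔ s(sz u, sz v) ∈ E := by
  have := mem_mapE sz_inj (E := E) (u := sz u) (v := sz v)
  rwa [sz_sz, sz_sz] at this

private theorem ga_eq (a b : ℤ) (h : ℕ) (hh : 1 ≤ h) :
    vrect a b h = shift (a + 1, b, 0) (mapE sz (rect 1 h)) := by
  apply edge_ext
  rintro ⟨u1, u2, u3⟩ ⟨v1, v2, v3⟩
  rw [ga_mem, mem_shift, ga_szE]
  change _ ↔ s(((u1 - (a + 1), u3 - 0, u2 - b) : P3), ((v1 - (a + 1), v3 - 0, v2 - b) : P3)) ∈ _
  rw [dat_rect 1 h]
  push_cast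
  constructor
  · intro h1
    omega
  · intro h1
    omega

/-- the vertices of a vertical rectangle -/
private theorem ga_verts (a b : ℤ) (h : ℕ) (u1 u2 u3 : ℤ)
    (hu : ((u1, u2, u3) : P3) ∈ verts (vrect a b h)) :
    u2 = b ∧ (u1 = a ∨ u1 = a + 1) ∧ 0 ≤ u3 ∧ u3 ≤ h := by
  obtain ⟨⟨v1, v2, v3⟩, hv⟩ := hu
  rw [ga_mem] at hv
  omega

private theorem ga_card (a b : ℤ) (h : ℕ) (hh : 1 ≤ h) : (vrect a b h).card = 2 * h + 2 := by
  unfold vrect
  rw [Finset.card_union_of_disjoint, Finset.card_union_of_disjoint, Finset.card_image_of_injective,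
    Finset.card_image_of_injective, Finset.card_range, Finset.card_pair]
  · ring
  · intro h1
    simp only [Sym2.eq_iff, Prod.mk.injEq] at h1
    omega
  · intro k l h1
    simp only [Sym2.eq_iff, Prod.mk.injEq] at h1
    omega
  · intro k l h1
    simp only [Sym2.eq_iff, Prod.mk.injEq] at h1
    omega
  · rw [Finset.disjoint_left]
    intro e h1 h2
    rw [Finset.mem_image] at h2
    obtain ⟨k, -, rfl⟩ := h2
    simp only [Finset.mem_insert, Finset.mem_singleton, Sym2.eq_iff, Prod.mk.injEq] at h1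
    omega
  · rw [Finset.disjoint_left]
    intro e h1 h2
    rw [Finset.mem_image] at h2
    obtain ⟨k, -, rfl⟩ := h2
    simp only [Finset.mem_union, Finset.mem_image, Finset.mem_insert, Finset.mem_singleton,
      Sym2.eq_iff, Prod.mk.injEq] at h1
    rcases h1 with h1 | ⟨l, -, h1⟩ <;> omega

theorem vrectStatement : VRectStatement := by
  intro a b h hh
  have h0 := rectStatement _ unknotClosedZ 1 h le_rfl hh
  have h1 := unknotClosedZ.trans (a + 1, b, 0) _ (unknotClosedZ.swapYZ _ h0)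
  have h2 : IsPolygon (vrect a b h) ∧ Unknotted (vrect a b h) := by
    rw [ga_eq a b h hh]
    exact h1
  refine ⟨h2.1, h2.2, ⟨?_, ?_⟩, ga_card a b h hh, ?_, ?_⟩
  · rintro ⟨u1, u2, u3⟩ hu
    exact (ga_verts a b h u1 u2 u3 hu).2.2.1
  · refine ⟨(a, b, 0), ⟨(a + 1, b, 0), ?_⟩, rfl⟩
    rw [ga_mem]
    omega
  · have h3 : {k : ℤ | (sect (vrect a b h) k).Nonempty} = Set.Ico 0 (h : ℤ) := by
      ext k
      rw [Set.mem_setOf_eq, Set.mem_Ico]
      constructor
      · rintro ⟨⟨c, d⟩, hc⟩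
        have hc' : s(((c, d, k) : P3), ((c, d, k + 1) : P3)) ∈ vrect a b h := hc
        rw [ga_mem] at hc'
        omega
      · intro hk
        refine ⟨(a, b), ?_⟩
        show s(((a, b, k) : P3), ((a, b, k + 1) : P3)) ∈ vrect a b h
        rw [ga_mem]
        omega
    unfold span
    rw [h3, Set.ncard_eq_toFinset_card', Set.toFinset_Ico, Int.card_Ico]
    simp
  · rintro ⟨u1, u2, u3⟩ hu
    obtain ⟨h3, h4, -⟩ := ga_verts a b h u1 u2 u3 hu
    subst h3
    rcases h4 with rfl | rfl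
    · exact Or.inl rfl
    · exact Or.inr rfl

end Pool.Agent.LatticeTube
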