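import Pool.Agent.LatticeTube.MonoSpec

/-! (G7): the gap without tension for the three small tubes. -/

set_option autoImplicit false

open Pool.Agent.LK Set

namespace Pool.Agent.LatticeTube

/-- a certificate for a connected cross section gives the gap property -/
theorem gap_of_certificate (h2 : LayerStatement) (hm : MonoStatement) (h5 : TransferStatement)
    {B : Finset (ℤ × ℤ)} (hconn : ∀ a ∈ B, ∀ b ∈ B, ∃ p, PathIn B a b p) (c : Certificate B) :
    Gap B 1 := by
  obtain ⟨z', z, hz', hlt, hz1, hcert, v, hv, hv1, hv2⟩ := c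
  have hz : 0 < z := hz'.trans hlt
  refine ⟨z', z, z ^ 2, hz', hlt, by positivity, ?_, ?_⟩
  · exact h2 B 1 z one_pos hz hz1 (by rwa [one_mul])
  · intro hs
    refine h5 B 1 z' v one_pos hz' hv hv1 (fun a ha b hb hab => ?_) hconn ?_
    · rw [one_mul]
      exact hv2 a ha b hb hab
    · let f : {E : ES // IsPolygon E ∧ Mono E ∧ InTube B E ∧ NormZ E} → UPoly B :=
        fun E => ⟨E.1, E.2.1, hm E.1 E.2.1 E.2.2.1, E.2.2.2.1, E.2.2.2.2⟩
      have hf : Function.Injective f := by
        intro E F hEF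
        apply Subtype.ext
        exact congrArg (fun G : UPoly B => G.1) hEF
      have h6 := hs.comp_injective hf
      refine h6.congr fun E => ?_
      rfl

/-- the columns from `u` to `u'` -/
def run (u u' : ℤ) : List ℤ :=
  if u ≤ u' then (List.range (u' - u + 1).toNat).map (fun i : ℕ => u + i)
  else (List.range (u - u' + 1).toNat).map (fun i : ℕ => u - i)

/-- a path with one corner -/
def lpath (a b : ℤ × ℤ) : List (ℤ × ℤ) :=
  (run a.1 b.1).map (fun x => (x, a.2)) ++ ((run a.2 b.2).tail).map (fun y => (b.1, y))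

instance (c d : ℤ × ℤ) : Decidable (Adj2 c d) :=
  inferInstanceAs (Decidable (|c.1 - d.1| + |c.2 - d.2| = 1))

instance (B : Finset (ℤ × ℤ)) (a a' : ℤ × ℤ) (p : List (ℤ × ℤ)) : Decidable (PathIn B a a' p) :=
  inferInstanceAs (Decidable (p.head? = some a ∧ p.getLast? = some a' ∧ p.Nodup ∧
    p.IsChain Adj2 ∧ ∀ c ∈ p, c ∈ B))

theorem conn32 : ∀ a ∈ rectB 3 2, ∀ b ∈ rectB 3 2, PathIn (rectB 3 2) a b (lpath a b) := by
  decide +kernel

theorem conn42 : ∀ a ∈ rectB 4 2, ∀ b ∈ rectB 4 2, PathIn (rectB 4 2) a b (lpath a b) := by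
  decide +kernel

theorem conn33 : ∀ a ∈ rectB 3 3, ∀ b ∈ rectB 3 3, PathIn (rectB 3 3) a b (lpath a b) := by
  decide +kernel

theorem smallStatement (h2 : LayerStatement) (hm : MonoStatement) (h5 : TransferStatement)
    (c32 : Certificate (rectB 3 2)) (c42 : Certificate (rectB 4 2))
    (c33 : Certificate (rectB 3 3)) : SmallStatement :=
  ⟨gap_of_certificate h2 hm h5 (fun a ha b hb => ⟨_, conn32 a ha b hb⟩) c32,
    gap_of_certificate h2 hm h5 (fun a ha b hb => ⟨_, conn42 a ha b hb⟩) c42,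
    gap_of_certificate h2 hm h5 (fun a ha b hb => ⟨_, conn33 a ha b hb⟩) c33⟩

end Pool.Agent.LatticeTube
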