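import Pool.Agent.LatticeTube.G1
import Pool.Agent.LatticeTube.G2
import Pool.Agent.LatticeTube.G3
import Pool.Agent.LatticeTube.G4
import Pool.Agent.LatticeTube.G4a
import Pool.Agent.LatticeTube.G7
import Pool.Agent.LatticeTube.M2
import Pool.Agent.LatticeTube.M3
import Pool.Agent.LatticeTube.M4
import Pool.Agent.LatticeTube.Transfer

/-! The gap property: assembly. -/

set_option autoImplicit false

open Pool.Agent.LK Set

namespace Pool.Agent.LatticeTube

/-- The gap under tension, for every tube. -/
theorem tension : TensionStatement := tensionStatement sectionStatement wordStatement vrectStatement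

/-- Polygons that are traversed once up and once down are unknotted. -/
theorem unknotted_of_ud (E : ES) (hE : IsPolygon E) (h : UD E) : Unknotted E := by
  obtain ⟨n, N, g, hc, hu⟩ := h
  obtain ⟨t0, t1, T, a, b, hs, Θ, hΘ⟩ := liftStatement E n N g hE hc hu
  obtain ⟨Φ, hΦ⟩ := straightenStatement t0 t1 T a b hs
  obtain ⟨Ψ, hΨ⟩ := quadStatement t0 t1 T hs.pos hs.lt hs.lt'
  refine ⟨(Θ.trans Φ).trans Ψ, ?_⟩
  rw [← hΨ, ← hΦ, ← hΘ, image_image, image_image]
  rfl

/-- A certificate for a connected cross section gives the gap property without tension. -/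
theorem gap_of_cert {B : Finset (ℤ × ℤ)} (hconn : ∀ a ∈ B, ∀ b ∈ B, ∃ p, PathIn B a b p)
    (c : Certificate B) : Gap B 1 := by
  obtain ⟨z', z, hz', hlt, hz1, hcert, v, hv, hv1, hv2⟩ := c
  have hz : 0 < z := hz'.trans hlt
  refine ⟨z', z, z ^ 2, hz', hlt, by positivity, ?_, ?_⟩
  · exact layerStatement sectionStatement B 1 z one_pos hz hz1 (by rwa [one_mul])
  · intro hs
    refine transferUD B 1 z' v one_pos hz' hv hv1 (fun a ha b hb hab => ?_) hconn ?_
    · rw [one_mul]
      exact hv2 a ha b hb hab
    · let f : {E : ES // IsPolygon E ∧ UD E ∧ InTube B E ∧ NormZ E} → UPoly B :=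
        fun E => ⟨E.1, E.2.1, unknotted_of_ud E.1 E.2.1 E.2.2.1, E.2.2.2.1, E.2.2.2.2⟩
      have hf : Function.Injective f := by
        intro E F hEF
        apply Subtype.ext
        exact congrArg (fun G : UPoly B => G.1) hEF
      exact (hs.comp_injective hf).congr fun E => rfl

theorem small_of (c32 : Certificate (rectB 3 2)) (c42 : Certificate (rectB 4 2))
    (c33 : Certificate (rectB 3 3)) : SmallStatement :=
  ⟨gap_of_cert (fun a ha b hb => ⟨_, conn32 a ha b hb⟩) c32,
    gap_of_cert (fun a ha b hb => ⟨_, conn42 a ha b hb⟩) c42,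
    gap_of_cert (fun a ha b hb => ⟨_, conn33 a ha b hb⟩) c33⟩

end Pool.Agent.LatticeTube
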