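import Pool.Agent.LatticeTube.MonoSpec

/-! Closed walks given as lists; polygons from closed self-avoiding walks. -/

set_option autoImplicit false

open Pool.Agent.LK Set

namespace Pool.Agent.LatticeTube

/-- The edges of a walk. -/
def pedges : List P3 → Finset (Sym2 P3)
  | [] => ∅
  | [_] => ∅
  | a :: b :: l => insert s(a, b) (pedges (b :: l))

theorem mem_pedges (l : List P3) (e : Sym2 P3) :
    e ∈ pedges l ↔ ∃ i, i + 1 < l.length ∧ e = s(l.getD i 0, l.getD (i + 1) 0) := by
  induction l with
  | nil => simp [pedges]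
  | cons a l ih =>
    cases l with
    | nil => simp [pedges]
    | cons b l =>
      rw [pedges, Finset.mem_insert, ih]
      constructor
      · rintro (rfl | ⟨i, hi, rfl⟩)
        · exact ⟨0, by simp, by simp⟩
        · exact ⟨i + 1, by simp only [List.length_cons] at hi ⊢; omega, by simp⟩
      · rintro ⟨i, hi, rfl⟩
        rcases i with _ | i
        · left; simp
        · right
          exact ⟨i, by simp only [List.length_cons] at hi ⊢; omega, by simp⟩

theorem pedges_append_left (l l' : List P3) : pedges l ⊆ pedges (l ++ l') := by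
  intro e he
  rw [mem_pedges] at he ⊢
  obtain ⟨i, hi, rfl⟩ := he
  refine ⟨i, by rw [List.length_append]; omega, ?_⟩
  rw [List.getD_append _ _ _ _ (by omega), List.getD_append _ _ _ _ (by omega)]

theorem mem_pedges_append (l l' : List P3) (a b : P3) :
    s(a, b) ∈ pedges (l ++ [a] ++ (b :: l')) := by
  rw [mem_pedges]
  refine ⟨l.length, by simp, ?_⟩
  rw [List.getD_append _ _ _ _ (by simp), List.getD_append_right _ _ _ _ (by simp),
    List.getD_append_right _ _ _ _ (by simp)]
  simp

theorem mem_of_mem_pedges {l : List P3} {u v : P3} (h : s(u, v) ∈ pedges l) : u ∈ l ∧ v ∈ l := by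
  rw [mem_pedges] at h
  obtain ⟨i, hi, he⟩ := h
  have h1 : l.getD i 0 ∈ l := by
    rw [List.getD_eq_getElem _ _ (by omega)]; exact List.getElem_mem _
  have h2 : l.getD (i + 1) 0 ∈ l := by
    rw [List.getD_eq_getElem _ _ hi]; exact List.getElem_mem _
  rcases Sym2.eq_iff.1 he with ⟨rfl, rfl⟩ | ⟨rfl, rfl⟩
  · exact ⟨h1, h2⟩
  · exact ⟨h2, h1⟩

/-- A closed walk as a cyclic enumeration. -/
theorem cyc_of (c : List P3) (n : ℕ) (hn : c.length = n + 1) (h3 : 3 ≤ n)
    (hper : c.getD n 0 = c.getD 0 0) (hnd : c.dropLast.Nodup) :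
    Cyc (pedges c) n (fun i => c.getD i 0) where
  three := h3
  per := hper
  inj := by
    intro i hi j hj hij
    have hi' : i < c.dropLast.length := by rw [List.length_dropLast]; omega
    have hj' : j < c.dropLast.length := by rw [List.length_dropLast]; omega
    rw [List.getD_eq_getElem _ _ (by omega), List.getD_eq_getElem _ _ (by omega)] at hij
    have e : c.dropLast[i] = c.dropLast[j] := by
      rw [List.getElem_dropLast, List.getElem_dropLast]; exact hij
    exact (List.Nodup.getElem_inj_iff hnd).1 e
  edge := by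
    intro u v
    rw [mem_pedges]
    constructor
    · rintro ⟨i, hi, h⟩
      exact ⟨i, by omega, h⟩
    · rintro ⟨i, hi, h⟩
      exact ⟨i, by omega, h⟩

/-- A cyclic enumeration with lattice steps is a polygon. -/
theorem isPolygon_of_cyc {E : Finset (Sym2 P3)} {n : ℕ} {g : ℕ → P3} (hc : Cyc E n g)
    (hadj : ∀ i < n, Adj (g i) (g (i + 1))) : IsPolygon E := by
  have h3 := hc.three
  have hmem : ∀ i < n, s(g i, g (i + 1)) ∈ E := fun i hi => (hc.edge _ _).2 ⟨i, hi, rfl⟩
  refine ⟨⟨_, hmem 0 (by omega)⟩, ?_, ?_, ?_⟩
  · intro u v huv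
    obtain ⟨i, hi, he⟩ := (hc.edge u v).1 huv
    rcases Sym2.eq_iff.1 he with ⟨rfl, rfl⟩ | ⟨rfl, rfl⟩
    · exact hadj i hi
    · exact (hadj i hi).symm
  · intro u hu
    rw [hc.verts_eq] at hu
    obtain ⟨i, hi, rfl⟩ := hu
    have hi : i < n := hi
    -- the previous index
    obtain ⟨p, hp, hpi⟩ : ∃ p < n, (p + 1 = i ∨ (p + 1 = n ∧ i = 0)) := by
      rcases Nat.eq_zero_or_pos i with h | h
      · exact ⟨n - 1, by omega, Or.inr ⟨by omega, h⟩⟩
      · exact ⟨i - 1, by omega, Or.inl (by omega)⟩
    have hgp : g (p + 1) = g i := by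
      rcases hpi with h | ⟨h, h'⟩
      · rw [h]
      · rw [h, h', hc.per]
    have hne : g (i + 1) ≠ g p := by
      intro hh
      rcases Nat.lt_or_ge (i + 1) n with h | h
      · have := hc.inj _ h _ hp hh
        omega
      · have h' : i + 1 = n := by omega
        rw [h', hc.per] at hh
        have := hc.inj _ (by omega) _ hp hh
        omega
    have hset : {w | s(g i, w) ∈ E} = {g (i + 1), g p} := by
      ext w
      simp only [mem_ofPred_eq, mem_insert_iff, mem_singleton_iff]
      constructor
      · intro hw
        obtain ⟨j, hj, he⟩ := (hc.edge _ _).1 hw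
        rcases Sym2.eq_iff.1 he with ⟨h1, rfl⟩ | ⟨h1, rfl⟩
        · left
          rw [hc.inj _ hi _ hj h1]
        · right
          congr 1
          rcases Nat.lt_or_ge (j + 1) n with h | h
          · have h2 := hc.inj _ hi _ h h1
            rcases hpi with h' | ⟨h', h''⟩ <;> omega
          · have h' : j + 1 = n := by omega
            rw [h', hc.per] at h1
            have h2 := hc.inj _ hi _ (by omega) h1
            rcases hpi with h' | ⟨h', h''⟩ <;> omega
      · rintro (rfl | rfl)
        · exact hmem i hi
        · rw [← hgp, Sym2.eq_swap]; exact hmem p hp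
    rw [hset, Set.ncard_pair hne]
  · have hstep : ∀ i ≤ n, Relation.ReflTransGen (fun a b => s(a, b) ∈ E) (g 0) (g i) := by
      intro i
      induction i with
      | zero => intro _; exact Relation.ReflTransGen.refl
      | succ i ih => intro hi; exact (ih (by omega)).tail (hmem i (by omega))
    have hback : ∀ i ≤ n, Relation.ReflTransGen (fun a b => s(a, b) ∈ E) (g i) (g 0) := by
      intro i
      induction i with
      | zero => intro _; exact Relation.ReflTransGen.refl
      | succ i ih =>
        intro hi
        exact (ih (by omega)).head (by rw [Sym2.eq_swap]; exact hmem i (by omega))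
    intro u hu v hv
    rw [hc.verts_eq] at hu hv
    obtain ⟨i, hi, rfl⟩ := hu
    obtain ⟨j, hj, rfl⟩ := hv
    exact (hback i (le_of_lt hi)).trans (hstep j (le_of_lt hj))

/-- Two cyclic enumerations with the same first step agree. -/
theorem cyc_unique {E : Finset (Sym2 P3)} {n n' : ℕ} {g g' : ℕ → P3} (hc : Cyc E n g)
    (hc' : Cyc E n' g') (h0 : g 0 = g' 0) (h1 : g 1 = g' 1) : n = n' ∧ ∀ i ≤ n, g i = g' i := by
  have hn : n = n' := by rw [← hc.card_eq, ← hc'.card_eq]
  subst hn
  have h3 := hc.three
  refine ⟨rfl, ?_⟩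
  have key : ∀ i, i + 1 ≤ n → g i = g' i ∧ g (i + 1) = g' (i + 1) := by
    intro i
    induction i with
    | zero => intro _; exact ⟨h0, h1⟩
    | succ i ih =>
      intro hi
      obtain ⟨ha, hb⟩ := ih (by omega)
      refine ⟨hb, ?_⟩
      have he : s(g (i + 1), g (i + 1 + 1)) ∈ E := (hc.edge _ _).2 ⟨i + 1, by omega, rfl⟩
      obtain ⟨j, hj, hs⟩ := (hc'.edge _ _).1 he
      rcases Sym2.eq_iff.1 hs with ⟨e1, e2⟩ | ⟨e1, e2⟩
      · rw [hb] at e1
        have := hc'.inj _ (by omega) _ hj e1
        subst this
        exact e2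
      · exfalso
        rw [hb] at e1
        rcases Nat.lt_or_ge (j + 1) n with h | h
        · have h2 := hc'.inj _ (by omega) _ h e1
          have h2 : i = j := by omega
          subst h2
          rw [← ha] at e2
          rcases Nat.lt_or_ge (i + 1 + 1) n with h4 | h4
          · have := hc.inj _ h4 _ (by omega) e2
            omega
          · have h5 : i + 1 + 1 = n := by omega
            rw [h5, hc.per] at e2
            have := hc.inj _ (by omega) _ (by omega) e2
            omega
        · have h5 : j + 1 = n := by omega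
          rw [h5, hc'.per] at e1
          have := hc'.inj _ (by omega) _ (by omega) e1
          omega
  intro i hi
  rcases Nat.eq_zero_or_pos i with h | h
  · subst h; exact h0
  · have := (key (i - 1) (by omega)).2
    rwa [Nat.sub_add_cancel h] at this

end Pool.Agent.LatticeTube
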