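import Pool.Agent.LatticeTube.WordsGap

/-! Moderate tension: the certificates for the tubes that contain 3 x 2 columns. -/

set_option autoImplicit false

open Pool.Agent.LK

namespace Pool.Agent.LatticeTube.G6

/-- vector 0 -/
def U32_0 : List (List ℕ) :=
  [[0, 8, 11, 15, 14, 15],
   [8, 0, 15, 11, 15, 14],
   [11, 15, 0, 14, 11, 15],
   [15, 11, 14, 0, 15, 11],
   [14, 15, 11, 15, 0, 8],
   [15, 14, 15, 11, 8, 0]]

theorem stepW32_0 : StepW 3 2 (tb A32) 1420 1421 10000 5 29 2360 (mt U32_0) where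
  pos := by decide
  lt := by decide
  dpos := by decide
  one := by decide
  words := by norm_num
  check := by decide +kernel

/-- vector 1 -/
def U32_1 : List (List ℕ) :=
  [[0, 4, 6, 8, 7, 8],
   [4, 0, 8, 6, 8, 7],
   [6, 8, 0, 8, 6, 8],
   [8, 6, 8, 0, 8, 6],
   [7, 8, 6, 8, 0, 4],
   [8, 7, 8, 6, 4, 0]]

theorem stepW32_1 : StepW 3 2 (tb A32) 1386 1387 10000 5 31 2483 (mt U32_1) where
  pos := by decide
  lt := by decide
  dpos := by decide
  one := by decide
  words := by norm_num
  check := by decide +kernel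

/-- vector 2 -/
def U32_2 : List (List ℕ) :=
  [[0, 1, 1, 2, 2, 2],
   [1, 0, 2, 1, 2, 2],
   [1, 2, 0, 2, 1, 2],
   [2, 1, 2, 0, 2, 1],
   [2, 2, 1, 2, 0, 1],
   [2, 2, 2, 1, 1, 0]]

theorem stepW32_2 : StepW 3 2 (tb A32) 1318 1319 10000 5 38 2760 (mt U32_2) where
  pos := by decide
  lt := by decide
  dpos := by decide
  one := by decide
  words := by norm_num
  check := by decide +kernel

/-- The gap for the tubes that contain 3 x 2 columns and every tension `y ≥ 29`. -/
theorem gapW32 {B : Finset (ℤ × ℤ)} (hB : rectB 3 2 ⊆ B) {y : ℝ} (hy : 29 ≤ y) : Gap B y := by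
  have hc : ∀ a ∈ rectB 3 2, ∀ b ∈ rectB 3 2, ∃ p, PathIn (rectB 3 2) a b p :=
    fun a ha b hb => ⟨_, conn32 a ha b hb⟩
  rcases lt_or_ge y 31 with h0 | h0
  · exact gap_of_stepW table32 hc (by decide) stepW32_0 hB (by linarith) (by norm_num; linarith)
      (by norm_num; linarith)
  rcases lt_or_ge y 38 with h1 | h1
  · exact gap_of_stepW table32 hc (by decide) stepW32_1 hB (by linarith) (by norm_num; linarith)
      (by norm_num; linarith)
  rcases lt_or_ge y 58 with h2 | h2
  · exact gap_of_stepW table32 hc (by decide) stepW32_2 hB (by linarith) (by norm_num; linarith)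
      (by norm_num; linarith)
  · exact tension B 0 0 (hB (by decide)) (hB (by decide)) y h2

end Pool.Agent.LatticeTube.G6
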