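import Pool.Agent.LatticeTube.WordsGap

/-! Moderate tension: the certificates for the tubes that contain 3 x 3 columns. -/

set_option autoImplicit false

open Pool.Agent.LK

namespace Pool.Agent.LatticeTube.G6

/-- vector 0 -/
def U33_0 : List (List ℕ) :=
  [[0, 9, 11, 9, 17, 16, 11, 16, 14],
   [9, 0, 9, 17, 17, 17, 16, 20, 16],
   [11, 9, 0, 16, 17, 9, 14, 16, 11],
   [9, 17, 16, 0, 17, 20, 9, 17, 16],
   [17, 17, 17, 17, 0, 17, 17, 17, 17],
   [16, 17, 9, 20, 17, 0, 16, 17, 9],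
   [11, 16, 14, 9, 17, 16, 0, 9, 11],
   [16, 20, 16, 17, 17, 17, 9, 0, 9],
   [14, 16, 11, 16, 17, 9, 11, 9, 0]]

theorem stepW33_0 : StepW 3 3 (tb A33) 1455 1456 10000 8 23 2237 (mt U33_0) where
  pos := by decide
  lt := by decide
  dpos := by decide
  one := by decide
  words := by norm_num
  check := by decide +kernel

/-- vector 1 -/
def U33_1 : List (List ℕ) :=
  [[0, 14, 17, 14, 25, 25, 17, 25, 21],
   [14, 0, 14, 26, 25, 26, 25, 30, 25],
   [17, 14, 0, 25, 25, 14, 21, 25, 17],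
   [14, 26, 25, 0, 25, 30, 14, 26, 25],
   [25, 25, 25, 25, 0, 25, 25, 25, 25],
   [25, 26, 14, 30, 25, 0, 25, 26, 14],
   [17, 25, 21, 14, 25, 25, 0, 14, 17],
   [25, 30, 25, 26, 25, 26, 14, 0, 14],
   [21, 25, 17, 25, 25, 14, 17, 14, 0]]

theorem stepW33_1 : StepW 3 3 (tb A33) 1409 1410 10000 8 25 2397 (mt U33_1) where
  pos := by decide
  lt := by decide
  dpos := by decide
  one := by decide
  words := by norm_num
  check := by decide +kernel

/-- vector 2 -/
def U33_2 : List (List ℕ) :=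
  [[0, 1, 1, 1, 2, 2, 1, 2, 1],
   [1, 0, 1, 2, 2, 2, 2, 2, 2],
   [1, 1, 0, 2, 2, 1, 1, 2, 1],
   [1, 2, 2, 0, 2, 2, 1, 2, 2],
   [2, 2, 2, 2, 0, 2, 2, 2, 2],
   [2, 2, 1, 2, 2, 0, 2, 2, 1],
   [1, 2, 1, 1, 2, 2, 0, 1, 1],
   [2, 2, 2, 2, 2, 2, 1, 0, 1],
   [1, 2, 1, 2, 2, 1, 1, 1, 0]]

theorem stepW33_2 : StepW 3 3 (tb A33) 1318 1319 10000 8 33 2760 (mt U33_2) where
  pos := by decide
  lt := by decide
  dpos := by decide
  one := by decide
  words := by norm_num
  check := by decide +kernel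

/-- The gap for the tubes that contain 3 x 3 columns and every tension `y ≥ 23`. -/
theorem gapW33 {B : Finset (ℤ × ℤ)} (hB : rectB 3 3 ⊆ B) {y : ℝ} (hy : 23 ≤ y) : Gap B y := by
  have hc : ∀ a ∈ rectB 3 3, ∀ b ∈ rectB 3 3, ∃ p, PathIn (rectB 3 3) a b p :=
    fun a ha b hb => ⟨_, conn33 a ha b hb⟩
  rcases lt_or_ge y 25 with h0 | h0
  · exact gap_of_stepW table33 hc (by decide) stepW33_0 hB (by linarith) (by norm_num; linarith)
      (by norm_num; linarith)
  rcases lt_or_ge y 33 with h1 | h1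
  · exact gap_of_stepW table33 hc (by decide) stepW33_1 hB (by linarith) (by norm_num; linarith)
      (by norm_num; linarith)
  rcases lt_or_ge y 58 with h2 | h2
  · exact gap_of_stepW table33 hc (by decide) stepW33_2 hB (by linarith) (by norm_num; linarith)
      (by norm_num; linarith)
  · exact tension B 0 0 (hB (by decide)) (hB (by decide)) y h2

end Pool.Agent.LatticeTube.G6
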