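import Pool.Agent.LatticeTube.Grid

/-! Small tubes with tension: the certificates for the tube with 3 x 2 columns. -/

set_option autoImplicit false

open Pool.Agent.LK

namespace Pool.Agent.LatticeTube.G6

/-- vector 0 -/
def W32_0 : List (List ℕ) :=
  [[0, 1, 1, 2, 2, 2],
   [1, 0, 2, 1, 2, 2],
   [1, 2, 0, 2, 1, 2],
   [2, 1, 2, 0, 2, 1],
   [2, 2, 1, 2, 0, 1],
   [2, 2, 2, 1, 1, 0]]

theorem step32_0 : StepOK 3 2 (tb A32) E32 246 247 360 1000 5 (mt W32_0) where
  pos := by decide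
  lt := by decide
  le := by decide
  one := by decide
  check := by decide +kernel

/-- vector 1 -/
def W32_1 : List (List ℕ) :=
  [[0, 1, 1, 2, 2, 2],
   [1, 0, 2, 1, 2, 2],
   [1, 2, 0, 2, 1, 2],
   [2, 1, 2, 0, 2, 1],
   [2, 2, 1, 2, 0, 1],
   [2, 2, 2, 1, 1, 0]]

theorem step32_1 : StepOK 3 2 (tb A32) E32 359 360 435 1000 5 (mt W32_1) where
  pos := by decide
  lt := by decide
  le := by decide
  one := by decide
  check := by decide +kernel

/-- vector 2 -/
def W32_2 : List (List ℕ) :=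
  [[0, 2, 2, 3, 3, 3],
   [2, 0, 3, 2, 3, 3],
   [2, 3, 0, 2, 2, 3],
   [3, 2, 2, 0, 3, 2],
   [3, 3, 2, 3, 0, 2],
   [3, 3, 3, 2, 2, 0]]

theorem step32_2 : StepOK 3 2 (tb A32) E32 434 435 486 1000 5 (mt W32_2) where
  pos := by decide
  lt := by decide
  le := by decide
  one := by decide
  check := by decide +kernel

/-- vector 3 -/
def W32_3 : List (List ℕ) :=
  [[0, 2, 3, 4, 4, 4],
   [2, 0, 4, 3, 4, 4],
   [3, 4, 0, 3, 3, 4],
   [4, 3, 3, 0, 4, 3],
   [4, 4, 3, 4, 0, 2],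
   [4, 4, 4, 3, 2, 0]]

theorem step32_3 : StepOK 3 2 (tb A32) E32 485 486 520 1000 5 (mt W32_3) where
  pos := by decide
  lt := by decide
  le := by decide
  one := by decide
  check := by decide +kernel

theorem start32 : 58 * (247 ^ 4 * kH 247 1000 E32 0 0) < 1000 ^ (4 + E32.length) := by decide +kernel

theorem stop32 : 1000 ^ (4 + E32.length) ≤ 520 ^ 4 * kH 520 1000 E32 0 0 := by decide +kernel

theorem chain32 : ∀ (i : ℕ) (_ : i + 1 < (247 :: [360, 435, 486, 520]).length),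
    ∃ N' V, StepOK 3 2 (tb A32) E32 N' (247 :: [360, 435, 486, 520])[i] (247 :: [360, 435, 486, 520])[i + 1] 1000 5 V
  | 0, _ => ⟨_, _, step32_0⟩
  | 1, _ => ⟨_, _, step32_1⟩
  | 2, _ => ⟨_, _, step32_2⟩
  | 3, _ => ⟨_, _, step32_3⟩
  | k + 4, h => absurd h (by simp)

/-- The gap for the tube with 3 x 2 columns and every tension `y ≥ 1`. -/
theorem gap32 {y : ℝ} (hy : 1 ≤ y) : Gap (rectB 3 2) y := by
  rcases lt_or_ge y 58 with h | h
  · exact gap_of_chain_nat table32 edges32 (fun a ha b hb => ⟨_, conn32 a ha b hb⟩) (by decide) hy h _ _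
      chain32 start32 stop32
  · exact tension _ 0 0 (by decide) (by decide) y h

end Pool.Agent.LatticeTube.G6
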