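import Pool.Agent.LatticeTube.Grid

/-! Small tubes with tension: the certificates for the tube with 3 x 3 columns. -/

set_option autoImplicit false

open Pool.Agent.LK

namespace Pool.Agent.LatticeTube.G6

/-- vector 0 -/
def W33_0 : List (List ℕ) :=
  [[0, 1, 1, 1, 2, 2, 1, 2, 1],
   [1, 0, 1, 2, 2, 2, 2, 2, 2],
   [1, 1, 0, 2, 2, 1, 1, 2, 1],
   [1, 2, 2, 0, 2, 2, 1, 2, 2],
   [2, 2, 2, 2, 0, 2, 2, 2, 2],
   [2, 2, 1, 2, 2, 0, 2, 2, 1],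
   [1, 2, 1, 1, 2, 2, 0, 1, 1],
   [2, 2, 2, 2, 2, 2, 1, 0, 1],
   [1, 2, 1, 2, 2, 1, 1, 1, 0]]

theorem step33_0 : StepOK 3 3 (tb A33) E33 206 207 280 1000 8 (mt W33_0) where
  pos := by decide
  lt := by decide
  le := by decide
  one := by decide
  check := by decide +kernel

/-- vector 1 -/
def W33_1 : List (List ℕ) :=
  [[0, 1, 1, 1, 2, 2, 1, 2, 2],
   [1, 0, 1, 2, 2, 2, 2, 2, 2],
   [1, 1, 0, 2, 2, 1, 2, 2, 1],
   [1, 2, 2, 0, 2, 2, 1, 2, 2],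
   [2, 2, 2, 2, 0, 2, 2, 2, 2],
   [2, 2, 1, 2, 2, 0, 2, 2, 1],
   [1, 2, 2, 1, 2, 2, 0, 1, 1],
   [2, 2, 2, 2, 2, 2, 1, 0, 1],
   [2, 2, 1, 2, 2, 1, 1, 1, 0]]

theorem step33_1 : StepOK 3 3 (tb A33) E33 279 280 324 1000 8 (mt W33_1) where
  pos := by decide
  lt := by decide
  le := by decide
  one := by decide
  check := by decide +kernel

/-- vector 2 -/
def W33_2 : List (List ℕ) :=
  [[0, 2, 3, 2, 3, 4, 3, 4, 3],
   [2, 0, 2, 3, 3, 3, 4, 4, 4],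
   [3, 2, 0, 4, 3, 2, 3, 4, 3],
   [2, 3, 4, 0, 3, 4, 2, 3, 4],
   [3, 3, 3, 3, 0, 3, 3, 3, 3],
   [4, 3, 2, 4, 3, 0, 4, 3, 2],
   [3, 4, 3, 2, 3, 4, 0, 2, 3],
   [4, 4, 4, 3, 3, 3, 2, 0, 2],
   [3, 4, 3, 4, 3, 2, 3, 2, 0]]

theorem step33_2 : StepOK 3 3 (tb A33) E33 323 324 351 1000 8 (mt W33_2) where
  pos := by decide
  lt := by decide
  le := by decide
  one := by decide
  check := by decide +kernel

/-- vector 3 -/
def W33_3 : List (List ℕ) :=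
  [[0, 4, 5, 4, 7, 7, 5, 7, 7],
   [4, 0, 4, 7, 6, 7, 7, 8, 7],
   [5, 4, 0, 7, 7, 4, 7, 7, 5],
   [4, 7, 7, 0, 6, 8, 4, 7, 7],
   [7, 6, 7, 6, 0, 6, 7, 6, 7],
   [7, 7, 4, 8, 6, 0, 7, 7, 4],
   [5, 7, 7, 4, 7, 7, 0, 4, 5],
   [7, 8, 7, 7, 6, 7, 4, 0, 4],
   [7, 7, 5, 7, 7, 4, 5, 4, 0]]

theorem step33_3 : StepOK 3 3 (tb A33) E33 350 351 369 1000 8 (mt W33_3) where
  pos := by decide
  lt := by decide
  le := by decide
  one := by decide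
  check := by decide +kernel

/-- vector 4 -/
def W33_4 : List (List ℕ) :=
  [[0, 4, 6, 4, 7, 7, 6, 7, 7],
   [4, 0, 4, 7, 6, 7, 7, 8, 7],
   [6, 4, 0, 7, 7, 4, 7, 7, 6],
   [4, 7, 7, 0, 6, 8, 4, 7, 7],
   [7, 6, 7, 6, 0, 6, 7, 6, 7],
   [7, 7, 4, 8, 6, 0, 7, 7, 4],
   [6, 7, 7, 4, 7, 7, 0, 4, 6],
   [7, 8, 7, 7, 6, 7, 4, 0, 4],
   [7, 7, 6, 7, 7, 4, 6, 4, 0]]

theorem step33_4 : StepOK 3 3 (tb A33) E33 368 369 379 1000 8 (mt W33_4) where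
  pos := by decide
  lt := by decide
  le := by decide
  one := by decide
  check := by decide +kernel

/-- vector 5 -/
def W33_5 : List (List ℕ) :=
  [[0, 5, 7, 5, 8, 9, 7, 9, 8],
   [5, 0, 5, 9, 8, 9, 9, 10, 9],
   [7, 5, 0, 9, 8, 5, 8, 9, 7],
   [5, 9, 9, 0, 8, 10, 5, 9, 9],
   [8, 8, 8, 8, 0, 8, 8, 8, 8],
   [9, 9, 5, 10, 8, 0, 9, 9, 5],
   [7, 9, 8, 5, 8, 9, 0, 5, 7],
   [9, 10, 9, 9, 8, 9, 5, 0, 5],
   [8, 9, 7, 9, 8, 5, 7, 5, 0]]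

theorem step33_5 : StepOK 3 3 (tb A33) E33 378 379 386 1000 8 (mt W33_5) where
  pos := by decide
  lt := by decide
  le := by decide
  one := by decide
  check := by decide +kernel

/-- vector 6 -/
def W33_6 : List (List ℕ) :=
  [[0, 6, 8, 6, 10, 11, 8, 11, 10],
   [6, 0, 6, 10, 9, 10, 11, 12, 11],
   [8, 6, 0, 11, 10, 6, 10, 11, 8],
   [6, 10, 11, 0, 9, 12, 6, 10, 11],
   [10, 9, 10, 9, 0, 9, 10, 9, 10],
   [11, 10, 6, 12, 9, 0, 11, 10, 6],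
   [8, 11, 10, 6, 10, 11, 0, 6, 8],
   [11, 12, 11, 10, 9, 10, 6, 0, 6],
   [10, 11, 8, 11, 10, 6, 8, 6, 0]]

theorem step33_6 : StepOK 3 3 (tb A33) E33 385 386 391 1000 8 (mt W33_6) where
  pos := by decide
  lt := by decide
  le := by decide
  one := by decide
  check := by decide +kernel

theorem start33 : 58 * (207 ^ 4 * kH 207 1000 E33 0 0) < 1000 ^ (4 + E33.length) := by decide +kernel

theorem stop33 : 1000 ^ (4 + E33.length) ≤ 391 ^ 4 * kH 391 1000 E33 0 0 := by decide +kernel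

theorem chain33 : ∀ (i : ℕ) (_ : i + 1 < (207 :: [280, 324, 351, 369, 379, 386, 391]).length),
    ∃ N' V, StepOK 3 3 (tb A33) E33 N' (207 :: [280, 324, 351, 369, 379, 386, 391])[i] (207 :: [280, 324, 351, 369, 379, 386, 391])[i + 1] 1000 8 V
  | 0, _ => ⟨_, _, step33_0⟩
  | 1, _ => ⟨_, _, step33_1⟩
  | 2, _ => ⟨_, _, step33_2⟩
  | 3, _ => ⟨_, _, step33_3⟩
  | 4, _ => ⟨_, _, step33_4⟩
  | 5, _ => ⟨_, _, step33_5⟩
  | 6, _ => ⟨_, _, step33_6⟩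
  | k + 7, h => absurd h (by simp)

/-- The gap for the tube with 3 x 3 columns and every tension `y ≥ 1`. -/
theorem gap33 {y : ℝ} (hy : 1 ≤ y) : Gap (rectB 3 3) y := by
  rcases lt_or_ge y 58 with h | h
  · exact gap_of_chain_nat table33 edges33 (fun a ha b hb => ⟨_, conn33 a ha b hb⟩) (by decide) hy h _ _
      chain33 start33 stop33
  · exact tension _ 0 0 (by decide) (by decide) y h

end Pool.Agent.LatticeTube.G6
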