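import Pool.Agent.LatticeTube.Grid

/-! Small tubes with tension: the certificates for the tube with 4 x 2 columns. -/

set_option autoImplicit false

open Pool.Agent.LK

namespace Pool.Agent.LatticeTube.G6

/-- vector 0 -/
def W42_0 : List (List ℕ) :=
  [[0, 1, 1, 2, 3, 3, 2, 2],
   [1, 0, 2, 1, 3, 3, 2, 2],
   [1, 2, 0, 2, 2, 3, 3, 3],
   [2, 1, 2, 0, 3, 2, 3, 3],
   [3, 3, 2, 3, 0, 2, 1, 2],
   [3, 3, 3, 2, 2, 0, 2, 1],
   [2, 2, 3, 3, 1, 2, 0, 1],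
   [2, 2, 3, 3, 2, 1, 1, 0]]

theorem step42_0 : StepOK 4 2 (tb A42) E42 220 221 305 1000 7 (mt W42_0) where
  pos := by decide
  lt := by decide
  le := by decide
  one := by decide
  check := by decide +kernel

/-- vector 1 -/
def W42_1 : List (List ℕ) :=
  [[0, 1, 2, 3, 4, 4, 3, 3],
   [1, 0, 3, 2, 4, 4, 3, 3],
   [2, 3, 0, 3, 3, 4, 4, 4],
   [3, 2, 3, 0, 4, 3, 4, 4],
   [4, 4, 3, 4, 0, 3, 2, 3],
   [4, 4, 4, 3, 3, 0, 3, 2],
   [3, 3, 4, 4, 2, 3, 0, 1],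
   [3, 3, 4, 4, 3, 2, 1, 0]]

theorem step42_1 : StepOK 4 2 (tb A42) E42 304 305 361 1000 7 (mt W42_1) where
  pos := by decide
  lt := by decide
  le := by decide
  one := by decide
  check := by decide +kernel

/-- vector 2 -/
def W42_2 : List (List ℕ) :=
  [[0, 2, 3, 4, 6, 6, 5, 5],
   [2, 0, 4, 3, 6, 6, 5, 5],
   [3, 4, 0, 4, 5, 6, 6, 6],
   [4, 3, 4, 0, 6, 5, 6, 6],
   [6, 6, 5, 6, 0, 4, 3, 4],
   [6, 6, 6, 5, 4, 0, 4, 3],
   [5, 5, 6, 6, 3, 4, 0, 2],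
   [5, 5, 6, 6, 4, 3, 2, 0]]

theorem step42_2 : StepOK 4 2 (tb A42) E42 360 361 396 1000 7 (mt W42_2) where
  pos := by decide
  lt := by decide
  le := by decide
  one := by decide
  check := by decide +kernel

/-- vector 3 -/
def W42_3 : List (List ℕ) :=
  [[0, 2, 3, 4, 6, 6, 6, 6],
   [2, 0, 4, 3, 6, 6, 6, 6],
   [3, 4, 0, 4, 5, 6, 6, 6],
   [4, 3, 4, 0, 6, 5, 6, 6],
   [6, 6, 5, 6, 0, 4, 3, 4],
   [6, 6, 6, 5, 4, 0, 4, 3],
   [6, 6, 6, 6, 3, 4, 0, 2],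
   [6, 6, 6, 6, 4, 3, 2, 0]]

theorem step42_3 : StepOK 4 2 (tb A42) E42 395 396 418 1000 7 (mt W42_3) where
  pos := by decide
  lt := by decide
  le := by decide
  one := by decide
  check := by decide +kernel

/-- vector 4 -/
def W42_4 : List (List ℕ) :=
  [[0, 2, 3, 4, 6, 6, 6, 6],
   [2, 0, 4, 3, 6, 6, 6, 6],
   [3, 4, 0, 4, 5, 6, 6, 6],
   [4, 3, 4, 0, 6, 5, 6, 6],
   [6, 6, 5, 6, 0, 4, 3, 4],
   [6, 6, 6, 5, 4, 0, 4, 3],
   [6, 6, 6, 6, 3, 4, 0, 2],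
   [6, 6, 6, 6, 4, 3, 2, 0]]

theorem step42_4 : StepOK 4 2 (tb A42) E42 417 418 432 1000 7 (mt W42_4) where
  pos := by decide
  lt := by decide
  le := by decide
  one := by decide
  check := by decide +kernel

theorem start42 : 58 * (221 ^ 4 * kH 221 1000 E42 0 0) < 1000 ^ (4 + E42.length) := by decide +kernel

theorem stop42 : 1000 ^ (4 + E42.length) ≤ 432 ^ 4 * kH 432 1000 E42 0 0 := by decide +kernel

theorem chain42 : ∀ (i : ℕ) (_ : i + 1 < (221 :: [305, 361, 396, 418, 432]).length),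
    ∃ N' V, StepOK 4 2 (tb A42) E42 N' (221 :: [305, 361, 396, 418, 432])[i] (221 :: [305, 361, 396, 418, 432])[i + 1] 1000 7 V
  | 0, _ => ⟨_, _, step42_0⟩
  | 1, _ => ⟨_, _, step42_1⟩
  | 2, _ => ⟨_, _, step42_2⟩
  | 3, _ => ⟨_, _, step42_3⟩
  | 4, _ => ⟨_, _, step42_4⟩
  | k + 5, h => absurd h (by simp)

/-- The gap for the tube with 4 x 2 columns and every tension `y ≥ 1`. -/
theorem gap42 {y : ℝ} (hy : 1 ≤ y) : Gap (rectB 4 2) y := by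
  rcases lt_or_ge y 58 with h | h
  · exact gap_of_chain_nat table42 edges42 (fun a ha b hb => ⟨_, conn42 a ha b hb⟩) (by decide) hy h _ _
      chain42 start42 stop42
  · exact tension _ 0 0 (by decide) (by decide) y h

end Pool.Agent.LatticeTube.G6
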