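import Mathlib

/-! Renewal sequences and convolutions (tube theorem for MP_aea6d5_co, part [R]). -/

set_option autoImplicit false

open Filter Topology Finset

namespace Pool.Agent.LatticeTube

/-- Convolution of sequences. -/
def conv (a b : ℕ → ℝ) (n : ℕ) : ℝ := ∑ p ∈ antidiagonal n, a p.1 * b p.2

/-- Convolution powers; the zeroth power is the unit `1, 0, 0, …`. -/
def convPow (u : ℕ → ℝ) : ℕ → ℕ → ℝ
  | 0 => fun n => if n = 0 then 1 else 0
  | j + 1 => conv u (convPow u j)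

/-- `u` is the renewal sequence of `f`: `u 0 = 1`, `u n = ∑ f m * u (n - m)`. -/
structure IsRenewal (f u : ℕ → ℝ) : Prop where
  nonneg : ∀ n, 0 ≤ f n
  zero : f 0 = 0
  one : 0 < f 1
  init : u 0 = 1
  step : ∀ n, 1 ≤ n → u n = ∑ m ∈ range n, f (m + 1) * u (n - (m + 1))

/-- (R1) renewal theorem with exponential tails. `ρ` is the radius of convergence of `∑ u n x^n`,
and `∑ f n x^n` converges at a point beyond `ρ`. -/
def RenewalStatement : Prop := ∀ (f u : ℕ → ℝ) (ρ r : ℝ), IsRenewal f u → 0 < ρ → ρ < r →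
  Summable (fun n => f n * r ^ n) →
  (∀ x, 0 ≤ x → x < ρ → Summable fun n => u n * x ^ n) →
  (∀ x, ρ < x → ¬ Summable fun n => u n * x ^ n) →
  ∃ c : ℝ, 0 < c ∧ Tendsto (fun n => u n * ρ ^ n) atTop (𝓝 c)

/-- (R2) convolution powers of a sequence with `u n ρ^n → γ`. -/
def ConvPowStatement : Prop := ∀ (u c : ℕ → ℝ) (ρ γ : ℝ) (j : ℕ), 0 < ρ → (∀ n, 0 ≤ u n) →
  (∀ n, 0 ≤ c n) → Tendsto (fun n => u n * ρ ^ n) atTop (𝓝 γ) →
  Summable (fun n => c n * ρ ^ n) →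
  Tendsto (fun n : ℕ => conv c (convPow u (j + 1)) n * ρ ^ n / (n : ℝ) ^ j) atTop
    (𝓝 ((∑' n, c n * ρ ^ n) * γ ^ (j + 1) / (j.factorial : ℝ)))

end Pool.Agent.LatticeTube
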