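import Pool.Agent.LatticeTube.G6c

/-! Part [G], small tubes: the three certificates. -/

set_option autoImplicit false

open Pool.Agent.LK

namespace Pool.Agent.LatticeTube.G6

/-- lookup in a table -/
def tb (L : List (List ℕ)) (c : ℕ) : List ℕ := L.getD c []

theorem tb_nodup {L : List (List ℕ)} (h : ∀ r ∈ L, r.Nodup) (c : ℕ) : (tb L c).Nodup := by
  unfold tb
  rw [List.getD_eq_getElem?_getD]
  rcases h2 : L[c]? with _ | r
  · simp
  · exact h r (List.mem_of_getElem? h2)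

instance decAdj2 (c d : ℤ × ℤ) : Decidable (Adj2 c d) :=
  inferInstanceAs (Decidable (|c.1 - d.1| + |c.2 - d.2| = 1))

/-- entry of a matrix -/
def mt (L : List (List ℕ)) (i j : ℕ) : ℕ := (L.getD i []).getD j 0

/-- neighbours -/
def A32 : List (List ℕ) :=
  [[1, 2], [0, 3], [0, 3, 4], [1, 2, 5], [2, 5], [3, 4]]

/-- edges -/
def E32 : List (ℕ × ℕ) :=
  [(0, 1), (0, 2), (1, 3), (2, 3), (2, 4), (3, 5), (4, 5)]

/-- the vector -/
def V32 : List (List ℕ) :=
  [[0, 1, 1, 1, 1, 1],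
   [1, 0, 1, 1, 1, 1],
   [1, 1, 0, 1, 1, 1],
   [1, 1, 1, 0, 1, 1],
   [1, 1, 1, 1, 0, 1],
   [1, 1, 1, 1, 1, 0]]

theorem table32 : Table 3 2 (tb A32) where
  nodup := tb_nodup (by decide)
  lt := by decide
  adj := by decide +kernel

set_option synthInstance.maxSize 10000 in
theorem edges32 : Edges 3 2 E32 where
  nodup := by decide
  lt := by decide
  all := by decide +kernel

theorem cert32 : Certificate (rectB 3 2) :=
  cert_of table32 edges32 49 50 100 5 (mt V32) (by decide) (by decide) (by decide) (by decide)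
    (by decide) (by decide +kernel) (by decide +kernel)

/-- neighbours -/
def A42 : List (List ℕ) :=
  [[1, 2], [0, 3], [0, 3, 4], [1, 2, 5], [2, 5, 6], [3, 4, 7], [4, 7], [5, 6]]

/-- edges -/
def E42 : List (ℕ × ℕ) :=
  [(0, 1), (0, 2), (1, 3), (2, 3), (2, 4), (3, 5), (4, 5), (4, 6), (5, 7), (6, 7)]

/-- the vector -/
def V42 : List (List ℕ) :=
  [[0, 1, 2, 2, 3, 3, 3, 3],
   [1, 0, 2, 2, 3, 3, 3, 3],
   [2, 2, 0, 2, 2, 3, 3, 3],
   [2, 2, 2, 0, 3, 2, 3, 3],
   [3, 3, 2, 3, 0, 2, 2, 2],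
   [3, 3, 3, 2, 2, 0, 2, 2],
   [3, 3, 3, 3, 2, 2, 0, 1],
   [3, 3, 3, 3, 2, 2, 1, 0]]

theorem table42 : Table 4 2 (tb A42) where
  nodup := tb_nodup (by decide)
  lt := by decide
  adj := by decide +kernel

set_option synthInstance.maxSize 10000 in
theorem edges42 : Edges 4 2 E42 where
  nodup := by decide
  lt := by decide
  all := by decide +kernel

theorem cert42 : Certificate (rectB 4 2) :=
  cert_of table42 edges42 4200 4235 10000 7 (mt V42) (by decide) (by decide) (by decide) (by decide)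
    (by decide) (by decide +kernel) (by decide +kernel)

/-- neighbours -/
def A33 : List (List ℕ) :=
  [[1, 3], [0, 2, 4], [1, 5], [0, 4, 6], [1, 3, 5, 7], [2, 4, 8], [3, 7], [4, 6, 8], [5, 7]]

/-- edges -/
def E33 : List (ℕ × ℕ) :=
  [(0, 1), (0, 3), (1, 2), (1, 4), (2, 5), (3, 4), (3, 6), (4, 5), (4, 7), (5, 8), (6, 7), (7, 8)]

/-- the vector -/
def V33 : List (List ℕ) :=
  [[0, 3, 4, 3, 4, 5, 4, 5, 4],
   [3, 0, 3, 4, 4, 4, 5, 5, 5],
   [4, 3, 0, 5, 4, 3, 4, 5, 4],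
   [3, 4, 5, 0, 4, 5, 3, 4, 5],
   [4, 4, 4, 4, 0, 4, 4, 4, 4],
   [5, 4, 3, 5, 4, 0, 5, 4, 3],
   [4, 5, 4, 3, 4, 5, 0, 3, 4],
   [5, 5, 5, 4, 4, 4, 3, 0, 3],
   [4, 5, 4, 5, 4, 3, 4, 3, 0]]

theorem table33 : Table 3 3 (tb A33) where
  nodup := tb_nodup (by decide)
  lt := by decide
  adj := by decide +kernel

set_option synthInstance.maxSize 10000 in
theorem edges33 : Edges 3 3 E33 where
  nodup := by decide
  lt := by decide
  all := by decide +kernel

theorem cert33 : Certificate (rectB 3 3) :=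
  cert_of table33 edges33 385 388 1000 8 (mt V33) (by decide) (by decide) (by decide) (by decide)
    (by decide) (by decide +kernel) (by decide +kernel)

end Pool.Agent.LatticeTube.G6
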