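import Pool.Agent.LatticeTube.MonoSpec

/-! Tools for the certificates of part [G], small tubes: enumeration of self-avoiding paths and of
edge sets of maximal degree two. -/

set_option autoImplicit false

open Pool.Agent.LK

namespace Pool.Agent.LatticeTube.G6

/-! ### Self-avoiding paths -/

/-- The self-avoiding paths from `c`, at most `f` steps, which do not use the columns marked by `u`
after the start. -/
def walks (A : ℕ → List ℕ) : ℕ → ℕ → ℕ → List (List ℕ)
  | 0, c, _ => [[c]]
  | f + 1, c, u => [c] :: (A c).flatMap fun d =>
      bif u.testBit d then [] else (walks A f d (u ||| 1 <<< d)).map (c :: ·)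

/-- The marks after a path. -/
def um (u : ℕ) (p : List ℕ) : ℕ := p.tail.foldl (fun u d => u ||| 1 <<< d) u

/-- Weighted sums over paths, multiplied by `D ^ f`. -/
def kS (A : ℕ → List ℕ) (N D : ℕ) (g : ℕ → ℕ → ℕ) : ℕ → ℕ → ℕ → ℕ
  | 0, c, u => g c u
  | f + 1, c, u => D ^ (f + 1) * g c u + N * ((A c).map fun d =>
      bif u.testBit d then 0 else kS A N D g f d (u ||| 1 <<< d)).sum

variable {A : ℕ → List ℕ}

theorem mem_walks_succ {f c u : ℕ} {p : List ℕ} : p ∈ walks A (f + 1) c u ↔
    p = [c] ∨ ∃ d ∈ A c, u.testBit d = false ∧ ∃ q ∈ walks A f d (u ||| 1 <<< d), p = c :: q := by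
  simp only [walks, List.mem_cons, List.mem_flatMap]
  constructor
  · rintro (h | ⟨d, hd, h⟩)
    · exact Or.inl h
    · right
      cases hb : u.testBit d with
      | true => rw [hb] at h; simp at h
      | false =>
        rw [hb, cond_false, List.mem_map] at h
        obtain ⟨q, hq, rfl⟩ := h
        exact ⟨d, hd, hb, q, hq, rfl⟩
  · rintro (h | ⟨d, hd, hb, q, hq, rfl⟩)
    · exact Or.inl h
    · refine Or.inr ⟨d, hd, ?_⟩
      rw [hb, cond_false, List.mem_map]
      exact ⟨q, hq, rfl⟩

theorem testBit_one_shiftLeft (j i : ℕ) : (1 <<< j).testBit i = decide (j = i) := by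
  rw [Nat.one_shiftLeft, Nat.testBit_two_pow]

/-- properties of the paths -/
theorem walks_spec : ∀ (f c u : ℕ) (p : List ℕ), p ∈ walks A f c u →
    ∃ t, p = c :: t ∧ t.Nodup ∧ (∀ x ∈ t, u.testBit x = false) ∧
      p.IsChain (fun a b => b ∈ A a) := by
  intro f
  induction f with
  | zero =>
    intro c u p hp
    simp only [walks, List.mem_singleton] at hp
    exact ⟨[], hp, List.nodup_nil, by simp, by rw [hp]; exact List.isChain_singleton _⟩
  | succ f ih =>
    intro c u p hp
    rw [mem_walks_succ] at hp
    rcases hp with rfl | ⟨d, hd, hb, q, hq, rfl⟩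
    · exact ⟨[], rfl, List.nodup_nil, by simp, List.isChain_singleton _⟩
    · obtain ⟨t, rfl, h1, h2, h3⟩ := ih _ _ _ hq
      refine ⟨d :: t, rfl, ?_, ?_, ?_⟩
      · rw [List.nodup_cons]
        refine ⟨fun h => ?_, h1⟩
        have := h2 d h
        rw [Nat.testBit_or, testBit_one_shiftLeft] at this
        simp at this
      · intro x hx
        rcases List.mem_cons.mp hx with rfl | hx
        · exact hb
        · have := h2 x hx
          rw [Nat.testBit_or, Bool.or_eq_false_iff] at this
          exact this.1
      · exact List.isChain_cons_cons.mpr ⟨hd, h3⟩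

theorem walks_ne_nil {f c u : ℕ} {p : List ℕ} (hp : p ∈ walks A f c u) : p ≠ [] := by
  obtain ⟨t, rfl, _⟩ := walks_spec _ _ _ _ hp
  exact List.cons_ne_nil _ _

theorem walks_nodup (hA : ∀ c, (A c).Nodup) : ∀ (f c u : ℕ), (walks A f c u).Nodup := by
  intro f
  induction f with
  | zero => intro c u; simp [walks]
  | succ f ih =>
    intro c u
    simp only [walks]
    rw [List.nodup_cons]
    constructor
    · rw [List.mem_flatMap]
      rintro ⟨d, hd, h⟩
      cases hb : u.testBit d with
      | true => rw [hb] at h; simp at h
      | false =>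
        rw [hb, cond_false, List.mem_map] at h
        obtain ⟨q, hq, hq'⟩ := h
        exact walks_ne_nil hq (List.cons.inj hq').2
    · rw [List.nodup_flatMap]
      constructor
      · intro d _
        cases hb : u.testBit d with
        | true => simp
        | false =>
          rw [cond_false]
          exact (ih _ _).map fun a b h => (List.cons.inj h).2
      · refine (hA c).imp_of_mem ?_
        intro d d' _ _ hne
        rw [Function.onFun, List.disjoint_left]
        intro p hp hp'
        cases hb : u.testBit d with
        | true => rw [hb] at hp; simp at hp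
        | false =>
          cases hb' : u.testBit d' with
          | true => rw [hb'] at hp'; simp at hp'
          | false =>
            rw [hb, cond_false, List.mem_map] at hp
            rw [hb', cond_false, List.mem_map] at hp'
            obtain ⟨q, hq, rfl⟩ := hp
            obtain ⟨q', hq', h⟩ := hp'
            obtain ⟨t, rfl, _⟩ := walks_spec _ _ _ _ hq
            obtain ⟨t', rfl, _⟩ := walks_spec _ _ _ _ hq'
            simp only [List.cons.injEq, true_and] at h
            exact hne h.1.symm

theorem um_cons (u c d : ℕ) (t : List ℕ) : um u (c :: d :: t) = um (u ||| 1 <<< d) (d :: t) := rfl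

theorem testBit_um (u : ℕ) (p : List ℕ) (x : ℕ) :
    (um u p).testBit x = true ↔ u.testBit x = true ∨ x ∈ p.tail := by
  unfold um
  generalize p.tail = t
  induction t generalizing u with
  | nil => simp
  | cons d t ih =>
    rw [List.foldl_cons, ih, Nat.testBit_or, Bool.or_eq_true, testBit_one_shiftLeft,
      List.mem_cons, decide_eq_true_eq]
    tauto

theorem sum_flatMap' (l : List ℕ) (f : ℕ → List ℝ) :
    (l.flatMap f).sum = (l.map fun a => (f a).sum).sum := by
  induction l with
  | nil => rfl
  | cons a l ih => rw [List.flatMap_cons, List.sum_append, ih, List.map_cons, List.sum_cons]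

/-- the recursive sum is the sum over the paths -/
theorem kS_eq (N D : ℕ) (hD : 0 < D) (g : ℕ → ℕ → ℕ) : ∀ f c u : ℕ,
    (kS A N D g f c u : ℝ) = (D : ℝ) ^ f * ((walks A f c u).map fun p =>
      ((N : ℝ) / D) ^ (p.length - 1) * (g (p.getLastD 0) (um u p) : ℝ)).sum := by
  intro f
  induction f with
  | zero =>
    intro c u
    simp [kS, walks, um]
  | succ f ih =>
    intro c u
    have hD' : (D : ℝ) ≠ 0 := by exact_mod_cast hD.ne'
    simp only [kS, walks, List.map_cons, List.sum_cons, List.length_singleton, Nat.sub_self,
      pow_zero, one_mul]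
    push_cast
    rw [mul_add]
    congr 1
    rw [List.map_flatMap, sum_flatMap']
    rw [← List.sum_map_mul_left, ← List.sum_map_mul_left, List.map_map]
    congr 1
    apply List.map_congr_left
    intro d _
    cases hb : u.testBit d with
    | true => simp [hb]
    | false =>
      simp only [Function.comp, hb, cond_false, List.map_map]
      rw [ih, ← mul_assoc, ← List.sum_map_mul_left, ← List.sum_map_mul_left]
      congr 1
      apply List.map_congr_left
      intro p hp
      obtain ⟨t, rfl, _⟩ := walks_spec _ _ _ _ hp
      simp only [Function.comp, List.length_cons, Nat.add_sub_cancel, um_cons]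
      rw [pow_succ, pow_succ, List.getLastD_cons, List.getLastD_cons, List.getLastD_cons]
      field_simp

end Pool.Agent.LatticeTube.G6
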