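import Pool.Agent.LatticeTube.G6a

/-! Tools for the certificates of part [G], small tubes: the transfer inequality. -/

set_option autoImplicit false

open Pool.Agent.LK

namespace Pool.Agent.LatticeTube.G6

/-- The column with number `i`. -/
def col (m i : ℕ) : ℤ × ℤ := (((i / m : ℕ) : ℤ), ((i % m : ℕ) : ℤ))

theorem col_inj {m i j : ℕ} (h : col m i = col m j) : i = j := by
  unfold col at h
  rw [Prod.mk.injEq] at h
  have h1 : i / m = j / m := by exact_mod_cast h.1
  have h2 : i % m = j % m := by exact_mod_cast h.2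
  rw [← Nat.div_add_mod i m, ← Nat.div_add_mod j m, h1, h2]

theorem mem_rectB {l m : ℕ} (c : ℤ × ℤ) : c ∈ rectB l m ↔ ∃ i < l * m, col m i = c := by
  unfold rectB
  rw [Finset.mem_image]
  constructor
  · rintro ⟨⟨x, y⟩, hxy, rfl⟩
    rw [Finset.mem_product, Finset.mem_range, Finset.mem_range] at hxy
    obtain ⟨hx, hy⟩ := hxy
    simp only at hx hy
    have hm : 0 < m := by omega
    refine ⟨x * m + y, ?_, ?_⟩
    · calc x * m + y < x * m + m := by omega
        _ = (x + 1) * m := by ring
        _ ≤ l * m := Nat.mul_le_mul_right _ hx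
    · unfold col
      have h1 : (x * m + y) / m = x := by
        rw [Nat.add_comm, Nat.add_mul_div_right _ _ hm, Nat.div_eq_of_lt hy, Nat.zero_add]
      have h2 : (x * m + y) % m = y := by
        rw [Nat.add_comm, Nat.add_mul_mod_self_right, Nat.mod_eq_of_lt hy]
      rw [h1, h2]
  · rintro ⟨i, hi, rfl⟩
    have hm : 0 < m := by
      rcases Nat.eq_zero_or_pos m with h | h
      · rw [h, Nat.mul_zero] at hi; omega
      · exact h
    refine ⟨(i / m, i % m), ?_, rfl⟩
    rw [Finset.mem_product, Finset.mem_range, Finset.mem_range]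
    exact ⟨Nat.div_lt_of_lt_mul (by rw [Nat.mul_comm]; exact hi), Nat.mod_lt _ hm⟩

theorem getLast?_map_eq {p : List ℕ} (hp : p ≠ []) (m : ℕ) :
    (p.map (col m)).getLast? = some (col m (p.getLastD 0)) := by
  rw [List.getLast?_map, List.getLast?_eq_some_getLast hp, Option.map_some]
  congr 2
  rw [List.getLastD_eq_getLast?, List.getLast?_eq_some_getLast hp]
  rfl

theorem finite_paths (B : Finset (ℤ × ℤ)) :
    {p : List (ℤ × ℤ) | p.Nodup ∧ ∀ c ∈ p, c ∈ B}.Finite := by
  classical
  have h : Set.Finite {q : List {x // x ∈ B} | q.length ≤ Fintype.card {x // x ∈ B}} :=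
    List.finite_length_le _ _
  refine (h.image (List.map Subtype.val)).subset ?_
  rintro p ⟨hn, hB⟩
  lift p to List {x // x ∈ B} using hB
  exact ⟨p, List.Nodup.length_le_card (List.Nodup.of_map _ hn), rfl⟩

theorem finite_links (B : Finset (ℤ × ℤ)) (s s' : (ℤ × ℤ) × (ℤ × ℤ)) :
    (Links B s s').Finite := by
  refine ((finite_paths B).prod (finite_paths B)).subset ?_
  rintro ⟨p, q⟩ ⟨h1, h2, _⟩
  exact ⟨⟨h1.2.2.1, h1.2.2.2.2⟩, ⟨h2.2.2.1, h2.2.2.2.2⟩⟩

/-- `A` is an adjacency table for the columns of `rectB l m`. -/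
structure Table (l m : ℕ) (A : ℕ → List ℕ) : Prop where
  nodup : ∀ c, (A c).Nodup
  lt : ∀ c < l * m, ∀ d ∈ A c, d < l * m
  adj : ∀ c < l * m, ∀ d ∈ A c, Adj2 (col m c) (col m d)

variable {l m : ℕ} {A : ℕ → List ℕ}

theorem Table.chain (h : Table l m A) : ∀ p : List ℕ, p.IsChain (fun a b => b ∈ A a) →
    ∀ c < l * m, p.head? = some c →
      (∀ x ∈ p, x < l * m) ∧ (p.map (col m)).IsChain Adj2 := by
  intro p
  induction p with
  | nil => intro _ c _ hh; simp at hh
  | cons a p ih =>
    intro hc c hclt hh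
    simp only [List.head?_cons, Option.some.injEq] at hh
    subst hh
    cases p with
    | nil =>
      exact ⟨by simpa using hclt, List.isChain_singleton _⟩
    | cons b p =>
      rw [List.isChain_cons_cons] at hc
      obtain ⟨h1, h2⟩ := ih hc.2 b (h.lt a hclt b hc.1) rfl
      refine ⟨?_, ?_⟩
      · intro x hx
        rcases List.mem_cons.mp hx with rfl | hx
        · exact hclt
        · exact h1 x hx
      · rw [List.map_cons, List.map_cons, List.isChain_cons_cons]
        exact ⟨h.adj a hclt b hc.1, by rw [← List.map_cons]; exact h2⟩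

theorem Table.pathIn (h : Table l m A) {f c u : ℕ} (hc : c < l * m) (hu : u.testBit c = true)
    {p : List ℕ} (hp : p ∈ walks A f c u) :
    PathIn (rectB l m) (col m c) (col m (p.getLastD 0)) (p.map (col m)) := by
  obtain ⟨t, rfl, h1, h2, h3⟩ := walks_spec _ _ _ _ hp
  obtain ⟨h4, h5⟩ := h.chain _ h3 c hc rfl
  refine ⟨rfl, getLast?_map_eq (List.cons_ne_nil _ _) m, ?_, h5, ?_⟩
  · refine List.Nodup.map (fun a b => col_inj) ?_
    rw [List.nodup_cons]
    refine ⟨fun hct => ?_, h1⟩
    rw [h2 c hct] at hu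
    simp at hu
  · intro d hd
    rw [List.mem_map] at hd
    obtain ⟨x, hx, rfl⟩ := hd
    exact (mem_rectB _).mpr ⟨x, h4 x hx, rfl⟩

/-- the marks of two columns -/
def u2 (i j : ℕ) : ℕ := 1 <<< i ||| 1 <<< j

theorem testBit_u2 (i j x : ℕ) : (u2 i j).testBit x = true ↔ x = i ∨ x = j := by
  unfold u2
  rw [Nat.testBit_or, Bool.or_eq_true, testBit_one_shiftLeft, testBit_one_shiftLeft,
    decide_eq_true_eq, decide_eq_true_eq]
  tauto

theorem Table.links (h : Table l m A) {F i j : ℕ} (hi : i < l * m) (hj : j < l * m) (hij : i ≠ j)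
    {p q : List ℕ} (hp : p ∈ walks A F i (u2 i j)) (hq : q ∈ walks A F j (um (u2 i j) p)) :
    (p.map (col m), q.map (col m)) ∈ Links (rectB l m) (col m i, col m j)
      (col m (p.getLastD 0), col m (q.getLastD 0)) := by
  have hij2 : (um (u2 i j) p).testBit j = true := by
    rw [testBit_um, testBit_u2]; exact Or.inl (Or.inr rfl)
  refine ⟨h.pathIn hi (by rw [testBit_u2]; exact Or.inl rfl) hp, h.pathIn hj hij2 hq, ?_⟩
  obtain ⟨t, rfl, h1, h2, h3⟩ := walks_spec _ _ _ _ hp
  obtain ⟨t', rfl, h1', h2', h3'⟩ := walks_spec _ _ _ _ hq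
  have key : ∀ x, x ∈ i :: t → x ∈ j :: t' → False := by
    intro x hx hx'
    rcases List.mem_cons.mp hx' with rfl | hx'
    · rcases List.mem_cons.mp hx with h4 | hx
      · exact hij h4.symm
      · have := h2 x hx
        have h5 : (u2 i x).testBit x = true := by rw [testBit_u2]; exact Or.inr rfl
        rw [h5] at this
        simp at this
    · have := h2' x hx'
      have h5 : (um (u2 i j) (i :: t)).testBit x = true := by
        rw [testBit_um, testBit_u2]
        rcases List.mem_cons.mp hx with h4 | hx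
        · exact Or.inl (Or.inl h4)
        · exact Or.inr hx
      rw [h5] at this
      simp at this
  rw [List.disjoint_left]
  intro a ha ha'
  rw [List.mem_map] at ha ha'
  obtain ⟨x, hx, rfl⟩ := ha
  obtain ⟨y, hy, hxy⟩ := ha'
  rw [col_inj hxy] at hy
  exact key x hx hy

/-- the pairs of paths -/
def prs (A : ℕ → List ℕ) (F i j : ℕ) : List (List ℕ × List ℕ) :=
  (walks A F i (u2 i j)).flatMap fun p => (walks A F j (um (u2 i j) p)).map fun q => (p, q)

theorem mem_prs {F i j : ℕ} {x : List ℕ × List ℕ} : x ∈ prs A F i j ↔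
    x.1 ∈ walks A F i (u2 i j) ∧ x.2 ∈ walks A F j (um (u2 i j) x.1) := by
  unfold prs
  rw [List.mem_flatMap]
  constructor
  · rintro ⟨p, hp, h⟩
    rw [List.mem_map] at h
    obtain ⟨q, hq, rfl⟩ := h
    exact ⟨hp, hq⟩
  · rintro ⟨h1, h2⟩
    exact ⟨x.1, h1, List.mem_map.mpr ⟨x.2, h2, rfl⟩⟩

theorem prs_nodup (hA : ∀ c, (A c).Nodup) (F i j : ℕ) : (prs A F i j).Nodup := by
  unfold prs
  rw [List.nodup_flatMap]
  constructor
  · intro p _
    exact (walks_nodup hA _ _ _).map fun a b h => (Prod.mk.inj h).2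
  · refine (walks_nodup hA _ _ _).imp_of_mem ?_
    intro p p' _ _ hne
    rw [Function.onFun, List.disjoint_left]
    intro x hx hx'
    rw [List.mem_map] at hx hx'
    obtain ⟨q, _, rfl⟩ := hx
    obtain ⟨q', _, h⟩ := hx'
    exact hne (Prod.mk.inj h).1.symm

/-- lower bound of the transfer sum -/
theorem Table.transfer (h : Table l m A) {F i j : ℕ} (hi : i < l * m) (hj : j < l * m)
    (hij : i ≠ j) {z : ℝ} (hz : 0 < z) (v : (ℤ × ℤ) × (ℤ × ℤ) → ℝ) (hv : ∀ s, 0 ≤ v s) :
    ((prs A F i j).map fun x => z ^ (x.1.length - 1 + (x.2.length - 1)) *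
      v (col m (x.1.getLastD 0), col m (x.2.getLastD 0))).sum ≤
    ∑ s' ∈ rectB l m ×ˢ rectB l m, linkGF (rectB l m) z (col m i, col m j) s' * v s' := by
  classical
  set e : List ℕ × List ℕ → (ℤ × ℤ) × (ℤ × ℤ) :=
    fun x => (col m (x.1.getLastD 0), col m (x.2.getLastD 0)) with he
  have hl : ∀ x ∈ prs A F i j, (x.1.map (col m), x.2.map (col m)) ∈
      Links (rectB l m) (col m i, col m j) (e x) := by
    intro x hx
    rw [mem_prs] at hx
    exact h.links hi hj hij hx.1 hx.2
  rw [← List.sum_toFinset _ (prs_nodup h.nodup F i j)]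
  have hmaps : ∀ x ∈ (prs A F i j).toFinset, e x ∈ rectB l m ×ˢ rectB l m := by
    intro x hx
    rw [List.mem_toFinset] at hx
    obtain ⟨h1, h2, _⟩ := hl x hx
    rw [Finset.mem_product]
    refine ⟨h1.2.2.2.2 _ ?_, h2.2.2.2.2 _ ?_⟩
    · exact List.mem_of_getLast? h1.2.1
    · exact List.mem_of_getLast? h2.2.1
  rw [← Finset.sum_fiberwise_of_maps_to hmaps]
  refine Finset.sum_le_sum fun s' _ => ?_
  have hfin := finite_links (rectB l m) (col m i, col m j) s'
  unfold linkGF
  rw [finsum_mem_eq_finite_toFinset_sum _ hfin, Finset.sum_mul]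
  set φ : List ℕ × List ℕ → List (ℤ × ℤ) × List (ℤ × ℤ) :=
    fun x => (x.1.map (col m), x.2.map (col m)) with hφ
  have hinj : Function.Injective φ := by
    rintro ⟨a, b⟩ ⟨a', b'⟩ hab
    rw [hφ] at hab
    simp only [Prod.mk.injEq] at hab
    exact Prod.ext (List.map_injective_iff.mpr (fun a b => col_inj) hab.1)
      (List.map_injective_iff.mpr (fun a b => col_inj) hab.2)
  calc ∑ x ∈ (prs A F i j).toFinset with e x = s',
        z ^ (x.1.length - 1 + (x.2.length - 1)) * v (e x)
      = ∑ x ∈ ((prs A F i j).toFinset.filter fun x => e x = s').image φ,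
        z ^ (x.1.length - 1 + (x.2.length - 1)) * v s' := by
        rw [Finset.sum_image (fun a _ b _ hab => hinj hab)]
        refine Finset.sum_congr rfl fun x hx => ?_
        rw [Finset.mem_filter] at hx
        rw [hx.2, hφ]
        simp only [List.length_map]
    _ ≤ _ := by
        refine Finset.sum_le_sum_of_subset_of_nonneg ?_ ?_
        · intro y hy
          rw [Finset.mem_image] at hy
          obtain ⟨x, hx, rfl⟩ := hy
          rw [Finset.mem_filter, List.mem_toFinset] at hx
          rw [Set.Finite.mem_toFinset, ← hx.2]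
          exact hl x hx.1
        · intro y _ _
          exact mul_nonneg (pow_nonneg hz.le _) (hv _)

/-- the sum over pairs of paths as computed -/
def kT (A : ℕ → List ℕ) (N D : ℕ) (V : ℕ → ℕ → ℕ) (F i j : ℕ) : ℕ :=
  kS A N D (fun c w => kS A N D (fun d _ => V c d) F j w) F i (u2 i j)

theorem kT_eq (N D : ℕ) (hD : 0 < D) (V : ℕ → ℕ → ℕ) (F i j : ℕ) :
    (kT A N D V F i j : ℝ) = (D : ℝ) ^ (2 * F) * ((prs A F i j).map fun x =>
      ((N : ℝ) / D) ^ (x.1.length - 1 + (x.2.length - 1)) *
        (V (x.1.getLastD 0) (x.2.getLastD 0) : ℝ)).sum := by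
  unfold kT prs
  rw [kS_eq N D hD, List.map_flatMap]
  have hsum : ∀ (L : List (List ℕ)) (f : List ℕ → List ℝ),
      (L.flatMap f).sum = (L.map fun a => (f a).sum).sum := by
    intro L f
    induction L with
    | nil => rfl
    | cons a L ih => rw [List.flatMap_cons, List.sum_append, ih, List.map_cons, List.sum_cons]
  rw [hsum, two_mul, pow_add, mul_assoc]
  congr 1
  rw [← List.sum_map_mul_left]
  congr 1
  apply List.map_congr_left
  intro p _
  simp only [List.map_map, Function.comp_def]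
  rw [kS_eq N D hD]
  simp only [pow_add, mul_assoc]
  rw [List.sum_map_mul_left]
  ring

end Pool.Agent.LatticeTube.G6
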