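import Pool.Agent.LatticeTube.G6b

/-! Tools for the certificates of part [G], small tubes: the bound of `hPoly`. -/

set_option autoImplicit false

open Pool.Agent.LK

namespace Pool.Agent.LatticeTube.G6

/-- degree of a column in a set of edges -/
noncomputable def dg (X : Finset (Sym2 (ℤ × ℤ))) (c : ℤ × ℤ) : ℕ := {d | s(c, d) ∈ X}.ncard

theorem dg_finite (X : Finset (Sym2 (ℤ × ℤ))) (c : ℤ × ℤ) : {d | s(c, d) ∈ X}.Finite := by
  have h : Function.Injective (fun d : ℤ × ℤ => s(c, d)) := by
    intro a b h
    exact Sym2.congr_right.mp h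
  exact X.finite_toSet.preimage h.injOn

theorem dg_mono {X Y : Finset (Sym2 (ℤ × ℤ))} (h : X ⊆ Y) (c : ℤ × ℤ) : dg X c ≤ dg Y c :=
  Set.ncard_le_ncard (fun _ hd => h hd) (dg_finite Y c)

theorem dg_insert {T : Finset (Sym2 (ℤ × ℤ))} {c d : ℤ × ℤ} (h : s(c, d) ∉ T) :
    dg (insert s(c, d) T) c = dg T c + 1 := by
  unfold dg
  have h2 : {x | s(c, x) ∈ insert s(c, d) T} = insert d {x | s(c, x) ∈ T} := by
    ext x
    simp only [Finset.mem_insert, Sym2.congr_right, Set.mem_insert_iff, Set.mem_ofPred_eq]
  have hf := dg_finite T c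
  rw [h2]
  exact Set.ncard_insert_of_notMem (s := {x | s(c, x) ∈ T}) h hf

/-- the edge with number `e` -/
def edge (m : ℕ) (e : ℕ × ℕ) : Sym2 (ℤ × ℤ) := s(col m e.1, col m e.2)

/-- the sum over the sets of edges with degrees at most two, multiplied by `D ^ length` -/
def kH (N D : ℕ) : List (ℕ × ℕ) → ℕ → ℕ → ℕ
  | [], _, _ => 1
  | e :: es, M1, M2 => D * kH N D es M1 M2 +
      bif M2.testBit e.1 || M2.testBit e.2 then 0
      else N * kH N D es (M1 ||| u2 e.1 e.2) (M2 ||| (M1 &&& u2 e.1 e.2))

theorem dg_insert_edge {m : ℕ} {e : ℕ × ℕ} {T : Finset (Sym2 (ℤ × ℤ))} (h : edge m e ∉ T) {k : ℕ}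
    (hk : (u2 e.1 e.2).testBit k = true) :
    dg (insert (edge m e) T) (col m k) = dg T (col m k) + 1 := by
  rw [testBit_u2] at hk
  rcases hk with rfl | rfl
  · exact dg_insert h
  · unfold edge at h ⊢
    rw [Sym2.eq_swap] at h ⊢
    exact dg_insert h

theorem kH_bound (N D : ℕ) (hD : 0 < D) (m : ℕ) : ∀ (es : List (ℕ × ℕ))
    (T : Finset (Sym2 (ℤ × ℤ))) (M1 M2 : ℕ), (es.map (edge m)).Nodup →
    (∀ e ∈ es, edge m e ∉ T) → (∀ k, M1.testBit k = true → 1 ≤ dg T (col m k)) →
    (∀ k, M2.testBit k = true → 2 ≤ dg T (col m k)) →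
    ∑ S ∈ (es.map (edge m)).toFinset.powerset, (open scoped Classical in
      if ∀ c, dg (S ∪ T) c ≤ 2 then ((N : ℝ) / D) ^ S.card else 0) ≤
      (kH N D es M1 M2 : ℝ) / (D : ℝ) ^ es.length := by
  classical
  intro es
  induction es with
  | nil =>
    intro T M1 M2 _ _ _ _
    simp only [List.map_nil, List.toFinset_nil, Finset.powerset_empty, Finset.sum_singleton, kH,
      Finset.card_empty, pow_zero, List.length_nil, Nat.cast_one, div_one]
    split_ifs
    · exact le_rfl
    · exact zero_le_one
  | cons e es ih =>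
    intro T M1 M2 hnd hT h1 h2
    have hD' : (0 : ℝ) < D := by exact_mod_cast hD
    rw [List.map_cons, List.nodup_cons] at hnd
    have he : edge m e ∉ (es.map (edge m)).toFinset := by
      rw [List.mem_toFinset]; exact hnd.1
    rw [List.map_cons, List.toFinset_cons, Finset.sum_powerset_insert he]
    have hA := ih T M1 M2 hnd.2 (fun e' he' => hT e' (List.mem_cons_of_mem _ he')) h1 h2
    have heT : edge m e ∉ T := hT e List.mem_cons_self
    have hB : ∑ t ∈ (es.map (edge m)).toFinset.powerset,
        (if ∀ c, dg (insert (edge m e) t ∪ T) c ≤ 2 then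
          ((N : ℝ) / D) ^ (insert (edge m e) t).card else 0) ≤
        ((bif M2.testBit e.1 || M2.testBit e.2 then 0
      else N * kH N D es (M1 ||| u2 e.1 e.2) (M2 ||| (M1 &&& u2 e.1 e.2)) : ℕ) : ℝ) /
        (D : ℝ) ^ (es.length + 1) := by
      have hins : ∀ t : Finset (Sym2 (ℤ × ℤ)), insert (edge m e) t ∪ T =
          t ∪ insert (edge m e) T := by
        intro t
        rw [Finset.insert_union, Finset.union_insert]
      cases hM : (M2.testBit e.1 || M2.testBit e.2) with
      | true =>
        rw [cond_true, Nat.cast_zero, zero_div]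
        refine le_of_eq (Finset.sum_eq_zero fun t _ => ?_)
        rw [if_neg]
        intro hall
        rw [Bool.or_eq_true] at hM
        have key : ∀ k, (u2 e.1 e.2).testBit k = true → M2.testBit k = true → False := by
          intro k hk hk2
          have h3 := h2 k hk2
          have h4 := dg_insert_edge heT hk
          have h5 := dg_mono (X := insert (edge m e) T) (Y := t ∪ insert (edge m e) T)
            Finset.subset_union_right (col m k)
          have h6 := hall (col m k)
          rw [hins] at h6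
          omega
        rcases hM with h | h
        · exact key e.1 (by rw [testBit_u2]; exact Or.inl rfl) h
        · exact key e.2 (by rw [testBit_u2]; exact Or.inr rfl) h
      | false =>
        rw [cond_false]
        have hC := ih (insert (edge m e) T) (M1 ||| u2 e.1 e.2) (M2 ||| (M1 &&& u2 e.1 e.2)) hnd.2
          (by
            intro e' he'
            rw [Finset.mem_insert, not_or]
            refine ⟨?_, hT e' (List.mem_cons_of_mem _ he')⟩
            intro hee
            exact hnd.1 (hee ▸ List.mem_map_of_mem he'))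
          (by
            intro k hk
            rw [Nat.testBit_or, Bool.or_eq_true] at hk
            rcases hk with hk | hk
            · exact (h1 k hk).trans (dg_mono (Finset.subset_insert _ _) _)
            · rw [dg_insert_edge heT hk]; omega)
          (by
            intro k hk
            rw [Nat.testBit_or, Bool.or_eq_true, Nat.testBit_and, Bool.and_eq_true] at hk
            rcases hk with hk | hk
            · exact (h2 k hk).trans (dg_mono (Finset.subset_insert _ _) _)
            · rw [dg_insert_edge heT hk.2]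
              have := h1 k hk.1
              omega)
        calc _ = ((N : ℝ) / D) * ∑ t ∈ (es.map (edge m)).toFinset.powerset,
              (if ∀ c, dg (t ∪ insert (edge m e) T) c ≤ 2 then ((N : ℝ) / D) ^ t.card else 0) := by
              rw [Finset.mul_sum]
              refine Finset.sum_congr rfl fun t ht => ?_
              rw [Finset.mem_powerset] at ht
              rw [hins, Finset.card_insert_of_notMem (fun h => he (ht h)), mul_ite, mul_zero,
                pow_succ, mul_comm (((N : ℝ) / D) ^ t.card)]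
          _ ≤ ((N : ℝ) / D) * ((kH N D es (M1 ||| u2 e.1 e.2) (M2 ||| (M1 &&& u2 e.1 e.2)) : ℝ) /
              (D : ℝ) ^ es.length) := mul_le_mul_of_nonneg_left hC (by positivity)
          _ = _ := by
              push_cast
              rw [pow_succ]
              field_simp
    calc _ ≤ (kH N D es M1 M2 : ℝ) / (D : ℝ) ^ es.length + _ := add_le_add hA hB
      _ = _ := by
        rw [kH, List.length_cons]
        push_cast
        rw [add_div]
        congr 1
        rw [pow_succ]
        field_simp

/-- The list `es` contains all edges between the columns of `rectB l m`, each one once. -/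
structure Edges (l m : ℕ) (es : List (ℕ × ℕ)) : Prop where
  nodup : es.Nodup
  lt : ∀ e ∈ es, e.1 < e.2
  all : ∀ i < l * m, ∀ j < l * m, i < j ∧ Adj2 (col m i) (col m j) → (i, j) ∈ es

theorem edge_inj {m : ℕ} {e e' : ℕ × ℕ} (h1 : e.1 < e.2) (h2 : e'.1 < e'.2)
    (h : edge m e = edge m e') : e = e' := by
  unfold edge at h
  rw [Sym2.eq_iff] at h
  rcases h with ⟨h3, h4⟩ | ⟨h3, h4⟩
  · exact Prod.ext (col_inj h3) (col_inj h4)
  · have := col_inj h3
    have := col_inj h4
    omega

theorem adj2_symm {c d : ℤ × ℤ} (h : Adj2 c d) : Adj2 d c := by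
  unfold Adj2 at h ⊢
  rw [abs_sub_comm d.1, abs_sub_comm d.2]
  exact h

theorem Edges.hPoly_le {l m : ℕ} {es : List (ℕ × ℕ)} (h : Edges l m es) (N D : ℕ) (hD : 0 < D) :
    hPoly (rectB l m) ((N : ℝ) / D) ≤ (kH N D es 0 0 : ℝ) / (D : ℝ) ^ es.length := by
  classical
  have hsub : ∀ H, HSet (rectB l m) H →
      H ∈ (es.map (edge m)).toFinset.powerset ∧ ∀ c, dg (H ∪ ∅) c ≤ 2 := by
    intro H hH
    refine ⟨?_, ?_⟩
    · rw [Finset.mem_powerset]
      intro e he
      induction e with
      | _ c d =>
        obtain ⟨hc, hd, hcd⟩ := hH.1 c d he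
        rw [mem_rectB] at hc hd
        obtain ⟨i, hi, rfl⟩ := hc
        obtain ⟨j, hj, rfl⟩ := hd
        rw [List.mem_toFinset, List.mem_map]
        rcases lt_trichotomy i j with hij | hij | hij
        · exact ⟨(i, j), h.all i hi j hj ⟨hij, hcd⟩, rfl⟩
        · subst hij
          unfold Adj2 at hcd
          simp at hcd
        · exact ⟨(j, i), h.all j hj i hi ⟨hij, adj2_symm hcd⟩, Sym2.eq_swap⟩
    · intro c
      rw [Finset.union_empty]
      exact hH.2 c
  have hfin : {H | HSet (rectB l m) H}.Finite :=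
    ((es.map (edge m)).toFinset.powerset.finite_toSet).subset fun H hH => (hsub H hH).1
  unfold hPoly
  rw [finsum_mem_eq_finite_toFinset_sum _ hfin]
  have hb := kH_bound N D hD m es ∅ 0 0
    (by
      refine List.Nodup.map_on ?_ h.nodup
      intro a ha b hb hab
      exact edge_inj (h.lt a ha) (h.lt b hb) hab)
    (by intro e _; exact Finset.notMem_empty _)
    (by intro k hk; simp at hk) (by intro k hk; simp at hk)
  refine le_trans ?_ hb
  rw [← Finset.sum_filter]
  refine Finset.sum_le_sum_of_subset_of_nonneg ?_ ?_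
  · intro H hH
    rw [Set.Finite.mem_toFinset] at hH
    rw [Finset.mem_filter]
    exact hsub H hH
  · intro H _ _
    positivity

/-- The number of a column. -/
def num (m : ℕ) (c : ℤ × ℤ) : ℕ := c.1.toNat * m + c.2.toNat

theorem num_col (m i : ℕ) : num m (col m i) = i := by
  unfold num col
  simp only [Int.toNat_natCast]
  rw [Nat.mul_comm]
  exact Nat.div_add_mod i m

/-- The certificate from a finite check. -/
theorem cert_of {l m : ℕ} {A : ℕ → List ℕ} (hA : Table l m A) {es : List (ℕ × ℕ)}
    (he : Edges l m es) (N N' D F : ℕ) (V : ℕ → ℕ → ℕ) (hN : 0 < N) (hNN : N < N') (hND : N' ≤ D)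
    (h1 : 1 < l * m) (hV : 0 < V 0 1)
    (hT : ∀ i < l * m, ∀ j < l * m, i ≠ j → V i j * D ^ (2 * F + 2) ≤ N ^ 2 * kT A N D V F i j)
    (hH : N' ^ 4 * kH N' D es 0 0 < D ^ (4 + es.length)) : Certificate (rectB l m) := by
  have hD : 0 < D := by omega
  have hD' : (0 : ℝ) < D := by exact_mod_cast hD
  refine ⟨(N : ℝ) / D, (N' : ℝ) / D, ?_, ?_, ?_, ?_, ?_⟩
  · have : (0 : ℝ) < N := by exact_mod_cast hN
    positivity
  · rw [div_lt_div_iff_of_pos_right hD']
    exact_mod_cast hNN
  · rw [div_le_one hD']
    exact_mod_cast hND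
  · have h2 := he.hPoly_le N' D hD
    calc ((N' : ℝ) / D) ^ 4 * hPoly (rectB l m) ((N' : ℝ) / D)
        ≤ ((N' : ℝ) / D) ^ 4 * ((kH N' D es 0 0 : ℝ) / (D : ℝ) ^ es.length) :=
          mul_le_mul_of_nonneg_left h2 (by positivity)
      _ = ((N' ^ 4 * kH N' D es 0 0 : ℕ) : ℝ) / ((D ^ (4 + es.length) : ℕ) : ℝ) := by
          push_cast
          rw [pow_add, div_pow]
          field_simp
      _ < 1 := by
          rw [div_lt_one (by exact_mod_cast pow_pos hD _)]
          exact_mod_cast hH
  · refine ⟨fun s => (V (num m s.1) (num m s.2) : ℝ), fun s => Nat.cast_nonneg _, ?_, ?_⟩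
    · refine ⟨(col m 0, col m 1), ?_, ?_, ?_, ?_⟩
      · simp only [num_col]
        exact_mod_cast hV
      · exact (mem_rectB _).mpr ⟨0, by omega, rfl⟩
      · exact (mem_rectB _).mpr ⟨1, by omega, rfl⟩
      · intro h
        exact absurd (col_inj h) (by omega)
    · intro a ha b hb hab
      rw [mem_rectB] at ha hb
      obtain ⟨i, hi, rfl⟩ := ha
      obtain ⟨j, hj, rfl⟩ := hb
      have hij : i ≠ j := fun h => hab (by rw [h])
      have hz : (0 : ℝ) < (N : ℝ) / D := by
        have : (0 : ℝ) < N := by exact_mod_cast hN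
        positivity
      have h3 := hA.transfer (F := F) hi hj hij hz
        (fun s => (V (num m s.1) (num m s.2) : ℝ)) (fun s => Nat.cast_nonneg _)
      have h4 := kT_eq (A := A) N D hD V F i j
      have h5 := hT i hi j hj hij
      simp only [num_col] at h3 ⊢
      set S0 := ((prs A F i j).map fun x => ((N : ℝ) / D) ^ (x.1.length - 1 + (x.2.length - 1)) *
        (V (x.1.getLastD 0) (x.2.getLastD 0) : ℝ)).sum
      calc (V i j : ℝ) ≤ ((N : ℝ) / D) ^ 2 * S0 := by
            have h6 : ((V i j : ℝ)) * (D : ℝ) ^ (2 * F + 2) ≤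
                (N : ℝ) ^ 2 * ((D : ℝ) ^ (2 * F) * S0) := by
              rw [← h4]
              exact_mod_cast h5
            rw [pow_add, ← mul_assoc] at h6
            have h7 : (0 : ℝ) < (D : ℝ) ^ (2 * F) := by positivity
            rw [div_pow, div_mul_eq_mul_div, le_div_iff₀ (by positivity)]
            refine le_of_mul_le_mul_right ?_ h7
            calc _ = (V i j : ℝ) * (D : ℝ) ^ (2 * F) * (D : ℝ) ^ 2 := by ring
              _ ≤ _ := h6
              _ = _ := by ring
        _ ≤ _ := mul_le_mul_of_nonneg_left h3 (by positivity)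

end Pool.Agent.LatticeTube.G6
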