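import Pool.Agent.MP_aea6d5_co.Defs

/-! Tubes, sections, the gap property (tube theorem for MP_aea6d5, part [G]). -/

set_option autoImplicit false

open Pool.Agent.LK

namespace Pool.Agent.LatticeTube

/-- Edge sets. -/
abbrev ES := Finset (Sym2 P3)

/-- All vertices of `E` lie over the finite set `B` of columns. -/
def InTube (B : Finset (ℤ × ℤ)) (E : ES) : Prop := ∀ u ∈ verts E, (u.1, u.2.1) ∈ B

/-- The lowest level of `E` is `0`. -/
def NormZ (E : ES) : Prop := (∀ u ∈ verts E, 0 ≤ u.2.2) ∧ ∃ u ∈ verts E, u.2.2 = 0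

/-- The section of `E` at height `k + 1/2`: the columns of the vertical edges from level `k` to
level `k + 1`. -/
def sect (E : ES) (k : ℤ) : Set (ℤ × ℤ) := {c | s((c.1, c.2, k), (c.1, c.2, k + 1)) ∈ E}

/-- The height of `E`: the number of its nonempty sections. -/
noncomputable def span (E : ES) : ℕ := {k : ℤ | (sect E k).Nonempty}.ncard

/-- The number of sections with exactly two edges. -/
noncomputable def numTwo (E : ES) : ℕ := {k : ℤ | (sect E k).ncard = 2}.ncard

/-- The polygons in the tube over `B`, up to vertical translation. -/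
def Poly (B : Finset (ℤ × ℤ)) : Type := {E : ES // IsPolygon E ∧ InTube B E ∧ NormZ E}

/-- The unknotted ones. -/
def UPoly (B : Finset (ℤ × ℤ)) : Type :=
  {E : ES // IsPolygon E ∧ Unknotted E ∧ InTube B E ∧ NormZ E}

/-- The number of vertical edges. -/
noncomputable def vert (E : ES) : ℕ := {e : Sym2 P3 | e ∈ E ∧ ∃ x y k : ℤ, e = s((x, y, k), (x, y, k + 1))}.ncard

/-- GAP PROPERTY of the tube over `B` with tension `y`: at some fugacity `z` beyond the critical
one of the unknots, polygons with few two-sections have a finite generating function. -/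
def Gap (B : Finset (ℤ × ℤ)) (y : ℝ) : Prop := ∃ z' z η : ℝ, 0 < z' ∧ z' < z ∧ 0 < η ∧
  Summable (fun E : Poly B => z ^ E.1.card * y ^ span E.1 * η ^ numTwo E.1) ∧
  ¬ Summable (fun E : UPoly B => z' ^ E.1.card * y ^ span E.1)

end Pool.Agent.LatticeTube
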