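import Pool.Agent.LatticeTube.GapDefs

/-! Statements of part [G] (gap property) of the tube theorem. -/

set_option autoImplicit false

open Pool.Agent.LK

namespace Pool.Agent.LatticeTube

/-- (G1) sections and vertical edges. Every nonempty section of a polygon has an even number `≥ 2`
of edges, so `4 * span ≤ vert + 2 * numTwo`; the nonempty sections of a polygon with lowest level
`0` are those at heights `0, …, span - 1`. -/
def SectionStatement : Prop :=
  (∀ E, IsPolygon E → 4 * span E ≤ vert E + 2 * numTwo E) ∧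
  (∀ E, IsPolygon E → NormZ E → ∀ k : ℤ, (sect E k).Nonempty ↔ 0 ≤ k ∧ k < span E)

/-- Neighbouring columns. -/
def Adj2 (c d : ℤ × ℤ) : Prop := |c.1 - d.1| + |c.2 - d.2| = 1

/-- The set `H` of edges between columns of `B` may be the set of horizontal edges of a polygon at
some level: all its edges join neighbouring columns of `B` and every column has degree `≤ 2`. -/
def HSet (B : Finset (ℤ × ℤ)) (H : Finset (Sym2 (ℤ × ℤ))) : Prop :=
  (∀ c d, s(c, d) ∈ H → c ∈ B ∧ d ∈ B ∧ Adj2 c d) ∧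
    ∀ c, {d | s(c, d) ∈ H}.ncard ≤ 2

/-- The generating function of the sets `H`. -/
noncomputable def hPoly (B : Finset (ℤ × ℤ)) (z : ℝ) : ℝ :=
  ∑ᶠ H ∈ {H | HSet B H}, z ^ H.card

/-- (G2) layers: a polygon is determined by its horizontal edges at the levels `0, …, span`;
`card E = ∑ (horizontal edges) + ∑ |sections|` and `|section| + 2 * [|section| = 2] ≥ 4`. -/
def LayerStatement : Prop := ∀ (B : Finset (ℤ × ℤ)) (y z : ℝ), 0 < y → 0 < z → z ≤ 1 →
  y * z ^ 4 * hPoly B z < 1 →
  Summable fun E : Poly B => z ^ E.1.card * y ^ span E.1 * (z ^ 2) ^ numTwo E.1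

/-- (G3) words: polygons are non-reversing closed walks; vertical steps have weight `x`. -/
def WordStatement : Prop := ∀ (B : Finset (ℤ × ℤ)) (x z : ℝ), 1 ≤ x → 0 < z →
  (x + 3) * z + 5 * x * z ^ 2 < 1 →
  Summable fun E : Poly B => z ^ E.1.card * x ^ vert E.1

/-- The vertical rectangle of height `h` over the columns `(a, b)`, `(a + 1, b)`. -/
def vrect (a b : ℤ) (h : ℕ) : ES :=
  {s((a, b, 0), (a + 1, b, 0)), s((a, b, (h : ℤ)), (a + 1, b, (h : ℤ)))} ∪
    (Finset.range h).image (fun k : ℕ => s((a, b, (k : ℤ)), (a, b, (k : ℤ) + 1))) ∪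
    (Finset.range h).image (fun k : ℕ => s((a + 1, b, (k : ℤ)), (a + 1, b, (k : ℤ) + 1)))

/-- (G4a) vertical rectangles. -/
def VRectStatement : Prop := ∀ (a b : ℤ) (h : ℕ), 1 ≤ h →
  IsPolygon (vrect a b h) ∧ Unknotted (vrect a b h) ∧ NormZ (vrect a b h) ∧
    (vrect a b h).card = 2 * h + 2 ∧ span (vrect a b h) = h ∧
    ∀ u ∈ verts (vrect a b h), (u.1, u.2.1) = (a, b) ∨ (u.1, u.2.1) = (a + 1, b)

/-- (G4) the gap under tension, for every tube. -/
def TensionStatement : Prop := ∀ (B : Finset (ℤ × ℤ)) (a b : ℤ), (a, b) ∈ B → (a + 1, b) ∈ B →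
  ∀ y : ℝ, 58 ≤ y → Gap B y

end Pool.Agent.LatticeTube
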