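import Pool.Agent.LatticeTube.G6
import Pool.Agent.LatticeTube.SmallGap

/-! Small tubes with tension: certificates on a grid of fugacities. -/

set_option autoImplicit false

open Pool.Agent.LK Set

namespace Pool.Agent.LatticeTube

/-- The gap property from a vector. -/
theorem gap_of_vec {B : Finset (ℤ × ℤ)} (hconn : ∀ a ∈ B, ∀ b ∈ B, ∃ p, PathIn B a b p)
    {y z z' : ℝ} (hy : 0 < y) (hz' : 0 < z') (hlt : z' < z) (hz1 : z ≤ 1)
    (hcert : y * z ^ 4 * hPoly B z < 1) (v : (ℤ × ℤ) × (ℤ × ℤ) → ℝ) (hv : ∀ s, 0 ≤ v s)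
    (hv1 : ∃ s, 0 < v s ∧ s.1 ∈ B ∧ s.2 ∈ B ∧ s.1 ≠ s.2)
    (hv2 : ∀ a ∈ B, ∀ b ∈ B, a ≠ b →
      v (a, b) ≤ y * z' ^ 2 * ∑ s' ∈ B ×ˢ B, linkGF B z' (a, b) s' * v s') : Gap B y := by
  have hz : 0 < z := hz'.trans hlt
  refine ⟨z', z, z ^ 2, hz', hlt, by positivity, ?_, ?_⟩
  · exact layerStatement sectionStatement B y z hy hz hz1 hcert
  · intro hs
    refine transferUD B y z' v hy hz' hv hv1 hv2 hconn ?_
    let f : {E : ES // IsPolygon E ∧ UD E ∧ InTube B E ∧ NormZ E} → UPoly B :=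
      fun E => ⟨E.1, E.2.1, unknotted_of_ud E.1 E.2.1 E.2.2.1, E.2.2.2.1, E.2.2.2.2⟩
    have hf : Function.Injective f := by
      intro E F hEF
      apply Subtype.ext
      exact congrArg (fun G : UPoly B => G.1) hEF
    exact (hs.comp_injective hf).congr fun E => rfl

namespace G6

/-- The certificate for one interval `[N1 / D, N2 / D]` of the grid; the lower bound is taken at
`N' / D`, slightly below `N1 / D`. -/
structure StepOK (l m : ℕ) (A : ℕ → List ℕ) (es : List (ℕ × ℕ)) (N' N1 N2 D F : ℕ)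
    (V : ℕ → ℕ → ℕ) : Prop where
  pos : 0 < N'
  lt : N' < N1
  le : N1 ≤ D
  one : 0 < V 0 1
  check : ∀ i < l * m, ∀ j < l * m, i ≠ j →
    V i j * (N2 ^ 4 * kH N2 D es 0 0) * D ^ (2 * F + 2) ≤
      N' ^ 2 * kT A N' D V F i j * D ^ (4 + es.length)

/-- the computed upper bound of `z ^ 4 * hPoly B z` at `z = N / D` -/
noncomputable def up (es : List (ℕ × ℕ)) (N D : ℕ) : ℝ :=
  ((N ^ 4 * kH N D es 0 0 : ℕ) : ℝ) / ((D ^ (4 + es.length) : ℕ) : ℝ)

theorem gap_of_step {l m : ℕ} {A : ℕ → List ℕ} (hA : Table l m A) {es : List (ℕ × ℕ)}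
    (he : Edges l m es)
    (hconn : ∀ a ∈ rectB l m, ∀ b ∈ rectB l m, ∃ p, PathIn (rectB l m) a b p)
    {N' N1 N2 D F : ℕ} {V : ℕ → ℕ → ℕ} (h : StepOK l m A es N' N1 N2 D F V) (h1 : 1 < l * m)
    {y : ℝ} (hy : 0 < y) (hy1 : y * up es N1 D < 1) (hy2 : 1 ≤ y * up es N2 D) :
    Gap (rectB l m) y := by
  have hD : 0 < D := by have := h.lt; have := h.le; omega
  have hD' : (0 : ℝ) < D := by exact_mod_cast hD
  have hN' : (0 : ℝ) < N' := by exact_mod_cast h.pos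
  refine gap_of_vec hconn (z' := (N' : ℝ) / D) (z := (N1 : ℝ) / D) hy (by positivity) ?_ ?_ ?_
    (fun s => (V (num m s.1) (num m s.2) : ℝ)) (fun s => Nat.cast_nonneg _) ?_ ?_
  · rw [div_lt_div_iff_of_pos_right hD']
    exact_mod_cast h.lt
  · rw [div_le_one hD']
    exact_mod_cast h.le
  · have h2 := he.hPoly_le N1 D hD
    refine lt_of_le_of_lt ?_ hy1
    rw [mul_assoc]
    refine mul_le_mul_of_nonneg_left ?_ hy.le
    calc ((N1 : ℝ) / D) ^ 4 * hPoly (rectB l m) ((N1 : ℝ) / D)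
        ≤ ((N1 : ℝ) / D) ^ 4 * ((kH N1 D es 0 0 : ℝ) / (D : ℝ) ^ es.length) :=
          mul_le_mul_of_nonneg_left h2 (by positivity)
      _ = up es N1 D := by
          unfold up
          push_cast
          rw [pow_add, div_pow]
          field_simp
  · refine ⟨(col m 0, col m 1), ?_, ?_, ?_, ?_⟩
    · simp only [num_col]
      exact_mod_cast h.one
    · exact (mem_rectB _).mpr ⟨0, by omega, rfl⟩
    · exact (mem_rectB _).mpr ⟨1, by omega, rfl⟩
    · intro h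
      exact absurd (col_inj h) (by omega)
  · intro a ha b hb hab
    rw [mem_rectB] at ha hb
    obtain ⟨i, hi, rfl⟩ := ha
    obtain ⟨j, hj, rfl⟩ := hb
    have hij : i ≠ j := fun h => hab (by rw [h])
    have hz : (0 : ℝ) < (N' : ℝ) / D := by positivity
    have h3 := hA.transfer (F := F) hi hj hij hz
      (fun s => (V (num m s.1) (num m s.2) : ℝ)) (fun s => Nat.cast_nonneg _)
    have h4 := kT_eq (A := A) N' D hD V F i j
    have h5 := h.check i hi j hj hij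
    simp only [num_col] at h3 ⊢
    set S0 := ((prs A F i j).map fun x => ((N' : ℝ) / D) ^ (x.1.length - 1 + (x.2.length - 1)) *
      (V (x.1.getLastD 0) (x.2.getLastD 0) : ℝ)).sum
    have hS0 : (V i j : ℝ) * up es N2 D ≤ ((N' : ℝ) / D) ^ 2 * S0 := by
      have h6 : (V i j : ℝ) * ((N2 ^ 4 * kH N2 D es 0 0 : ℕ) : ℝ) * (D : ℝ) ^ (2 * F + 2) ≤
          (N' : ℝ) ^ 2 * ((D : ℝ) ^ (2 * F) * S0) * ((D ^ (4 + es.length) : ℕ) : ℝ) := by
        rw [← h4]
        exact_mod_cast h5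
      have h7 : (0 : ℝ) < (D : ℝ) ^ (2 * F) := by positivity
      have h8 : (0 : ℝ) < ((D ^ (4 + es.length) : ℕ) : ℝ) := by exact_mod_cast pow_pos hD _
      have h9 : (0 : ℝ) < (D : ℝ) ^ 2 := by positivity
      unfold up
      rw [← mul_div_assoc, div_le_iff₀ h8, div_pow, div_mul_eq_mul_div, div_mul_eq_mul_div,
        le_div_iff₀ h9]
      refine le_of_mul_le_mul_right ?_ h7
      rw [pow_add] at h6
      calc _ = (V i j : ℝ) * ((N2 ^ 4 * kH N2 D es 0 0 : ℕ) : ℝ) *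
            ((D : ℝ) ^ (2 * F) * (D : ℝ) ^ 2) := by ring
        _ ≤ _ := h6
        _ = _ := by ring
    calc (V i j : ℝ) = (V i j : ℝ) * 1 := by ring
      _ ≤ (V i j : ℝ) * (y * up es N2 D) := mul_le_mul_of_nonneg_left hy2 (Nat.cast_nonneg _)
      _ = y * ((V i j : ℝ) * up es N2 D) := by ring
      _ ≤ y * (((N' : ℝ) / D) ^ 2 * S0) := mul_le_mul_of_nonneg_left hS0 hy.le
      _ = y * ((N' : ℝ) / D) ^ 2 * S0 := by ring
      _ ≤ _ := mul_le_mul_of_nonneg_left h3 (by positivity)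

/-- Chains of steps: a list of grid points with the certificates. -/
theorem gap_of_chain {l m : ℕ} {A : ℕ → List ℕ} (hA : Table l m A) {es : List (ℕ × ℕ)}
    (he : Edges l m es)
    (hconn : ∀ a ∈ rectB l m, ∀ b ∈ rectB l m, ∃ p, PathIn (rectB l m) a b p) (h1 : 1 < l * m)
    {D F : ℕ} {y : ℝ} (hy : 0 < y) :
    ∀ (L : List ℕ) (a : ℕ), (∀ (i : ℕ) (hi : i + 1 < (a :: L).length),
      ∃ N' V, StepOK l m A es N' (a :: L)[i] (a :: L)[i + 1] D F V) →
    y * up es a D < 1 → 1 ≤ y * up es ((a :: L).getLastD 0) D → Gap (rectB l m) y := by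
  intro L
  induction L with
  | nil =>
    intro a _ h2 h3
    simp only [List.getLastD_cons, List.getLastD_nil] at h3
    exact absurd h2 (not_lt.2 h3)
  | cons b L ih =>
    intro a hs h2 h3
    rcases lt_or_ge (y * up es b D) 1 with h4 | h4
    · refine ih b (fun i hi => ?_) h4 ?_
      · exact hs (i + 1) (by simpa using hi)
      · simpa only [List.getLastD_cons] using h3
    · obtain ⟨N', V, h5⟩ := hs 0 (by simp)
      exact gap_of_step hA he hconn h5 h1 hy h2 h4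

theorem gap_of_chain_nat {l m : ℕ} {A : ℕ → List ℕ} (hA : Table l m A) {es : List (ℕ × ℕ)}
    (he : Edges l m es)
    (hconn : ∀ a ∈ rectB l m, ∀ b ∈ rectB l m, ∃ p, PathIn (rectB l m) a b p) (h1 : 1 < l * m)
    {F : ℕ} {y : ℝ} (hy : 1 ≤ y) (hy2 : y < 58) (L : List ℕ) (a : ℕ)
    (hs : ∀ (i : ℕ) (hi : i + 1 < (a :: L).length),
      ∃ N' V, StepOK l m A es N' (a :: L)[i] (a :: L)[i + 1] 1000 F V)
    (h2 : 58 * (a ^ 4 * kH a 1000 es 0 0) < 1000 ^ (4 + es.length))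
    (h3 : 1000 ^ (4 + es.length) ≤
      ((a :: L).getLastD 0) ^ 4 * kH ((a :: L).getLastD 0) 1000 es 0 0) :
    Gap (rectB l m) y := by
  have hD : (0 : ℝ) < ((1000 ^ (4 + es.length) : ℕ) : ℝ) := by exact_mod_cast pow_pos (by norm_num) _
  refine gap_of_chain hA he hconn h1 (D := 1000) (F := F) (by linarith) L a hs ?_ ?_
  · unfold up
    have h4 : ((58 * (a ^ 4 * kH a 1000 es 0 0) : ℕ) : ℝ) < ((1000 ^ (4 + es.length) : ℕ) : ℝ) := by
      exact_mod_cast h2
    have h5 : (0 : ℝ) ≤ ((a ^ 4 * kH a 1000 es 0 0 : ℕ) : ℝ) := Nat.cast_nonneg _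
    rw [← mul_div_assoc, div_lt_one hD]
    rw [Nat.cast_mul] at h4
    push_cast at h4 h5 ⊢
    nlinarith
  · unfold up
    have h4 : ((1000 ^ (4 + es.length) : ℕ) : ℝ) ≤ ((((a :: L).getLastD 0) ^ 4 *
        kH ((a :: L).getLastD 0) 1000 es 0 0 : ℕ) : ℝ) := by exact_mod_cast h3
    rw [← mul_div_assoc, le_div_iff₀ hD, one_mul]
    refine h4.trans ?_
    exact le_mul_of_one_le_left (Nat.cast_nonneg _) hy

end G6

end Pool.Agent.LatticeTube
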