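import Pool.Agent.LatticeTube.GapSpec
import Pool.Agent.MP_aea6d5_co.PolyCyc

/-! Statements of part [G], small tubes: two-strand polygons are unknotted, and their number. -/

set_option autoImplicit false

open Pool.Agent.LK Set

namespace Pool.Agent.LatticeTube

/-- Two-strand polygons: there is a nonempty section and all nonempty sections have two edges. -/
def Mono (E : ES) : Prop :=
  (∃ k, (sect E k).Nonempty) ∧ ∀ k, (sect E k).Nonempty → (sect E k).ncard = 2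

/-- The cyclic sequence `g` of vertices of a polygon goes up weakly from time `0` to time `N`, then
down weakly until time `n`; the first and the last step of the upward part are horizontal, the
first and the last step of the downward part are vertical. -/
structure UpDown (n N : ℕ) (g : ℕ → P3) : Prop where
  two : 2 ≤ N
  lt : N < n
  up : ∀ i < N, (g i).2.2 ≤ (g (i + 1)).2.2
  down : ∀ i, N ≤ i → i < n → (g (i + 1)).2.2 ≤ (g i).2.2
  first : (g 1).2.2 = (g 0).2.2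
  last : (g (N - 1)).2.2 = (g N).2.2
  drop : (g (N + 1)).2.2 + 1 = (g N).2.2
  land : (g (n - 1)).2.2 = (g 0).2.2 + 1

/-- (M1) two-strand polygons are traversed once up and once down. -/
def MonoCycStatement : Prop := ∀ E, IsPolygon E → Mono E →
  ∃ (n N : ℕ) (g : ℕ → P3), Cyc E n g ∧ UpDown n N g

/-- Two strands over the interval `[0, T]`: continuous plane curves `a`, `b`, different on
`[t0, t1]`; on `[0, t0]` and `[t1, T]` the strand `b` is constant and `a` runs on a straight line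
from (to) the end of `b`. -/
structure Strands (t0 t1 T : ℝ) (a b : ℝ → ℝ × ℝ) : Prop where
  pos : 0 < t0
  lt : t0 < t1
  lt' : t1 < T
  conta : Continuous a
  contb : Continuous b
  ne : ∀ t ∈ Icc t0 t1, a t ≠ b t
  botb : ∀ t ∈ Icc 0 t0, b t = b 0
  bota : ∀ t ∈ Icc 0 t0, a t = (1 - t / t0) • b 0 + (t / t0) • a t0
  topb : ∀ t ∈ Icc t1 T, b t = b T
  topa : ∀ t ∈ Icc t1 T, a t = ((T - t) / (T - t1)) • a t1 + (1 - (T - t) / (T - t1)) • b T

/-- The closed curve formed by the two strands. -/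
def strandCurve (T : ℝ) (a b : ℝ → ℝ × ℝ) : Set R3 :=
  {x | ∃ t ∈ Icc (0 : ℝ) T, x = ((a t).1, (a t).2, t) ∨ x = ((b t).1, (b t).2, t)}

/-- (M2) lifting: a polygon traversed once up and once down is carried by a homeomorphism of space
to a curve with two strictly increasing strands. -/
def LiftStatement : Prop := ∀ E n N g, IsPolygon E → Cyc E n g → UpDown n N g →
  ∃ (t0 t1 T : ℝ) (a b : ℝ → ℝ × ℝ), Strands t0 t1 T a b ∧
    ∃ Θ : R3 ≃ₜ R3, Θ '' body E = strandCurve T a b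

/-- The quadrilateral with vertices `(x, z) = (1, 0), (0, t0), (0, t1), (1, T)` in the plane
`y = 0`. -/
def quad (t0 t1 T : ℝ) : Set R3 :=
  {x | x.2.1 = 0 ∧ ((x.1 = 1 ∧ 0 ≤ x.2.2 ∧ x.2.2 ≤ T) ∨ (x.1 = 0 ∧ t0 ≤ x.2.2 ∧ x.2.2 ≤ t1) ∨
    (0 ≤ x.2.2 ∧ x.2.2 ≤ t0 ∧ x.1 = 1 - x.2.2 / t0) ∨
    (t1 ≤ x.2.2 ∧ x.2.2 ≤ T ∧ x.1 = (x.2.2 - t1) / (T - t1)))}

/-- (M3) straightening of two strands by plane similarities. -/
def StraightenStatement : Prop := ∀ (t0 t1 T : ℝ) (a b : ℝ → ℝ × ℝ), Strands t0 t1 T a b →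
  ∃ Φ : R3 ≃ₜ R3, Φ '' strandCurve T a b = quad t0 t1 T

/-- (M4) the quadrilateral is a round circle up to a homeomorphism of space. -/
def QuadStatement : Prop := ∀ t0 t1 T : ℝ, 0 < t0 → t0 < t1 → t1 < T →
  ∃ Ψ : R3 ≃ₜ R3, Ψ '' quad t0 t1 T = stdCircle

/-- (M) two-strand polygons are unknotted. -/
def MonoStatement : Prop := ∀ E, IsPolygon E → Mono E → Unknotted E

/-- (M5) -/
theorem mono_of (h1 : MonoCycStatement) (h2 : LiftStatement) (h3 : StraightenStatement)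
    (h4 : QuadStatement) : MonoStatement := by
  intro E hE hm
  obtain ⟨n, N, g, hc, hu⟩ := h1 E hE hm
  obtain ⟨t0, t1, T, a, b, hs, Θ, hΘ⟩ := h2 E n N g hE hc hu
  obtain ⟨Φ, hΦ⟩ := h3 t0 t1 T a b hs
  obtain ⟨Ψ, hΨ⟩ := h4 t0 t1 T hs.pos hs.lt hs.lt'
  refine ⟨(Θ.trans Φ).trans Ψ, ?_⟩
  rw [← hΨ, ← hΦ, ← hΘ, image_image, image_image]
  rfl

/-- `p` is a self-avoiding path of columns of `B` from `a` to `a'`. -/
def PathIn (B : Finset (ℤ × ℤ)) (a a' : ℤ × ℤ) (p : List (ℤ × ℤ)) : Prop :=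
  p.head? = some a ∧ p.getLast? = some a' ∧ p.Nodup ∧ p.IsChain Adj2 ∧ ∀ c ∈ p, c ∈ B

/-- The ways in which two strands over `s = (a, b)` may continue to `s' = (a', b')` at a level. -/
def Links (B : Finset (ℤ × ℤ)) (s s' : (ℤ × ℤ) × (ℤ × ℤ)) :
    Set (List (ℤ × ℤ) × List (ℤ × ℤ)) :=
  {m | PathIn B s.1 s'.1 m.1 ∧ PathIn B s.2 s'.2 m.2 ∧ m.1.Disjoint m.2}

/-- The generating function of these ways; `z` counts the horizontal edges. -/
noncomputable def linkGF (B : Finset (ℤ × ℤ)) (z : ℝ) (s s' : (ℤ × ℤ) × (ℤ × ℤ)) : ℝ :=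
  ∑ᶠ m ∈ Links B s s', z ^ (m.1.length - 1 + (m.2.length - 1))

/-- (G5) Transfer: if `v ≥ 0`, `v ≠ 0`, and `v ≤ y z² T v` for the two-strand transfer operator
`T`, then the two-strand polygons of the (connected) tube have divergent generating function. -/
def TransferStatement : Prop := ∀ (B : Finset (ℤ × ℤ)) (y z : ℝ)
  (v : (ℤ × ℤ) × (ℤ × ℤ) → ℝ), 0 < y → 0 < z → (∀ s, 0 ≤ v s) →
  (∃ s, 0 < v s ∧ s.1 ∈ B ∧ s.2 ∈ B ∧ s.1 ≠ s.2) →
  (∀ a ∈ B, ∀ b ∈ B, a ≠ b → v (a, b) ≤ y * z ^ 2 * ∑ s' ∈ B ×ˢ B, linkGF B z (a, b) s' * v s') →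
  (∀ a ∈ B, ∀ b ∈ B, ∃ p, PathIn B a b p) →
  ¬ Summable fun E : {E : ES // IsPolygon E ∧ Mono E ∧ InTube B E ∧ NormZ E} =>
    z ^ E.1.card * y ^ span E.1

/-- The rectangular cross section with `l × m` columns. -/
def rectB (l m : ℕ) : Finset (ℤ × ℤ) := (Finset.range l ×ˢ Finset.range m).image
  fun c => ((c.1 : ℤ), (c.2 : ℤ))

/-- (G6) the certificates: for the tubes with cross sections of `3 × 2`, `4 × 2`, `3 × 3` columns
there are `z' < z` with `z ^ 4 * hPoly B z < 1` and a vector as in `TransferStatement` at `z'`. -/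
def Certificate (B : Finset (ℤ × ℤ)) : Prop := ∃ z' z : ℝ, 0 < z' ∧ z' < z ∧ z ≤ 1 ∧
  z ^ 4 * hPoly B z < 1 ∧ ∃ v : (ℤ × ℤ) × (ℤ × ℤ) → ℝ, (∀ s, 0 ≤ v s) ∧
    (∃ s, 0 < v s ∧ s.1 ∈ B ∧ s.2 ∈ B ∧ s.1 ≠ s.2) ∧
    ∀ a ∈ B, ∀ b ∈ B, a ≠ b → v (a, b) ≤ z' ^ 2 * ∑ s' ∈ B ×ˢ B, linkGF B z' (a, b) s' * v s'

/-- (G7) the gap without tension for the three small tubes. -/
def SmallStatement : Prop := Gap (rectB 3 2) 1 ∧ Gap (rectB 4 2) 1 ∧ Gap (rectB 3 3) 1

end Pool.Agent.LatticeTube
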