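import Pool.Agent.LatticeTube.RenDefs

/-! (R1) The renewal theorem with exponential tails. -/

set_option autoImplicit false

open Filter Topology Finset

namespace Pool.Agent.LatticeTube

/-- the tails -/
private noncomputable def tl (a : ℕ → ℝ) (m : ℕ) : ℝ := 1 - ∑ k ∈ range m, a k

private lemma ren_bd {a v : ℕ → ℝ} (ha : ∀ n, 0 ≤ a n) (hs : HasSum a 1) (h0 : v 0 = 1)
    (hv : ∀ n, 1 ≤ n → v n = ∑ m ∈ range n, a m * v (n - (m + 1))) (n : ℕ) :
    v n ∈ Set.Icc (0 : ℝ) 1 := by
  induction n using Nat.strong_induction_on with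
  | _ n ih =>
    rcases Nat.eq_zero_or_pos n with rfl | hn
    · rw [h0]; simp
    · rw [hv n hn]
      constructor
      · refine Finset.sum_nonneg fun m hm => mul_nonneg (ha m) (ih _ ?_).1
        omega
      · have h1 : ∑ m ∈ range n, a m * v (n - (m + 1)) ≤ ∑ m ∈ range n, a m := by
          refine Finset.sum_le_sum fun m hm => ?_
          have := (ih (n - (m + 1)) (by omega)).2
          have := ha m
          nlinarith
        exact h1.trans (sum_le_hasSum _ (fun m _ => ha m) hs)

private lemma ren_id {a v : ℕ → ℝ} (h0 : v 0 = 1)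
    (hv : ∀ n, 1 ≤ n → v n = ∑ m ∈ range n, a m * v (n - (m + 1))) (n : ℕ) :
    ∑ m ∈ range (n + 1), tl a m * v (n - m) = 1 := by
  induction n with
  | zero => simp [tl, h0]
  | succ n ih =>
    rw [Finset.sum_range_succ']
    have h1 : ∀ m ∈ range (n + 1), tl a (m + 1) * v (n + 1 - (m + 1)) =
        tl a m * v (n - m) - a m * v (n + 1 - (m + 1)) := by
      intro m _
      have h2 : n + 1 - (m + 1) = n - m := by omega
      rw [h2, tl, tl, Finset.sum_range_succ]
      ring
    rw [Finset.sum_congr rfl h1, Finset.sum_sub_distrib, ih, ← hv (n + 1) (by omega)]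
    simp [tl]

private lemma ren_core_lim {a v : ℕ → ℝ} (ha : ∀ n, 0 ≤ a n) (ha0 : 0 < a 0) (hs : HasSum a 1)
    (h0 : v 0 = 1) (hv : ∀ n, 1 ≤ n → v n = ∑ m ∈ range n, a m * v (n - (m + 1)))
    (hG : Summable (tl a)) (hG0 : ∀ m, 0 ≤ tl a m) (s L : ℝ) (hsne : s ≠ 0)
    (hL : MapClusterPt L atTop v) (hmax : ∀ x, MapClusterPt x atTop v → 0 ≤ s * (L - x)) :
    L * ∑' m, tl a m = 1 := by
  have hbd := ren_bd ha hs h0 hv
  obtain ⟨U, hU, hUL⟩ := mapClusterPt_iff_ultrafilter.1 hL
  -- limits of the shifts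
  have hshift : ∀ j : ℕ, Tendsto (fun n : ℕ => n - j) atTop atTop := fun j => tendsto_sub_atTop_nat j
  have hlim : ∀ j : ℕ, ∃ l : ℝ, Tendsto (fun n => v (n - j)) U (𝓝 l) := by
    intro j
    obtain ⟨l, _, hl⟩ := (isCompact_Icc (a := (0 : ℝ)) (b := 1)).ultrafilter_le_nhds'
      (U.map fun n => v (n - j)) (Ultrafilter.mem_map.2
        (Filter.mem_of_superset Filter.univ_mem fun n _ => hbd _))
    exact ⟨l, hl⟩
  choose l hl using hlim
  have hl0 : l 0 = L := tendsto_nhds_unique (by simpa using hl 0) hUL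
  have hcl : ∀ j, MapClusterPt (l j) atTop v := by
    intro j
    refine mapClusterPt_iff_ultrafilter.2 ⟨U.map fun n => n - j, ?_, ?_⟩
    · exact (Filter.map_mono hU).trans (hshift j)
    · exact hl j
  have heq : ∀ j, l j = ∑' m, a m * l (j + (m + 1)) := by
    intro j
    have h1 : Tendsto (fun n => ∑' m, if m < n - j then a m * v (n - j - (m + 1)) else 0) U
        (𝓝 (∑' m, a m * l (j + (m + 1)))) := by
      refine tendsto_tsum_of_dominated_convergence (bound := a) hs.summable ?_ ?_
      · intro m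
        have h2 : ∀ᶠ n in (U : Filter ℕ), (if m < n - j then a m * v (n - j - (m + 1)) else 0) =
            a m * v (n - (j + (m + 1))) := by
          have : ∀ᶠ n in (atTop : Filter ℕ), m < n - j := (hshift j).eventually_gt_atTop m
          filter_upwards [hU this] with n hn
          rw [if_pos hn]
          congr 2
          omega
        refine Tendsto.congr' (Filter.EventuallyEq.symm h2) ?_
        exact (hl (j + (m + 1))).const_mul (a m)
      · refine Filter.Eventually.of_forall fun n m => ?_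
        split_ifs
        · rw [Real.norm_eq_abs, abs_of_nonneg (mul_nonneg (ha m) (hbd _).1)]
          have := (hbd (n - j - (m + 1))).2
          have := ha m
          nlinarith
        · simpa using ha m
    have h3 : Tendsto (fun n => v (n - j)) U (𝓝 (∑' m, a m * l (j + (m + 1)))) := by
      refine Tendsto.congr' ?_ h1
      have : ∀ᶠ n in (atTop : Filter ℕ), 0 < n - j := (hshift j).eventually_gt_atTop 0
      filter_upwards [hU this] with n hn
      rw [hv (n - j) hn, tsum_eq_sum (s := range (n - j))]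
      · refine Finset.sum_congr rfl fun m hm => ?_
        rw [if_pos (Finset.mem_range.1 hm)]
      · intro m hm
        rw [if_neg (by simpa using hm)]
    exact tendsto_nhds_unique (hl j) h3
  have hlL : ∀ j, l j = L := by
    intro j
    induction j with
    | zero => exact hl0
    | succ j ih =>
      have hlb : ∀ i, l i ∈ Set.Icc (0 : ℝ) 1 := fun i =>
        isClosed_Icc.mem_of_tendsto (hl i) (Filter.Eventually.of_forall fun n => hbd _)
      have hsl : Summable fun m => a m * l (j + (m + 1)) := by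
        refine Summable.of_nonneg_of_le (fun m => mul_nonneg (ha m) (hlb _).1) (fun m => ?_)
          hs.summable
        have := (hlb (j + (m + 1))).2
        have := ha m
        nlinarith
      have h1 : HasSum (fun m => s * (a m * (L - l (j + (m + 1))))) (s * (1 * L - l j)) := by
        refine HasSum.mul_left s ?_
        have h2 : HasSum (fun m => a m * L - a m * l (j + (m + 1))) (1 * L - l j) := by
          refine (hs.mul_right L).sub ?_
          rw [heq j]
          exact hsl.hasSum
        refine h2.congr_fun fun m => ?_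
        ring
      rw [ih, one_mul, sub_self, mul_zero] at h1
      have h3 : ∀ m, 0 ≤ s * (a m * (L - l (j + (m + 1)))) := by
        intro m
        have := mul_nonneg (ha m) (hmax _ (hcl (j + (m + 1))))
        nlinarith
      have h4 := (hasSum_zero_iff_of_nonneg h3).1 h1
      have h5 := congrFun h4 0
      simp only [Pi.zero_apply] at h5
      have h6 : L - l (j + (0 + 1)) = 0 := by
        rcases mul_eq_zero.1 h5 with h7 | h7
        · exact absurd h7 hsne
        · rcases mul_eq_zero.1 h7 with h8 | h8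
          · exact absurd h8 ha0.ne'
          · exact h8
      have h9 : l (j + 1) = L := by
        have : j + (0 + 1) = j + 1 := rfl
        rw [this] at h6
        linarith
      exact h9
  have h1 : Tendsto (fun n => ∑' m, if m < n + 1 then tl a m * v (n - m) else 0) U
      (𝓝 (∑' m, tl a m * L)) := by
    refine tendsto_tsum_of_dominated_convergence (bound := tl a) hG ?_ ?_
    · intro m
      have h2 : ∀ᶠ n in (U : Filter ℕ), (if m < n + 1 then tl a m * v (n - m) else 0) =
          tl a m * v (n - m) := by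
        filter_upwards [hU (eventually_ge_atTop m)] with n hn
        rw [if_pos (by omega)]
      refine Tendsto.congr' (Filter.EventuallyEq.symm h2) ?_
      have := (hl m).const_mul (tl a m)
      rwa [hlL m] at this
    · refine Filter.Eventually.of_forall fun n m => ?_
      split_ifs
      · rw [Real.norm_eq_abs, abs_of_nonneg (mul_nonneg (hG0 m) (hbd _).1)]
        have := (hbd (n - m)).2
        have := hG0 m
        nlinarith
      · simpa using hG0 m
  have h2 : (fun n => ∑' m, if m < n + 1 then tl a m * v (n - m) else 0) = fun _ : ℕ => (1 : ℝ) := by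
    funext n
    rw [tsum_eq_sum (s := range (n + 1)), ← ren_id h0 hv n]
    · refine Finset.sum_congr rfl fun m hm => ?_
      rw [if_pos (Finset.mem_range.1 hm)]
    · intro m hm
      rw [if_neg (by simpa using hm)]
  rw [h2] at h1
  have h3 := tendsto_nhds_unique h1 tendsto_const_nhds
  rw [tsum_mul_right, mul_comm] at h3
  exact h3

private lemma ren_core {a v : ℕ → ℝ} (ha : ∀ n, 0 ≤ a n) (ha0 : 0 < a 0) (hs : HasSum a 1)
    (h0 : v 0 = 1) (hv : ∀ n, 1 ≤ n → v n = ∑ m ∈ range n, a m * v (n - (m + 1)))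
    (hG : Summable (tl a)) : ∃ c : ℝ, 0 < c ∧ Tendsto v atTop (𝓝 c) := by
  have hG0 : ∀ m, 0 ≤ tl a m := fun m => by
    have := sum_le_hasSum (range m) (fun m _ => ha m) hs
    unfold tl
    linarith
  have hbd := ren_bd ha hs h0 hv
  set K : Set ℝ := {x | MapClusterPt x atTop v} with hK
  have hKc : IsClosed K := isClosed_setOfPred_clusterPt
  have hKI : K ⊆ Set.Icc (0 : ℝ) 1 := by
    intro x hx
    obtain ⟨U, _, hUx⟩ := mapClusterPt_iff_ultrafilter.1 hx
    exact isClosed_Icc.mem_of_tendsto hUx (Filter.Eventually.of_forall fun n => hbd n)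
  have hKcp : IsCompact K := isCompact_Icc.of_isClosed_subset hKc hKI
  have hKne : K.Nonempty := by
    obtain ⟨x, _, hx⟩ := (isCompact_Icc (a := (0 : ℝ)) (b := 1)).exists_mapClusterPt
      (f := (atTop : Filter ℕ)) (u := v)
      (Filter.tendsto_principal.2 (Filter.Eventually.of_forall fun n => hbd n))
    exact ⟨x, hx⟩
  obtain ⟨L, hLK, hLmax⟩ := hKcp.exists_isGreatest hKne
  obtain ⟨L', hLK', hLmin⟩ := hKcp.exists_isLeast hKne
  have h1 := ren_core_lim ha ha0 hs h0 hv hG hG0 1 L one_ne_zero hLK fun x hx => by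
    have := hLmax hx
    linarith
  have h2 := ren_core_lim ha ha0 hs h0 hv hG hG0 (-1) L' (by norm_num) hLK' fun x hx => by
    have := hLmin hx
    linarith
  have hμ : (∑' m, tl a m) ≠ 0 := by
    intro h
    rw [h, mul_zero] at h1
    exact zero_ne_one h1
  have h3 : L' = L := mul_right_cancel₀ hμ (h2.trans h1.symm)
  refine ⟨L, ?_, ?_⟩
  · have h4 : 0 ≤ L := (hKI hLK).1
    refine lt_of_le_of_ne h4 ?_
    rintro rfl
    rw [zero_mul] at h1
    exact zero_ne_one h1
  · refine (isCompact_Icc (a := (0 : ℝ)) (b := 1)).tendsto_nhds_of_unique_mapClusterPt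
      (Filter.Eventually.of_forall fun n => hbd n) ?_
    intro x _ hx
    have h5 := hLmax hx
    have h6 := hLmin hx
    rw [h3] at h6
    exact le_antisymm h5 h6

/-- partial sums of a renewal sequence -/
private lemma ren_part {a w : ℕ → ℝ} (h0 : w 0 = 1)
    (hw : ∀ n, 1 ≤ n → w n = ∑ m ∈ range n, a m * w (n - (m + 1))) (N : ℕ) :
    ∑ k ∈ range (N + 1), w k =
      1 + ∑ m ∈ range N, a m * ∑ k ∈ range (N - (m + 1) + 1), w k := by
  induction N with
  | zero => simp [h0]
  | succ N ih =>
    rw [Finset.sum_range_succ, ih, hw (N + 1) (by omega), Finset.sum_range_succ,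
      Finset.sum_range_succ (n := N)]
    have h1 : ∀ m ∈ range N, a m * ∑ k ∈ range (N + 1 - (m + 1) + 1), w k =
        a m * ∑ k ∈ range (N - (m + 1) + 1), w k + a m * w (N + 1 - (m + 1)) := by
      intro m hm
      have hm' := Finset.mem_range.1 hm
      have h2 : N + 1 - (m + 1) = N - (m + 1) + 1 := by omega
      rw [h2, Finset.sum_range_succ]
      ring
    rw [Finset.sum_congr rfl h1, Finset.sum_add_distrib]
    simp [h0]
    ring

private lemma ren_upper {a w : ℕ → ℝ} (ha : ∀ n, 0 ≤ a n) (hwn : ∀ n, 0 ≤ w n) (h0 : w 0 = 1)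
    (hw : ∀ n, 1 ≤ n → w n = ∑ m ∈ range n, a m * w (n - (m + 1))) {q : ℝ} (hq : q < 1)
    (hA : ∀ M, ∑ m ∈ range M, a m ≤ q) : Summable w := by
  refine summable_of_sum_range_le (c := 1 / (1 - q)) hwn fun N => ?_
  have hmono : ∀ M N, M ≤ N → ∑ k ∈ range M, w k ≤ ∑ k ∈ range N, w k := fun M N h =>
    Finset.sum_le_sum_of_subset_of_nonneg (Finset.range_mono h) fun i _ _ => hwn i
  refine (hmono N (N + 1) (by omega)).trans ?_
  have h1 := ren_part h0 hw N
  set S := ∑ k ∈ range (N + 1), w k with hS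
  have hS0 : 0 ≤ S := Finset.sum_nonneg fun i _ => hwn i
  have h2 : ∑ m ∈ range N, a m * ∑ k ∈ range (N - (m + 1) + 1), w k ≤
      ∑ m ∈ range N, a m * S :=
    Finset.sum_le_sum fun m _ => mul_le_mul_of_nonneg_left (hmono _ _ (by omega)) (ha m)
  rw [← Finset.sum_mul] at h2
  have h3 : (∑ m ∈ range N, a m) * S ≤ q * S := mul_le_mul_of_nonneg_right (hA N) hS0
  rw [le_div_iff₀ (by linarith)]
  nlinarith

private lemma ren_lower {a w : ℕ → ℝ} (ha : ∀ n, 0 ≤ a n) (hwn : ∀ n, 0 ≤ w n) (h0 : w 0 = 1)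
    (hw : ∀ n, 1 ≤ n → w n = ∑ m ∈ range n, a m * w (n - (m + 1))) (hs : Summable w) (M : ℕ) :
    ∑ m ∈ range M, a m ≤ 1 := by
  have hmono : ∀ M N, M ≤ N → ∑ k ∈ range M, w k ≤ ∑ k ∈ range N, w k := fun M N h =>
    Finset.sum_le_sum_of_subset_of_nonneg (Finset.range_mono h) fun i _ _ => hwn i
  have h1 : Tendsto (fun N => ∑ k ∈ range (N + M + 1), w k) atTop (𝓝 (∑' k, w k)) := by
    have := hs.hasSum.tendsto_sum_nat
    exact this.comp (tendsto_atTop_mono (fun N => by show N ≤ N + M + 1; omega) tendsto_id)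
  have h2 : Tendsto (fun N => 1 + (∑ m ∈ range M, a m) * ∑ k ∈ range (N + 1), w k) atTop
      (𝓝 (1 + (∑ m ∈ range M, a m) * ∑' k, w k)) := by
    refine Tendsto.const_add _ (Tendsto.const_mul _ ?_)
    have := hs.hasSum.tendsto_sum_nat
    exact this.comp (tendsto_add_atTop_nat 1)
  have h3 : 1 + (∑ m ∈ range M, a m) * ∑' k, w k ≤ ∑' k, w k := by
    refine le_of_tendsto_of_tendsto h2 h1 (Filter.Eventually.of_forall fun N => ?_)
    show 1 + (∑ m ∈ range M, a m) * ∑ k ∈ range (N + 1), w k ≤ ∑ k ∈ range (N + M + 1), w k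
    rw [ren_part h0 hw (N + M), Finset.sum_mul]
    have h4 : ∑ m ∈ range M, a m * ∑ k ∈ range (N + 1), w k ≤
        ∑ m ∈ range M, a m * ∑ k ∈ range (N + M - (m + 1) + 1), w k := by
      refine Finset.sum_le_sum fun m hm => mul_le_mul_of_nonneg_left (hmono _ _ ?_) (ha m)
      have := Finset.mem_range.1 hm
      omega
    have h5 : ∑ m ∈ range M, a m * ∑ k ∈ range (N + M - (m + 1) + 1), w k ≤
        ∑ m ∈ range (N + M), a m * ∑ k ∈ range (N + M - (m + 1) + 1), w k := by
      refine Finset.sum_le_sum_of_subset_of_nonneg (Finset.range_mono (by omega)) fun m _ _ => ?_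
      exact mul_nonneg (ha m) (Finset.sum_nonneg fun i _ => hwn i)
    linarith
  have h6 : (1 : ℝ) ≤ ∑' k, w k := by
    rw [← h0]
    exact hs.le_tsum 0 fun i _ => hwn i
  nlinarith

theorem renewalStatement : RenewalStatement := by
  intro f u ρ r hfu hρ hρr hfr hlt hgt
  have hr : 0 < r := hρ.trans hρr
  have hu : ∀ n, 0 ≤ u n := by
    intro n
    induction n using Nat.strong_induction_on with
    | _ n ih =>
      rcases Nat.eq_zero_or_pos n with rfl | hn
      · rw [hfu.init]; exact zero_le_one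
      · rw [hfu.step n hn]
        refine Finset.sum_nonneg fun m hm => mul_nonneg (hfu.nonneg _) (ih _ ?_)
        omega
  -- the renewal equation for weighted sequences
  have hren : ∀ x : ℝ, ∀ n, 1 ≤ n → u n * x ^ n =
      ∑ m ∈ range n, (f (m + 1) * x ^ (m + 1)) * (u (n - (m + 1)) * x ^ (n - (m + 1))) := by
    intro x n hn
    rw [hfu.step n hn, Finset.sum_mul]
    refine Finset.sum_congr rfl fun m hm => ?_
    have h1 : m + 1 + (n - (m + 1)) = n := by
      have := Finset.mem_range.1 hm
      omega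
    have h2 : x ^ n = x ^ (m + 1) * x ^ (n - (m + 1)) := by rw [← pow_add, h1]
    rw [h2]
    ring
  have hinit : ∀ x : ℝ, u 0 * x ^ 0 = 1 := fun x => by rw [hfu.init]; simp
  -- partial sums at ρ
  have hle : ∀ M, ∑ m ∈ range M, f (m + 1) * ρ ^ (m + 1) ≤ 1 := by
    intro M
    have hc : Continuous fun x : ℝ => ∑ m ∈ range M, f (m + 1) * x ^ (m + 1) := by fun_prop
    have ht : Tendsto (fun x : ℝ => ∑ m ∈ range M, f (m + 1) * x ^ (m + 1)) (𝓝[<] ρ)
        (𝓝 (∑ m ∈ range M, f (m + 1) * ρ ^ (m + 1))) :=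
      (hc.tendsto ρ).mono_left nhdsWithin_le_nhds
    refine le_of_tendsto ht ?_
    filter_upwards [Ioo_mem_nhdsLT hρ] with x hx
    exact ren_lower (w := fun n => u n * x ^ n)
      (fun n => mul_nonneg (hfu.nonneg _) (pow_nonneg hx.1.le _))
      (fun n => mul_nonneg (hu _) (pow_nonneg hx.1.le _)) (hinit x) (hren x)
      (hlt x hx.1.le hx.2) M
  have han : ∀ n, 0 ≤ f (n + 1) * ρ ^ (n + 1) := fun n =>
    mul_nonneg (hfu.nonneg _) (pow_nonneg hρ.le _)
  have hsum : Summable fun m => f (m + 1) * ρ ^ (m + 1) := summable_of_sum_range_le han hle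
  have hrs : Summable fun m => f (m + 1) * r ^ (m + 1) :=
    (summable_nat_add_iff (f := fun n => f n * r ^ n) 1).2 hfr
  have hrn : ∀ m, 0 ≤ f (m + 1) * r ^ (m + 1) := fun m =>
    mul_nonneg (hfu.nonneg _) (pow_nonneg hr.le _)
  set q0 := ∑' m, f (m + 1) * ρ ^ (m + 1) with hq0
  set R := ∑' m, f (m + 1) * r ^ (m + 1) with hR
  have hR0 : 0 ≤ R := tsum_nonneg hrn
  have hq1 : q0 ≤ 1 := Real.tsum_le_of_sum_range_le han hle
  have hq00 : 0 ≤ q0 := tsum_nonneg han
  have hq : q0 = 1 := by
    by_contra hne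
    have hlt1 : q0 < 1 := lt_of_le_of_ne hq1 hne
    set t := (1 - q0) / (2 * (R + 1)) with ht
    have ht0 : 0 < t := div_pos (by linarith) (by linarith)
    have htR : t * R ≤ (1 - q0) / 2 := by
      have h1 : t * (R + 1) = (1 - q0) / 2 := by
        rw [ht]
        field_simp
      nlinarith
    have ht1 : t ≤ 1 := by
      rw [ht, div_le_one (by linarith)]
      linarith
    set x := (1 - t) * ρ + t * r with hx
    have hxρ : ρ < x := by
      rw [hx]
      nlinarith
    have hx0 : 0 ≤ x := (hρ.trans hxρ).le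
    refine hgt x hxρ ?_
    refine ren_upper (a := fun m => f (m + 1) * x ^ (m + 1)) (w := fun n => u n * x ^ n)
      (fun n => mul_nonneg (hfu.nonneg _) (pow_nonneg hx0 _))
      (fun n => mul_nonneg (hu _) (pow_nonneg hx0 _)) (hinit x) (hren x)
      (q := (1 + q0) / 2) (by linarith) ?_
    intro M
    have h1 : ∀ m ∈ range M, f (m + 1) * x ^ (m + 1) ≤
        (1 - t) * (f (m + 1) * ρ ^ (m + 1)) + t * (f (m + 1) * r ^ (m + 1)) := by
      intro m _
      have h2 : x ^ (m + 1) ≤ (1 - t) * ρ ^ (m + 1) + t * r ^ (m + 1) := by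
        have := (convexOn_pow (𝕜 := ℝ) (m + 1)).2 (Set.mem_Ici.2 hρ.le) (Set.mem_Ici.2 hr.le)
          (show 0 ≤ 1 - t by linarith) ht0.le (by ring)
        simpa [smul_eq_mul] using this
      have h3 := mul_le_mul_of_nonneg_left h2 (hfu.nonneg (m + 1))
      calc f (m + 1) * x ^ (m + 1) ≤ f (m + 1) * ((1 - t) * ρ ^ (m + 1) + t * r ^ (m + 1)) := h3
        _ = _ := by ring
    refine (Finset.sum_le_sum h1).trans ?_
    rw [Finset.sum_add_distrib, ← Finset.mul_sum, ← Finset.mul_sum]
    have h4 : ∑ m ∈ range M, f (m + 1) * ρ ^ (m + 1) ≤ q0 := hsum.sum_le_tsum _ fun i _ => han i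
    have h5 : ∑ m ∈ range M, f (m + 1) * r ^ (m + 1) ≤ R := hrs.sum_le_tsum _ fun i _ => hrn i
    have h6 : (1 - t) * ∑ m ∈ range M, f (m + 1) * ρ ^ (m + 1) ≤ (1 - t) * q0 :=
      mul_le_mul_of_nonneg_left h4 (by linarith)
    have h7 : t * ∑ m ∈ range M, f (m + 1) * r ^ (m + 1) ≤ t * R :=
      mul_le_mul_of_nonneg_left h5 ht0.le
    nlinarith
  have hs1 : HasSum (fun m => f (m + 1) * ρ ^ (m + 1)) 1 := by
    rw [← hq]
    exact hsum.hasSum
  have hG : Summable (tl fun m => f (m + 1) * ρ ^ (m + 1)) := by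
    have hgeo : Summable fun m : ℕ => (ρ / r) ^ m * R :=
      (summable_geometric_of_lt_one (by positivity) ((div_lt_one hr).2 hρr)).mul_right R
    refine Summable.of_nonneg_of_le (fun m => ?_) (fun m => ?_) hgeo
    · have := sum_le_hasSum (range m) (fun m _ => han m) hs1
      unfold tl
      linarith
    · have h1 := hsum.sum_add_tsum_nat_add m
      have h2 : tl (fun m => f (m + 1) * ρ ^ (m + 1)) m =
          ∑' k, f (k + m + 1) * ρ ^ (k + m + 1) := by
        rw [hs1.tsum_eq] at h1
        unfold tl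
        linarith
      rw [h2]
      have h3 : Summable fun k => f (k + m + 1) * r ^ (k + m + 1) :=
        (summable_nat_add_iff (f := fun k => f (k + 1) * r ^ (k + 1)) m).2 hrs
      have h4 : Summable fun k => f (k + m + 1) * ρ ^ (k + m + 1) :=
        (summable_nat_add_iff (f := fun k => f (k + 1) * ρ ^ (k + 1)) m).2 hsum
      have h5 : ∑' k, f (k + m + 1) * r ^ (k + m + 1) ≤ R := by
        have h6 := hrs.sum_add_tsum_nat_add m
        have h7 : 0 ≤ ∑ i ∈ range m, f (i + 1) * r ^ (i + 1) :=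
          Finset.sum_nonneg fun i _ => hrn i
        linarith
      calc ∑' k, f (k + m + 1) * ρ ^ (k + m + 1)
          ≤ ∑' k, (ρ / r) ^ m * (f (k + m + 1) * r ^ (k + m + 1)) := by
            refine h4.tsum_le_tsum (fun k => ?_) (h3.mul_left _)
            have h8 : ρ ^ (k + m + 1) ≤ (ρ / r) ^ m * r ^ (k + m + 1) := by
              have h9 : ρ ^ (k + m + 1) = ρ ^ m * ρ ^ (k + 1) := by rw [← pow_add]; congr 1; ring
              have h10 : (ρ / r) ^ m * r ^ (k + m + 1) = ρ ^ m * r ^ (k + 1) := by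
                rw [div_pow, show k + m + 1 = m + (k + 1) by ring, pow_add]
                field_simp
              rw [h9, h10]
              exact mul_le_mul_of_nonneg_left (pow_le_pow_left₀ hρ.le hρr.le _)
                (pow_nonneg hρ.le _)
            have h11 := mul_le_mul_of_nonneg_left h8 (hfu.nonneg (k + m + 1))
            calc f (k + m + 1) * ρ ^ (k + m + 1)
                ≤ f (k + m + 1) * ((ρ / r) ^ m * r ^ (k + m + 1)) := h11
              _ = _ := by ring
        _ = (ρ / r) ^ m * ∑' k, f (k + m + 1) * r ^ (k + m + 1) := tsum_mul_left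
        _ ≤ (ρ / r) ^ m * R := mul_le_mul_of_nonneg_left h5 (by positivity)
  exact ren_core (v := fun n => u n * ρ ^ n) han
    (by simpa using mul_pos hfu.one (pow_pos hρ 1)) hs1 (hinit ρ) (hren ρ) hG

end Pool.Agent.LatticeTube
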