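import Pool.Agent.LatticeTube.RenDefs

/-! (R2) Limits of convolution powers. -/

set_option autoImplicit false

open Filter Topology Finset

namespace Pool.Agent.LatticeTube

/-- rising products -/
private noncomputable def wt (p n : ℕ) : ℝ := ∏ i ∈ range p, ((n : ℝ) + 1 + i)

private lemma wt_pos (p n : ℕ) : 0 < wt p n := Finset.prod_pos fun i _ => by positivity

private lemma one_le_wt (p n : ℕ) : 1 ≤ wt p n := by
  have h : ∏ _i ∈ range p, (1 : ℝ) ≤ ∏ i ∈ range p, ((n : ℝ) + 1 + i) := by
    apply Finset.prod_le_prod (fun i _ => zero_le_one)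
    intro i _
    have h1 : (0 : ℝ) ≤ n := Nat.cast_nonneg n
    have h2 : (0 : ℝ) ≤ i := Nat.cast_nonneg i
    linarith
  rwa [Finset.prod_const_one] at h

private lemma abs_div_wt (p n : ℕ) (x : ℝ) : |x / wt p n| = |x| / wt p n := by
  rw [abs_div, abs_of_pos (wt_pos p n)]

private lemma wt_succ (p n : ℕ) : wt (p + 1) n = wt p n * ((n : ℝ) + 1 + p) := by
  rw [wt, Finset.prod_range_succ, ← wt]

private lemma wt_shift (p n : ℕ) : wt (p + 1) n = ((n : ℝ) + 1) * wt p (n + 1) := by
  rw [wt, Finset.prod_range_succ', wt, mul_comm]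
  congr 1
  · push_cast
    ring
  · apply Finset.prod_congr rfl
    intro i _
    push_cast
    ring

private lemma wt_mono (p : ℕ) : Monotone (wt p) := by
  intro m n h
  apply Finset.prod_le_prod
  · intro i _
    positivity
  · intro i _
    have : (m : ℝ) ≤ n := by exact_mod_cast h
    linarith

private lemma wt_sum (p n : ℕ) : ∑ m ∈ range (n + 1), wt p m = wt (p + 1) n / (p + 1) := by
  have hp : (p : ℝ) + 1 ≠ 0 := by positivity
  induction n with
  | zero =>
    rw [Finset.sum_range_one, wt_succ]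
    field_simp
    push_cast
    ring
  | succ n ih =>
    rw [Finset.sum_range_succ, ih, wt_shift p n, wt_succ p (n + 1)]
    field_simp
    push_cast
    ring

private lemma wt_div_pow (p : ℕ) : Tendsto (fun n : ℕ => wt p n / (n : ℝ) ^ p) atTop (𝓝 1) := by
  have h1 : ∀ i : ℕ, Tendsto (fun n : ℕ => ((n : ℝ) + 1 + i) / n) atTop (𝓝 1) := by
    intro i
    have h2 : Tendsto (fun n : ℕ => 1 + ((1 : ℝ) + i) / n) atTop (𝓝 (1 + 0)) :=
      tendsto_const_nhds.add (tendsto_const_div_atTop_nhds_zero_nat _)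
    rw [add_zero] at h2
    refine h2.congr' ?_
    filter_upwards [eventually_gt_atTop 0] with n hn
    have : (n : ℝ) ≠ 0 := by exact_mod_cast hn.ne'
    field_simp
    ring
  have h2 := tendsto_finsetProd (range p) (fun i _ => h1 i)
  rw [Finset.prod_const_one] at h2
  refine h2.congr fun n => ?_
  rw [Finset.prod_div_distrib, Finset.prod_const, Finset.card_range, wt]

private lemma conv_eq (a b : ℕ → ℝ) (n : ℕ) : conv a b n = ∑ k ∈ range (n + 1), a k * b (n - k) := by
  rw [conv]
  exact Finset.Nat.sum_antidiagonal_eq_sum_range_succ_mk (fun p => a p.1 * b p.2) n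

/-- a bounded-average lemma -/
private lemma lemA {a b : ℕ → ℝ} {α β : ℝ} {p : ℕ} (hb : Tendsto b atTop (𝓝 β))
    (ha : Tendsto (fun n => a n / wt p n) atTop (𝓝 α)) :
    Tendsto (fun n => conv b a n / wt (p + 1) n) atTop (𝓝 (α * β / (p + 1))) := by
  obtain ⟨K, hK⟩ : ∃ K : ℝ, ∀ n, |b n| ≤ K := by
    obtain ⟨K, hK⟩ := (Metric.isBounded_range_of_tendsto b hb).exists_norm_le
    exact ⟨K, fun n => hK _ ⟨n, rfl⟩⟩
  have hK0 : 0 ≤ K := (abs_nonneg _).trans (hK 0)
  -- first error
  have h1 : (fun m => |a m - α * wt p m|) =o[atTop] (wt p) := by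
    rw [Asymptotics.isLittleO_iff_tendsto' (Eventually.of_forall fun n h => absurd h (wt_pos p n).ne')]
    have h2 : Tendsto (fun n => |a n / wt p n - α|) atTop (𝓝 |α - α|) := (ha.sub_const α).abs
    rw [sub_self, abs_zero] at h2
    refine h2.congr fun n => ?_
    have h3 := wt_pos p n
    rw [← abs_div_wt]
    congr 1
    field_simp
  have h2 : Tendsto (fun n => ∑ i ∈ range n, wt p i) atTop atTop := by
    refine tendsto_atTop_mono (fun n => ?_) (tendsto_natCast_atTop_atTop (R := ℝ))
    calc (n : ℝ) = ∑ _i ∈ range n, (1 : ℝ) := by simp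
      _ ≤ _ := Finset.sum_le_sum fun i _ => one_le_wt p i
  have h3 := h1.sum_range (fun n => (wt_pos p n).le) h2
  have h4 : Tendsto (fun n => (∑ i ∈ range (n + 1), |a i - α * wt p i|) / wt (p + 1) n) atTop (𝓝 0) := by
    have h5 := (h3.tendsto_div_nhds_zero).comp (tendsto_add_atTop_nat 1)
    have h6 : Tendsto (fun n => (1 / ((p : ℝ) + 1)) *
        ((∑ i ∈ range (n + 1), |a i - α * wt p i|) / ∑ i ∈ range (n + 1), wt p i)) atTop
        (𝓝 ((1 / ((p : ℝ) + 1)) * 0)) := h5.const_mul _
    rw [mul_zero] at h6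
    refine h6.congr fun n => ?_
    rw [wt_sum]
    have := (wt_pos (p + 1) n).ne'
    have hp : (p : ℝ) + 1 ≠ 0 := by positivity
    field_simp
  -- second error
  have h5 : Tendsto (fun n : ℕ => ((n + 1 : ℕ) : ℝ)⁻¹ * ∑ k ∈ range (n + 1), |b k - β|) atTop (𝓝 0) := by
    have h6 : Tendsto (fun n => |b n - β|) atTop (𝓝 |β - β|) := (hb.sub_const β).abs
    rw [sub_self, abs_zero] at h6
    exact h6.cesaro.comp (tendsto_add_atTop_nat 1)
  have h6 : Tendsto (fun n => K * ((∑ i ∈ range (n + 1), |a i - α * wt p i|) / wt (p + 1) n) +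
      |α| * (((n + 1 : ℕ) : ℝ)⁻¹ * ∑ k ∈ range (n + 1), |b k - β|)) atTop (𝓝 0) := by
    have := (h4.const_mul K).add (h5.const_mul |α|)
    simpa using this
  rw [tendsto_iff_norm_sub_tendsto_zero]
  refine squeeze_zero (fun n => norm_nonneg _) (fun n => ?_) h6
  have hw := wt_pos (p + 1) n
  have h7 : conv b a n - α * β / (p + 1) * wt (p + 1) n =
      ∑ k ∈ range (n + 1), b k * (a (n - k) - α * wt p (n - k)) +
        α * ∑ k ∈ range (n + 1), wt p (n - k) * (b k - β) := by
    have h8 : wt (p + 1) n / (p + 1) = ∑ k ∈ range (n + 1), wt p (n - k) := by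
      rw [← wt_sum, ← Finset.sum_range_reflect]
      apply Finset.sum_congr rfl
      intro k _
      congr 1
    have h9 : α * β / (p + 1) * wt (p + 1) n = α * β * (wt (p + 1) n / (p + 1)) := by ring
    rw [h9, h8, conv_eq, Finset.mul_sum, Finset.mul_sum, ← Finset.sum_sub_distrib,
      ← Finset.sum_add_distrib]
    apply Finset.sum_congr rfl
    intro k _
    ring
  have h10 : ‖conv b a n / wt (p + 1) n - α * β / (p + 1)‖ =
      |conv b a n - α * β / (p + 1) * wt (p + 1) n| / wt (p + 1) n := by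
    rw [Real.norm_eq_abs, ← abs_div_wt]
    congr 1
    field_simp
  rw [h10, h7]
  have h11 : |∑ k ∈ range (n + 1), b k * (a (n - k) - α * wt p (n - k))| ≤
      K * ∑ i ∈ range (n + 1), |a i - α * wt p i| := by
    refine (Finset.abs_sum_le_sum_abs _ _).trans ?_
    rw [← Finset.sum_range_reflect, Finset.mul_sum]
    apply Finset.sum_le_sum
    intro k hk
    rw [Finset.mem_range] at hk
    have e : n - (n + 1 - 1 - k) = k := by omega
    rw [abs_mul, e]
    exact mul_le_mul_of_nonneg_right (hK _) (abs_nonneg _)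
  have h12 : |α * ∑ k ∈ range (n + 1), wt p (n - k) * (b k - β)| ≤
      |α| * (wt p n * ∑ k ∈ range (n + 1), |b k - β|) := by
    rw [abs_mul]
    apply mul_le_mul_of_nonneg_left _ (abs_nonneg _)
    refine (Finset.abs_sum_le_sum_abs _ _).trans ?_
    rw [Finset.mul_sum]
    apply Finset.sum_le_sum
    intro k _
    rw [abs_mul, abs_of_pos (wt_pos p (n - k))]
    exact mul_le_mul_of_nonneg_right (wt_mono p (Nat.sub_le _ _)) (abs_nonneg _)
  have h13 : wt p n / wt (p + 1) n ≤ ((n + 1 : ℕ) : ℝ)⁻¹ := by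
    rw [wt_succ, div_mul_eq_div_div, div_self (wt_pos p n).ne', one_div]
    apply inv_anti₀ (by positivity)
    push_cast
    have : (0 : ℝ) ≤ p := Nat.cast_nonneg p
    linarith
  have hS : 0 ≤ ∑ k ∈ range (n + 1), |b k - β| := Finset.sum_nonneg fun _ _ => abs_nonneg _
  calc |_ + _| / wt (p + 1) n
      ≤ (K * ∑ i ∈ range (n + 1), |a i - α * wt p i| +
          |α| * (wt p n * ∑ k ∈ range (n + 1), |b k - β|)) / wt (p + 1) n := by
        apply div_le_div_of_nonneg_right ((abs_add_le _ _).trans (add_le_add h11 h12)) hw.le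
    _ = K * ((∑ i ∈ range (n + 1), |a i - α * wt p i|) / wt (p + 1) n) +
        |α| * ((wt p n / wt (p + 1) n) * ∑ k ∈ range (n + 1), |b k - β|) := by
        rw [add_div]
        ring
    _ ≤ _ := by
        gcongr

/-- dominated convergence -/
private lemma lemB {a c : ℕ → ℝ} {α : ℝ} {j : ℕ} (hc : ∀ n, 0 ≤ c n) (hs : Summable c)
    (ha : Tendsto (fun n => a n / wt j n) atTop (𝓝 α)) :
    Tendsto (fun n => conv c a n / wt j n) atTop (𝓝 ((∑' n, c n) * α)) := by
  obtain ⟨K, hK⟩ : ∃ K : ℝ, ∀ n, |a n / wt j n| ≤ K := by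
    obtain ⟨K, hK⟩ := (Metric.isBounded_range_of_tendsto _ ha).exists_norm_le
    exact ⟨K, fun n => hK _ ⟨n, rfl⟩⟩
  have hK' : ∀ n, |a n| ≤ K * wt j n := by
    intro n
    have := hK n
    rw [abs_div, abs_of_pos (wt_pos j n), div_le_iff₀ (wt_pos j n)] at this
    exact this
  have hK0 : 0 ≤ K := (abs_nonneg _).trans (hK 0)
  -- shifts
  have hsh : ∀ m : ℕ, Tendsto (fun n => wt j n / wt j (n + m)) atTop (𝓝 1) := by
    intro m
    have h1 : ∀ i : ℕ, Tendsto (fun n : ℕ => ((n : ℝ) + 1 + i) / (((n + m : ℕ) : ℝ) + 1 + i)) atTop (𝓝 1) := by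
      intro i
      have h2 : Tendsto (fun n : ℕ => 1 - (m : ℝ) / (((n + (m + 1 + i) : ℕ) : ℝ))) atTop (𝓝 (1 - 0)) :=
        tendsto_const_nhds.sub ((tendsto_const_div_atTop_nhds_zero_nat (m : ℝ)).comp
          (tendsto_add_atTop_nat (m + 1 + i)))
      rw [sub_zero] at h2
      refine h2.congr fun n => ?_
      have h3 : (((n + (m + 1 + i) : ℕ) : ℝ)) = ((n + m : ℕ) : ℝ) + 1 + i := by
        push_cast
        ring
      rw [h3]
      have h4 : ((n + m : ℕ) : ℝ) + 1 + i ≠ 0 := by positivity
      field_simp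
      push_cast
      ring
    have h2 := tendsto_finsetProd (range j) (fun i _ => h1 i)
    rw [Finset.prod_const_one] at h2
    refine h2.congr fun n => ?_
    rw [Finset.prod_div_distrib, wt, wt]
  have h1 : ∀ n, conv c a n / wt j n = ∑' k, (if k ≤ n then c k * a (n - k) / wt j n else 0) := by
    intro n
    rw [tsum_eq_sum (s := range (n + 1)), conv_eq, Finset.sum_div]
    · apply Finset.sum_congr rfl
      intro k hk
      rw [if_pos (Nat.lt_succ_iff.mp (Finset.mem_range.mp hk))]
    · intro k hk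
      rw [if_neg]
      intro h
      exact hk (Finset.mem_range.mpr (Nat.lt_succ_of_le h))
  simp only [h1]
  rw [← tsum_mul_right]
  refine tendsto_tsum_of_dominated_convergence (bound := fun k => c k * K) (hs.mul_right K) ?_ ?_
  · intro k
    have h2 : Tendsto (fun n => c k * ((a n / wt j n) * (wt j n / wt j (n + k)))) atTop (𝓝 (c k * (α * 1))) :=
      (ha.mul (hsh k)).const_mul _
    rw [mul_one] at h2
    rw [← tendsto_add_atTop_iff_nat k]
    refine h2.congr fun n => ?_
    rw [if_pos (Nat.le_add_left k n), Nat.add_sub_cancel]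
    have h3 := (wt_pos j n).ne'
    field_simp
  · refine Eventually.of_forall fun n k => ?_
    split_ifs with h
    · rw [Real.norm_eq_abs, abs_div, abs_mul, abs_of_nonneg (hc k), abs_of_pos (wt_pos j n),
        div_le_iff₀ (wt_pos j n), mul_assoc]
      apply mul_le_mul_of_nonneg_left _ (hc k)
      refine (hK' _).trans ?_
      exact mul_le_mul_of_nonneg_left (wt_mono j (Nat.sub_le _ _)) hK0
    · rw [norm_zero]
      exact mul_nonneg (hc k) hK0

private lemma conv_scale (a b : ℕ → ℝ) (ρ : ℝ) (n : ℕ) :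
    conv (fun n => a n * ρ ^ n) (fun n => b n * ρ ^ n) n = conv a b n * ρ ^ n := by
  rw [conv, conv, Finset.sum_mul]
  apply Finset.sum_congr rfl
  intro p hp
  rw [HasAntidiagonal.mem_antidiagonal] at hp
  rw [← hp, pow_add]
  ring

private lemma convPow_scale (u : ℕ → ℝ) (ρ : ℝ) (j : ℕ) :
    convPow (fun n => u n * ρ ^ n) j = fun n => convPow u j n * ρ ^ n := by
  induction j with
  | zero =>
    funext n
    simp only [convPow]
    split_ifs with h
    · rw [h]
      simp
    · simp
  | succ j ih =>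
    funext n
    simp only [convPow]
    rw [ih, conv_scale]

private lemma convPow_lim {v : ℕ → ℝ} {γ : ℝ} (hv : Tendsto v atTop (𝓝 γ)) (j : ℕ) :
    Tendsto (fun n => convPow v (j + 1) n / wt j n) atTop (𝓝 (γ ^ (j + 1) / (j.factorial : ℝ))) := by
  induction j with
  | zero =>
    have h1 : ∀ n, convPow v 1 n / wt 0 n = v n := by
      intro n
      simp only [convPow, wt, Finset.range_zero, Finset.prod_empty, div_one]
      rw [conv_eq, Finset.sum_eq_single n]
      · simp
      · intro k hk hne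
        rw [if_neg, mul_zero]
        rw [Finset.mem_range] at hk
        omega
      · intro h
        exact absurd (Finset.mem_range.mpr (Nat.lt_succ_self n)) h
    simp only [h1]
    simpa using hv
  | succ j ih =>
    have h1 := lemA hv ih
    have h2 : γ ^ (j + 1) / (j.factorial : ℝ) * γ / ((j : ℝ) + 1) =
        γ ^ (j + 1 + 1) / ((j + 1).factorial : ℝ) := by
      rw [Nat.factorial_succ]
      push_cast
      have : (j.factorial : ℝ) ≠ 0 := by exact_mod_cast j.factorial_ne_zero
      have hj : (j : ℝ) + 1 ≠ 0 := by positivity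
      field_simp
      ring
    rw [← h2]
    exact h1

theorem convPowStatement : ConvPowStatement := by
  intro u c ρ γ j hρ _ hc hu hs
  have h1 := lemB (c := fun n => c n * ρ ^ n) (fun n => mul_nonneg (hc n) (pow_pos hρ n).le) hs
    (convPow_lim hu j)
  have h2 := h1.mul (wt_div_pow j)
  rw [mul_one, ← mul_div_assoc] at h2
  refine h2.congr' ?_
  filter_upwards [eventually_gt_atTop 0] with n hn
  rw [convPow_scale, conv_scale]
  have h3 := (wt_pos j n).ne'
  have h4 : (n : ℝ) ^ j ≠ 0 := pow_ne_zero _ (by exact_mod_cast hn.ne')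
  field_simp

end Pool.Agent.LatticeTube
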