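import Pool.Agent.LatticeTube.Walks

/-! (G5), first part: the construction of two-strand polygons level by level. -/

set_option autoImplicit false

open Pool.Agent.LK Set

namespace Pool.Agent.LatticeTube

/-- States: the ordered pair of columns of the two strands. -/
abbrev St := (ℤ × ℤ) × (ℤ × ℤ)

/-- The path `p` of columns at the level `k`. -/
def lev (k : ℕ) (p : List (ℤ × ℤ)) : List P3 := p.map fun c => (c.1, c.2, (k : ℤ))

theorem mem_lev {k : ℕ} {p : List (ℤ × ℤ)} {u : P3} :
    u ∈ lev k p ↔ (u.1, u.2.1) ∈ p ∧ u.2.2 = k := by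
  simp only [lev, List.mem_map]
  constructor
  · rintro ⟨c, hc, rfl⟩
    exact ⟨hc, rfl⟩
  · rintro ⟨h, hk⟩
    refine ⟨_, h, ?_⟩
    ext <;> simp [hk]

theorem lev_nodup {k : ℕ} {p : List (ℤ × ℤ)} (h : p.Nodup) : (lev k p).Nodup :=
  h.map fun c d hcd => by
    have h1 := congrArg Prod.fst hcd
    have h2 := congrArg (fun u : P3 => u.2.1) hcd
    exact Prod.ext h1 h2

theorem lev_chain {k : ℕ} {p : List (ℤ × ℤ)} (h : p.IsChain Adj2) : (lev k p).IsChain Adj := by
  rw [lev, List.isChain_map]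
  refine h.imp fun c d hcd => ?_
  simp only [Adj, sub_self, abs_zero, add_zero]
  exact hcd

theorem lev_chain_rev {k : ℕ} {p : List (ℤ × ℤ)} (h : p.IsChain Adj2) :
    (lev k p).reverse.IsChain Adj := by
  rw [List.isChain_reverse]
  exact (lev_chain h).imp fun _ _ h => h.symm

theorem lev_injective (k : ℕ) : Function.Injective (lev k) :=
  List.map_injective_iff.2 fun c d hcd => by
    have h1 := congrArg Prod.fst hcd
    have h2 := congrArg (fun u : P3 => u.2.1) hcd
    exact Prod.ext h1 h2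

theorem adj_vert (c : ℤ × ℤ) (N : ℕ) : Adj (c.1, c.2, (N : ℤ)) (c.1, c.2, ((N + 1 : ℕ) : ℤ)) := by
  simp [Adj]

variable {B : Finset (ℤ × ℤ)} {p0 : List (ℤ × ℤ)} {c0 : ℤ × ℤ}

theorem PathIn.head_lev {a a' : ℤ × ℤ} {p : List (ℤ × ℤ)} (h : PathIn B a a' p) (k : ℕ) :
    (lev k p).head? = some (a.1, a.2, (k : ℤ)) := by
  rw [lev, List.head?_map, h.1]; rfl

theorem PathIn.last_lev {a a' : ℤ × ℤ} {p : List (ℤ × ℤ)} (h : PathIn B a a' p) (k : ℕ) :
    (lev k p).getLast? = some (a'.1, a'.2, (k : ℤ)) := by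
  rw [lev, List.getLast?_map, h.2.1]; rfl

theorem PathIn.ne_nil {a a' : ℤ × ℤ} {p : List (ℤ × ℤ)} (h : PathIn B a a' p) : p ≠ [] := by
  rintro rfl
  simpa using h.1

theorem PathIn.two_le {a a' : ℤ × ℤ} {p : List (ℤ × ℤ)} (h : PathIn B a a' p) (hne : a ≠ a') :
    2 ≤ p.length := by
  obtain ⟨h1, h2, _⟩ := h
  rcases p with _ | ⟨x, _ | ⟨y, p⟩⟩
  · simp at h1
  · simp only [List.head?_cons, Option.some.injEq] at h1
    simp only [List.getLast?_singleton, Option.some.injEq] at h2
    exact absurd (h1.symm.trans h2) hne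
  · simp

/-- The invariants of the two growing lists: `P` runs from the column `c0` at level `0` along the
bottom path and up to the second strand at level `N`; `R` runs down from the first strand at level
`N` to the column `c0` at level `0`. -/
structure Inv (B : Finset (ℤ × ℤ)) (p0 : List (ℤ × ℤ)) (c0 : ℤ × ℤ) (N : ℕ) (s : St)
    (P R : List P3) : Prop where
  ne : s.1 ≠ s.2
  mem1 : s.1 ∈ B
  mem2 : s.2 ∈ B
  pre : lev 0 p0 <+: P
  headR : R.head? = some (s.1.1, s.1.2, (N : ℤ))
  lastR : R.getLast? = some (c0.1, c0.2, 0)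
  lastP : P.getLast? = some (s.2.1, s.2.2, (N : ℤ))
  chainP : P.IsChain Adj
  chainR : R.IsChain Adj
  nodup : (P ++ R.dropLast).Nodup
  levP : ∀ u ∈ P, 0 ≤ u.2.2 ∧ u.2.2 ≤ N ∧ (u.1, u.2.1) ∈ B
  levR : ∀ u ∈ R, 0 ≤ u.2.2 ∧ u.2.2 ≤ N ∧ (u.1, u.2.1) ∈ B
  monoP : P.Pairwise fun u v => u.2.2 ≤ v.2.2
  monoR : R.Pairwise fun u v => v.2.2 ≤ u.2.2
  land : (R = [(c0.1, c0.2, 0)] ∧ N = 0) ∨ [(c0.1, c0.2, 1), (c0.1, c0.2, 0)] <:+ R
  sec : ∀ k : ℤ, 0 ≤ k → k < N → ∃ c : ℤ × ℤ, s((c.1, c.2, k), (c.1, c.2, k + 1)) ∈ pedges P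

theorem Inv.R_ne {N : ℕ} {s : St} {P R : List P3} (h : Inv B p0 c0 N s P R) : R ≠ [] := by
  rintro rfl
  simpa using h.headR

theorem Inv.P_ne {N : ℕ} {s : St} {P R : List P3} (h : Inv B p0 c0 N s P R) : P ≠ [] := by
  rintro rfl
  simpa using h.lastP

/-- Start. -/
theorem inv_zero {s : St} (h0 : PathIn B s.1 s.2 p0) (hne : s.1 ≠ s.2) :
    Inv B p0 s.1 0 s (lev 0 p0) [(s.1.1, s.1.2, 0)] where
  ne := hne
  mem1 := h0.2.2.2.2 _ (List.mem_of_mem_head? h0.1)
  mem2 := h0.2.2.2.2 _ (List.mem_of_mem_getLast? h0.2.1)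
  pre := List.prefix_rfl
  headR := rfl
  lastR := rfl
  lastP := h0.last_lev 0
  chainP := lev_chain h0.2.2.2.1
  chainR := List.isChain_singleton _
  nodup := by simpa using lev_nodup h0.2.2.1
  levP := by
    intro u hu
    obtain ⟨h1, h2⟩ := mem_lev.1 hu
    rw [h2]
    exact ⟨le_rfl, le_rfl, h0.2.2.2.2 _ h1⟩
  levR := by
    intro u hu
    simp only [List.mem_singleton] at hu
    subst hu
    exact ⟨le_rfl, le_rfl, h0.2.2.2.2 _ (List.mem_of_mem_head? h0.1)⟩
  monoP := by
    refine List.pairwise_of_forall_mem_list fun u hu v hv => ?_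
    rw [(mem_lev.1 hu).2, (mem_lev.1 hv).2]
  monoR := List.pairwise_singleton _ _
  land := Or.inl ⟨rfl, rfl⟩
  sec := by intro k h1 h2; exfalso; simp only [Nat.cast_zero] at h2; omega

theorem nodup_ext {N : ℕ} {P R : List P3} {p q : List (ℤ × ℤ)} (h : (P ++ R).Nodup)
    (hP : ∀ u ∈ P, u.2.2 ≤ (N : ℤ)) (hR : ∀ u ∈ R, u.2.2 ≤ (N : ℤ)) (hp : p.Nodup) (hq : q.Nodup)
    (hpq : p.Disjoint q) : (P ++ lev (N + 1) q ++ ((lev (N + 1) p).reverse ++ R)).Nodup := by
  have hlev : ∀ (l : List (ℤ × ℤ)) (u : P3), u ∈ lev (N + 1) l → (N : ℤ) < u.2.2 := by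
    intro l u hu
    rw [(mem_lev.1 hu).2]; push_cast; omega
  rw [List.nodup_append] at h
  obtain ⟨h1, h2, h3⟩ := h
  rw [List.nodup_append, List.nodup_append, List.nodup_append]
  refine ⟨⟨h1, lev_nodup hq, ?_⟩, ⟨List.nodup_reverse.2 (lev_nodup hp), h2, ?_⟩, ?_⟩
  · rintro u hu v hv rfl
    have := hlev _ _ hv
    have := hP u hu
    omega
  · rintro u hu v hv rfl
    have := hlev _ _ (List.mem_reverse.1 hu)
    have := hR u hv
    omega
  · intro u hu v hv huv
    subst huv
    rcases List.mem_append.1 hu with hu | hu <;> rcases List.mem_append.1 hv with hv | hv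
    · have := hlev _ _ (List.mem_reverse.1 hv)
      have := hP u hu
      omega
    · exact h3 u hu u hv rfl
    · exact hpq (mem_lev.1 (List.mem_reverse.1 hv)).1 (mem_lev.1 hu).1
    · have := hlev _ _ hu
      have := hR u hv
      omega

theorem chain_up {N : ℕ} {P : List P3} {a : ℤ × ℤ} {q : List (ℤ × ℤ)} {a' : ℤ × ℤ}
    (hP : P.IsChain Adj) (hl : P.getLast? = some (a.1, a.2, (N : ℤ))) (hq : PathIn B a a' q) :
    (P ++ lev (N + 1) q).IsChain Adj := by
  refine hP.append (lev_chain hq.2.2.2.1) ?_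
  intro x hx y hy
  rw [hl] at hx
  rw [hq.head_lev] at hy
  simp only [Option.mem_def, Option.some.injEq] at hx hy
  subst hx hy
  exact adj_vert a N

theorem Inv.ext {N : ℕ} {s s' : St} {P R : List P3} (h : Inv B p0 c0 N s P R)
    {m : List (ℤ × ℤ) × List (ℤ × ℤ)} (hm : m ∈ Links B s s') :
    Inv B p0 c0 (N + 1) s' (P ++ lev (N + 1) m.2) ((lev (N + 1) m.1).reverse ++ R) := by
  obtain ⟨h1, h2, hd⟩ := hm
  have hne : s'.1 ≠ s'.2 := by
    intro he
    exact hd (List.mem_of_mem_getLast? h1.2.1) (he ▸ List.mem_of_mem_getLast? h2.2.1)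
  exact
  { ne := hne
    mem1 := h1.2.2.2.2 _ (List.mem_of_mem_getLast? h1.2.1)
    mem2 := h2.2.2.2.2 _ (List.mem_of_mem_getLast? h2.2.1)
    pre := h.pre.trans (List.prefix_append _ _)
    headR := by
      rw [List.head?_append, List.head?_reverse, h1.last_lev]; rfl
    lastR := by
      rw [List.getLast?_append, h.lastR]; rfl
    lastP := by
      rw [List.getLast?_append, h2.last_lev]; rfl
    chainP := chain_up h.chainP h.lastP h2
    chainR := by
      refine List.IsChain.append (lev_chain_rev h1.2.2.2.1) h.chainR ?_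
      intro x hx y hy
      rw [List.getLast?_reverse, h1.head_lev] at hx
      rw [h.headR] at hy
      simp only [Option.mem_def, Option.some.injEq] at hx hy
      subst hx hy
      exact (adj_vert s.1 N).symm
    nodup := by
      rw [List.dropLast_append_of_ne_nil h.R_ne]
      refine nodup_ext h.nodup (fun u hu => (h.levP u hu).2.1)
        (fun u hu => (h.levR u (List.mem_of_mem_dropLast hu)).2.1) h1.2.2.1 h2.2.2.1 hd
    levP := by
      intro u hu
      rcases List.mem_append.1 hu with hu | hu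
      · obtain ⟨a, b, c⟩ := h.levP u hu
        exact ⟨a, by push_cast; omega, c⟩
      · obtain ⟨a, b⟩ := mem_lev.1 hu
        rw [b]
        exact ⟨by positivity, le_rfl, h2.2.2.2.2 _ a⟩
    levR := by
      intro u hu
      rcases List.mem_append.1 hu with hu | hu
      · obtain ⟨a, b⟩ := mem_lev.1 (List.mem_reverse.1 hu)
        rw [b]
        exact ⟨by positivity, le_rfl, h1.2.2.2.2 _ a⟩
      · obtain ⟨a, b, c⟩ := h.levR u hu
        exact ⟨a, by push_cast; omega, c⟩
    monoP := by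
      rw [List.pairwise_append]
      refine ⟨h.monoP, ?_, ?_⟩
      · refine List.pairwise_of_forall_mem_list fun u hu v hv => ?_
        rw [(mem_lev.1 hu).2, (mem_lev.1 hv).2]
      · intro u hu v hv
        rw [(mem_lev.1 hv).2]
        have := (h.levP u hu).2.1
        push_cast; omega
    monoR := by
      rw [List.pairwise_append]
      refine ⟨?_, h.monoR, ?_⟩
      · refine List.pairwise_of_forall_mem_list fun u hu v hv => ?_
        rw [(mem_lev.1 (List.mem_reverse.1 hu)).2, (mem_lev.1 (List.mem_reverse.1 hv)).2]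
      · intro u hu v hv
        rw [(mem_lev.1 (List.mem_reverse.1 hu)).2]
        have := (h.levR v hv).2.1
        push_cast; omega
    land := by
      right
      rcases h.land with ⟨hR, hN⟩ | hR
      · subst hN
        have hs : s.1 = c0 := by
          have h5 := h.headR
          rw [hR] at h5
          simp only [List.head?_cons, Option.some.injEq, Prod.mk.injEq] at h5
          exact Prod.ext h5.1.symm h5.2.1.symm
        obtain ⟨r, hr⟩ : ∃ r, m.1 = s.1 :: r := by
          obtain ⟨h6, _⟩ := h1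
          rcases hm : m.1 with _ | ⟨x, r⟩
          · rw [hm] at h6; simp at h6
          · rw [hm] at h6
            simp only [List.head?_cons, Option.some.injEq] at h6
            exact ⟨r, by rw [h6]⟩
        rw [hR, hr, hs, lev, List.map_cons, List.reverse_cons, List.append_assoc]
        exact ⟨_, rfl⟩
      · exact hR.trans (List.suffix_append _ _)
    sec := by
      intro k hk0 hk
      rcases lt_or_ge k N with h7 | h7
      · obtain ⟨c, hc⟩ := h.sec k hk0 h7
        exact ⟨c, pedges_append_left _ _ hc⟩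
      · have h8 : k = N := by push_cast at hk; omega
        subst h8
        refine ⟨s.2, ?_⟩
        obtain ⟨P', hP'⟩ := List.getLast?_eq_some_iff.1 h.lastP
        obtain ⟨r, hr⟩ : ∃ r, lev (N + 1) m.2 = (s.2.1, s.2.2, ((N + 1 : ℕ) : ℤ)) :: r := by
          have h6 := h2.head_lev (N + 1)
          rcases hm : lev (N + 1) m.2 with _ | ⟨x, r⟩
          · rw [hm] at h6; simp at h6
          · rw [hm] at h6
            simp only [List.head?_cons, Option.some.injEq] at h6
            exact ⟨r, by rw [h6]⟩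
        rw [hP', hr]
        have := mem_pedges_append P' r (s.2.1, s.2.2, (N : ℤ)) (s.2.1, s.2.2, ((N + 1 : ℕ) : ℤ))
        push_cast at this ⊢
        exact this }

end Pool.Agent.LatticeTube
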