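import Pool.Agent.LatticeTube.Grid

/-! The gap under moderate tension for the tubes that contain a small tube: the word bound against
the two-strand polygons of the small tube. -/

set_option autoImplicit false

open Pool.Agent.LK Set

namespace Pool.Agent.LatticeTube

/-- The word bound for the polygons with few two-sections. -/
theorem words_upper (B : Finset (ℤ × ℤ)) {x z : ℝ} (hx1 : 1 ≤ x) (hz0 : 0 < z)
    (hw : (x + 3) * z + 5 * x * z ^ 2 < 1) :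
    Summable (fun E : Poly B => z ^ E.1.card * (x ^ 4) ^ span E.1 * ((x ^ 2)⁻¹) ^ numTwo E.1) := by
  have hx0 : 0 < x := by linarith
  refine Summable.of_nonneg_of_le (fun E => by positivity) (fun E => ?_)
    (wordStatement B x z hx1 hz0 hw)
  rw [mul_assoc]
  refine mul_le_mul_of_nonneg_left ?_ (by positivity)
  have h5 := sectionStatement.1 E.1 E.2.1
  have h6 : x ^ (4 * span E.1) ≤ x ^ (vert E.1 + 2 * numTwo E.1) := pow_le_pow_right₀ hx1 h5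
  rw [← pow_mul, inv_pow, ← pow_mul]
  rw [pow_add] at h6
  rw [← div_eq_mul_inv, div_le_iff₀ (by positivity)]
  exact h6

/-- The two-strand polygons of a small tube `B' ⊆ B` give the lower bound. -/
theorem ud_lower {B B' : Finset (ℤ × ℤ)} (hsub : B' ⊆ B)
    (hconn : ∀ a ∈ B', ∀ b ∈ B', ∃ p, PathIn B' a b p) {y z' : ℝ} (hy : 0 < y) (hz' : 0 < z')
    (v : (ℤ × ℤ) × (ℤ × ℤ) → ℝ) (hv : ∀ s, 0 ≤ v s)
    (hv1 : ∃ s, 0 < v s ∧ s.1 ∈ B' ∧ s.2 ∈ B' ∧ s.1 ≠ s.2)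
    (hv2 : ∀ a ∈ B', ∀ b ∈ B', a ≠ b →
      v (a, b) ≤ y * z' ^ 2 * ∑ s' ∈ B' ×ˢ B', linkGF B' z' (a, b) s' * v s') :
    ¬ Summable (fun E : UPoly B => z' ^ E.1.card * y ^ span E.1) := by
  intro hs
  refine transferUD B' y z' v hy hz' hv hv1 hv2 hconn ?_
  let f : {E : ES // IsPolygon E ∧ UD E ∧ InTube B' E ∧ NormZ E} → UPoly B :=
    fun E => ⟨E.1, E.2.1, unknotted_of_ud E.1 E.2.1 E.2.2.1, fun u hu => hsub (E.2.2.2.1 u hu),
      E.2.2.2.2⟩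
  have hf : Function.Injective f := by
    intro E F hEF
    apply Subtype.ext
    exact congrArg (fun G : UPoly B => G.1) hEF
  exact (hs.comp_injective hf).congr fun E => rfl

namespace G6

/-- The certificate for the tensions between `Y` and `(X / 1000) ^ 4`. -/
structure StepW (l m : ℕ) (A : ℕ → List ℕ) (N' N1 D F Y X : ℕ) (V : ℕ → ℕ → ℕ) : Prop where
  pos : 0 < N'
  lt : N' < N1
  dpos : 0 < D
  one : 0 < V 0 1
  words : (X + 3000) * N1 * D + 5 * X * N1 ^ 2 < 1000 * D ^ 2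
  check : ∀ i < l * m, ∀ j < l * m, i ≠ j →
    V i j * D ^ (2 * F + 2) ≤ Y * (N' ^ 2 * kT A N' D V F i j)

theorem StepW.vec {l m : ℕ} {A : ℕ → List ℕ} (hA : Table l m A)
    {N' N1 D F Y X : ℕ} {V : ℕ → ℕ → ℕ} (h : StepW l m A N' N1 D F Y X V) (h1 : 1 < l * m)
    {y : ℝ} (hy1 : (Y : ℝ) ≤ y) : ∃ v : (ℤ × ℤ) × (ℤ × ℤ) → ℝ, (∀ s, 0 ≤ v s) ∧
    (∃ s, 0 < v s ∧ s.1 ∈ rectB l m ∧ s.2 ∈ rectB l m ∧ s.1 ≠ s.2) ∧
    ∀ a ∈ rectB l m, ∀ b ∈ rectB l m, a ≠ b → v (a, b) ≤ y * ((N' : ℝ) / D) ^ 2 *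
      ∑ s' ∈ rectB l m ×ˢ rectB l m, linkGF (rectB l m) ((N' : ℝ) / D) (a, b) s' * v s' := by
  have hD' : (0 : ℝ) < D := by exact_mod_cast h.dpos
  have hN' : (0 : ℝ) < N' := by exact_mod_cast h.pos
  refine ⟨fun s => (V (num m s.1) (num m s.2) : ℝ), fun s => Nat.cast_nonneg _, ?_, ?_⟩
  · refine ⟨(col m 0, col m 1), ?_, ?_, ?_, ?_⟩
    · simp only [num_col]
      exact_mod_cast h.one
    · exact (mem_rectB _).mpr ⟨0, by omega, rfl⟩
    · exact (mem_rectB _).mpr ⟨1, by omega, rfl⟩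
    · intro h
      exact absurd (col_inj h) (by omega)
  · intro a ha b hb hab
    rw [mem_rectB] at ha hb
    obtain ⟨i, hi, rfl⟩ := ha
    obtain ⟨j, hj, rfl⟩ := hb
    have hij : i ≠ j := fun h => hab (by rw [h])
    have hz : (0 : ℝ) < (N' : ℝ) / D := by positivity
    have h3 := hA.transfer (F := F) hi hj hij hz
      (fun s => (V (num m s.1) (num m s.2) : ℝ)) (fun s => Nat.cast_nonneg _)
    have h4 := kT_eq (A := A) N' D h.dpos V F i j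
    have h5 := h.check i hi j hj hij
    simp only [num_col] at h3 ⊢
    set S0 := ((prs A F i j).map fun x => ((N' : ℝ) / D) ^ (x.1.length - 1 + (x.2.length - 1)) *
      (V (x.1.getLastD 0) (x.2.getLastD 0) : ℝ)).sum
    have hS0 : 0 ≤ S0 := by
      refine List.sum_nonneg ?_
      intro r hr
      rw [List.mem_map] at hr
      obtain ⟨x, _, rfl⟩ := hr
      positivity
    have h6 : (V i j : ℝ) ≤ (Y : ℝ) * (((N' : ℝ) / D) ^ 2 * S0) := by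
      have h7 : ((V i j : ℝ)) * (D : ℝ) ^ (2 * F + 2) ≤
          (Y : ℝ) * ((N' : ℝ) ^ 2 * ((D : ℝ) ^ (2 * F) * S0)) := by
        rw [← h4]
        exact_mod_cast h5
      have h8 : (0 : ℝ) < (D : ℝ) ^ (2 * F) := by positivity
      have h9 : (0 : ℝ) < (D : ℝ) ^ 2 := by positivity
      rw [div_pow, div_mul_eq_mul_div, ← mul_div_assoc, le_div_iff₀ h9]
      refine le_of_mul_le_mul_right ?_ h8
      rw [pow_add] at h7
      calc _ = (V i j : ℝ) * ((D : ℝ) ^ (2 * F) * (D : ℝ) ^ 2) := by ring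
        _ ≤ _ := h7
        _ = _ := by ring
    calc (V i j : ℝ) ≤ (Y : ℝ) * (((N' : ℝ) / D) ^ 2 * S0) := h6
      _ ≤ y * (((N' : ℝ) / D) ^ 2 * S0) := mul_le_mul_of_nonneg_right hy1 (by positivity)
      _ = y * ((N' : ℝ) / D) ^ 2 * S0 := by ring
      _ ≤ _ := mul_le_mul_of_nonneg_left h3 (by
          have : (0 : ℝ) ≤ y := le_trans (Nat.cast_nonneg _) hy1
          positivity)

theorem StepW.words_lt {l m : ℕ} {A : ℕ → List ℕ} {N' N1 D F Y X : ℕ} {V : ℕ → ℕ → ℕ}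
    (h : StepW l m A N' N1 D F Y X V) {x : ℝ} (hx : x ≤ (X : ℝ) / 1000) :
    (x + 3) * ((N1 : ℝ) / D) + 5 * x * ((N1 : ℝ) / D) ^ 2 < 1 := by
  have hD' : (0 : ℝ) < D := by exact_mod_cast h.dpos
  have hw : (((X + 3000) * N1 * D + 5 * X * N1 ^ 2 : ℕ) : ℝ) < ((1000 * D ^ 2 : ℕ) : ℝ) := by
    exact_mod_cast h.words
  push_cast at hw
  have e : ((X : ℝ) / 1000 + 3) * ((N1 : ℝ) / D) + 5 * ((X : ℝ) / 1000) * ((N1 : ℝ) / D) ^ 2 =
      (((X : ℝ) + 3000) * N1 * D + 5 * X * (N1 : ℝ) ^ 2) / (1000 * (D : ℝ) ^ 2) := by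
    field_simp
    ring
  have h2 : ((X : ℝ) / 1000 + 3) * ((N1 : ℝ) / D) +
      5 * ((X : ℝ) / 1000) * ((N1 : ℝ) / D) ^ 2 < 1 := by
    rw [e, div_lt_one (by positivity)]
    exact hw
  have hz : (0 : ℝ) ≤ (N1 : ℝ) / D := by positivity
  refine lt_of_le_of_lt ?_ h2
  have h3 : (x + 3) * ((N1 : ℝ) / D) ≤ ((X : ℝ) / 1000 + 3) * ((N1 : ℝ) / D) :=
    mul_le_mul_of_nonneg_right (by linarith) hz
  have h4 : 5 * x * ((N1 : ℝ) / D) ^ 2 ≤ 5 * ((X : ℝ) / 1000) * ((N1 : ℝ) / D) ^ 2 :=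
    mul_le_mul_of_nonneg_right (by linarith) (by positivity)
  linarith

theorem root4 {y : ℝ} (hy : 1 ≤ y) : ∃ x : ℝ, 1 ≤ x ∧ x ^ 4 = y := by
  have hy0 : 0 ≤ y := by linarith
  refine ⟨Real.sqrt (Real.sqrt y), ?_, ?_⟩
  · apply Real.le_sqrt_of_sq_le
    apply Real.le_sqrt_of_sq_le
    norm_num
    linarith
  · have h1 : Real.sqrt (Real.sqrt y) ^ 2 = Real.sqrt y := Real.sq_sqrt (Real.sqrt_nonneg _)
    have h2 : Real.sqrt y ^ 2 = y := Real.sq_sqrt hy0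
    calc Real.sqrt (Real.sqrt y) ^ 4 = (Real.sqrt (Real.sqrt y) ^ 2) ^ 2 := by ring
      _ = y := by rw [h1, h2]

theorem gap_of_stepW {l m : ℕ} {A : ℕ → List ℕ} (hA : Table l m A)
    (hconn : ∀ a ∈ rectB l m, ∀ b ∈ rectB l m, ∃ p, PathIn (rectB l m) a b p) (h1 : 1 < l * m)
    {N' N1 D F Y X : ℕ} {V : ℕ → ℕ → ℕ} (h : StepW l m A N' N1 D F Y X V)
    {B : Finset (ℤ × ℤ)} (hB : rectB l m ⊆ B) {y : ℝ} (hy : 1 ≤ y) (hy1 : (Y : ℝ) ≤ y)
    (hy2 : y ≤ ((X : ℝ) / 1000) ^ 4) : Gap B y := by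
  have hD' : (0 : ℝ) < D := by exact_mod_cast h.dpos
  have hN' : (0 : ℝ) < N' := by exact_mod_cast h.pos
  obtain ⟨x, hx1, rfl⟩ := root4 hy
  have hx : x ≤ (X : ℝ) / 1000 := le_of_pow_le_pow_left₀ (by norm_num) (by positivity) hy2
  obtain ⟨v, hv, hv1, hv2⟩ := h.vec hA h1 hy1
  have hN1 : (0 : ℝ) < N1 := hN'.trans (by exact_mod_cast h.lt)
  refine ⟨(N' : ℝ) / D, (N1 : ℝ) / D, (x ^ 2)⁻¹, by positivity, ?_, by positivity, ?_, ?_⟩
  · rw [div_lt_div_iff_of_pos_right hD']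
    exact_mod_cast h.lt
  · exact words_upper B hx1 (by positivity) (h.words_lt hx)
  · exact ud_lower hB hconn (by positivity) (by positivity) v hv hv1 hv2

end G6

end Pool.Agent.LatticeTube
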